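import Pool.Statements.S00164
import Pool.Agent.Helper52.CritFiber

set_option autoImplicit false
open Pool Pool.MP_450528_ag

namespace Pool.Agent.S00164

/-- The negation of the preceding statement: For all d≥2, m_k≥2: if a nonnegative real tensor with entry sum 1 has exactly N distinct critical points of squared distance on rank-one tensors with entry sum 1 (N = generic count), exactly one is real. -/
theorem result :
    ¬ (∀ (d : ℕ) (m : Fin d → ℕ), 2 ≤ d → (∀ k, 2 ≤ m k) →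
  ∀ (Crit : (((k : Fin d) → Fin (m k)) → ℂ) → Set (((k : Fin d) → Fin (m k)) → ℂ)),
  (∀ (T x : ((k : Fin d) → Fin (m k)) → ℂ), x ∈ Crit T ↔
     ((∑ I : ((k : Fin d) → Fin (m k)), x I) = 1 ∧ ∃ a : (k : Fin d) → Fin (m k) → ℂ,
        (∀ I : ((k : Fin d) → Fin (m k)), x I = ∏ k : Fin d, a k (I k)) ∧
        ∀ b : (k : Fin d) → Fin (m k) → ℂ,
          (∑ I : ((k : Fin d) → Fin (m k)),
              (∑ k : Fin d, b k (I k) * ∏ j ∈ Finset.univ.erase k, a j (I j))) = 0 →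
          (∑ I : ((k : Fin d) → Fin (m k)), (x I - T I) *
              (∑ k : Fin d, b k (I k) * ∏ j ∈ Finset.univ.erase k, a j (I j))) = 0)) →
  ∀ N : ℕ,
  (∃ P : MvPolynomial ((k : Fin d) → Fin (m k)) ℂ, P ≠ 0 ∧
     ∀ T : ((k : Fin d) → Fin (m k)) → ℂ, MvPolynomial.eval T P ≠ 0 →
       (Crit T).Finite ∧ (Crit T).ncard = N) →
  ∀ T : ((k : Fin d) → Fin (m k)) → ℝ, (∀ I : ((k : Fin d) → Fin (m k)), 0 ≤ T I) →
    (∑ I : ((k : Fin d) → Fin (m k)), T I) = 1 →
    (Crit (fun I : ((k : Fin d) → Fin (m k)) => (T I : ℂ))).Finite →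
    (Crit (fun I : ((k : Fin d) → Fin (m k)) => (T I : ℂ))).ncard = N →
    {x : ((k : Fin d) → Fin (m k)) → ℂ |
        x ∈ Crit (fun I : ((k : Fin d) → Fin (m k)) => (T I : ℂ)) ∧
        ∀ I : ((k : Fin d) → Fin (m k)), (x I).im = 0}.ncard = 1) := by
  intro H
  obtain ⟨N, hP, T, hT0, hT1, hfin, hcard, x, hx, y, hy, hxy⟩ := Pool.Agent.Helper52.CritFiber.main
  have h := H 3 (fun _ => 2) (by norm_num) (fun _ => le_refl 2) Pool.Agent.Helper52.CritFiber.Crit
    (fun T x => Iff.rfl) N hP T hT0 hT1 hfin hcard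
  rw [Set.ncard_eq_one] at h
  obtain ⟨a, ha⟩ := h
  rw [ha] at hx hy
  exact hxy (hx.trans hy.symm)

end Pool.Agent.S00164
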