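import Pool.Statements.S00426
import Pool.Agent.Helper53.CIReal

set_option autoImplicit false
open Pool Pool.MP_c213cb_ag

namespace Pool.Agent.S00426

/-- The negation of the preceding statement: For every positive real table on n discrete variables with at least 2 states each, there is a positive rational table satisfying exactly the same CI statements X_i indep X_j given X_K (vanishing 2x2 minors of the marginal). -/
theorem result :
    ¬ (∀ (n : ℕ) (d : Fin n → ℕ), (∀ k, 2 ≤ d k) →
  ∀ P : ((k : Fin n) → Fin (d k)) → ℝ, (∀ x, 0 < P x) →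
  ∃ Q : ((k : Fin n) → Fin (d k)) → ℚ, (∀ x, 0 < Q x) ∧
    ∀ (i j : Fin n) (K : Finset (Fin n)), i ≠ j → i ∉ K → j ∉ K →
      ((∀ x y : (k : Fin n) → Fin (d k), (∀ k ∈ K, x k = y k) →
          (∑ z ∈ (Finset.univ : Finset ((k : Fin n) → Fin (d k))).filter
              (fun z : ((k : Fin n) → Fin (d k)) => ∀ k ∈ insert i (insert j K), z k = x k), P z) *
          (∑ z ∈ (Finset.univ : Finset ((k : Fin n) → Fin (d k))).filter
              (fun z : ((k : Fin n) → Fin (d k)) => ∀ k ∈ insert i (insert j K), z k = y k), P z) =
          (∑ z ∈ (Finset.univ : Finset ((k : Fin n) → Fin (d k))).filter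
              (fun z : ((k : Fin n) → Fin (d k)) =>
                ∀ k ∈ insert i (insert j K), z k = Function.update x j (y j) k), P z) *
          (∑ z ∈ (Finset.univ : Finset ((k : Fin n) → Fin (d k))).filter
              (fun z : ((k : Fin n) → Fin (d k)) =>
                ∀ k ∈ insert i (insert j K), z k = Function.update y j (x j) k), P z)) ↔
       (∀ x y : (k : Fin n) → Fin (d k), (∀ k ∈ K, x k = y k) →
          (∑ z ∈ (Finset.univ : Finset ((k : Fin n) → Fin (d k))).filter
              (fun z : ((k : Fin n) → Fin (d k)) => ∀ k ∈ insert i (insert j K), z k = x k), Q z) *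
          (∑ z ∈ (Finset.univ : Finset ((k : Fin n) → Fin (d k))).filter
              (fun z : ((k : Fin n) → Fin (d k)) => ∀ k ∈ insert i (insert j K), z k = y k), Q z) =
          (∑ z ∈ (Finset.univ : Finset ((k : Fin n) → Fin (d k))).filter
              (fun z : ((k : Fin n) → Fin (d k)) =>
                ∀ k ∈ insert i (insert j K), z k = Function.update x j (y j) k), Q z) *
          (∑ z ∈ (Finset.univ : Finset ((k : Fin n) → Fin (d k))).filter
              (fun z : ((k : Fin n) → Fin (d k)) =>
                ∀ k ∈ insert i (insert j K), z k = Function.update y j (x j) k), Q z)))) := by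
  intro h
  obtain ⟨R, hR, hno⟩ := Pool.Agent.Helper53.CI.main
  apply hno
  obtain ⟨Q, hQ, hCI⟩ := h 17 (fun _ => 2) (fun _ => le_rfl) R hR
  exact ⟨Q, hQ, fun i j K hij hi hj => hCI i j K hij hi hj⟩

end Pool.Agent.S00426
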