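import Pool.Statements.S00709
import Pool.Agent.Helper23.Final4

set_option autoImplicit false
open Pool Pool.MP_0d1b1a_al

namespace Pool.Agent.S00709

/-- Every finitely generated subgroup of a one-relator group ⟨A ∣ r⟩ (A finite) is isomorphic to the group of units of the inverse monoid presented by finitely many generators and a single relation w = 1. -/
theorem result :
    ∀ (n : ℕ) (r : FreeGroup (Fin n))
      (H : Subgroup (PresentedGroup ({r} : Set (FreeGroup (Fin n))))),
      H.FG →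
      ∃ (m : ℕ) (w : List (Fin m ⊕ Fin m)) (M : Type) (_ : Monoid M)
        (ι : Fin m ⊕ Fin m → M),
        (∀ x : M, ∃! y : M, x * y * x = x ∧ y * x * y = y) ∧
        (∀ b : Fin m, ι (Sum.inl b) * ι (Sum.inr b) * ι (Sum.inl b) = ι (Sum.inl b) ∧
          ι (Sum.inr b) * ι (Sum.inl b) * ι (Sum.inr b) = ι (Sum.inr b)) ∧
        (w.map ι).prod = 1 ∧
        Submonoid.closure (Set.range ι) = ⊤ ∧
        (∀ (N : Type) [Monoid N],
          (∀ x : N, ∃! y : N, x * y * x = x ∧ y * x * y = y) →
          ∀ f : Fin m ⊕ Fin m → N,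
            (∀ b : Fin m, f (Sum.inl b) * f (Sum.inr b) * f (Sum.inl b) = f (Sum.inl b) ∧
              f (Sum.inr b) * f (Sum.inl b) * f (Sum.inr b) = f (Sum.inr b)) →
            (w.map f).prod = 1 →
            ∃ φ : M →* N, ∀ c, φ (ι c) = f c) ∧
        Nonempty (H ≃* Mˣ) := by
  intro n r H hH
  obtain ⟨w, hw⟩ := OneRel.main_theorem n r H hH
  have ε : Fin (Fintype.card (Fin n ⊕ Bool)) ≃ (Fin n ⊕ Bool) :=
    (Fintype.equivFin (Fin n ⊕ Bool)).symm
  exact ⟨_, OneRel.frozen_shape ε w H hw⟩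

end Pool.Agent.S00709
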