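import Pool.Statements.S00747
import Pool.Agent.L3E.DKM
import Pool.Agent.L3E.CSP
import Pool.Agent.L3E.CLC
import Pool.Agent.L3E.RT.TabA
import Pool.Agent.L3E.RT.TabB
import Pool.Agent.L3E.RM.ClaimM

set_option autoImplicit false
open Pool Pool.MP_0fdb00_al

namespace Pool.Agent.S00747

/-- There is a function f on naturals such that every nilpotent group generated by d elements, each a left 3-Engel element ([[[x,a],a],a]=1 for all x), has upper central series reaching the whole group by step f(d). -/
theorem result :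
    ∃ f : ℕ → ℕ, ∀ (d : ℕ) (G : Type) [Group G] (g : Fin d → G),
      Group.IsNilpotent G →
      Subgroup.closure (Set.range g) = ⊤ →
      (∀ i : Fin d, ∀ x : G, (fun y : G => y⁻¹ * (g i)⁻¹ * y * g i)^[3] x = 1) →
      upperCentralSeries G (f d) = ⊤ := by
  exact L3E.l3e_of_certs L3E.cs_proof
    (L3E.cl_of_r1x L3E.RT.A.i1 L3E.RT.A.h0 L3E.RT.A.i4 L3E.RT.B.al L3E.r1x)

end Pool.Agent.S00747
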