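import Pool.Statements.S00879
import Pool.Agent.BT.Asm

set_option autoImplicit false
open Pool Pool.MP_1e649a_al

namespace Pool.Agent.S00879

/-- Every finitely generated group whose word metric satisfies Gromov's four-point hyperbolicity condition has a normal subgroup F that is a free group, with some fixed n > 0 such that every nth power lies in F (so G/F has finite exponent). -/
theorem result :
  ∀ (G : Type) [Group G],
    (∃ S : Finset G, Subgroup.closure (S : Set G) = ⊤ ∧ ∃ δ : ℕ,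
      ∀ len : G → ℕ,
        (∀ g : G, len g = sInf {n : ℕ | ∃ l : List G, l.length = n ∧
            (∀ s ∈ l, s ∈ S ∨ s⁻¹ ∈ S) ∧ l.prod = g}) →
        ∀ x y z w : G,
          min ((len (x⁻¹ * w) : ℤ) + (len (y⁻¹ * w) : ℤ) - (len (x⁻¹ * y) : ℤ))
              ((len (y⁻¹ * w) : ℤ) + (len (z⁻¹ * w) : ℤ) - (len (y⁻¹ * z) : ℤ)) - 2 * (δ : ℤ)
            ≤ (len (x⁻¹ * w) : ℤ) + (len (z⁻¹ * w) : ℤ) - (len (x⁻¹ * z) : ℤ)) →
    ∃ F : Subgroup G, F.Normal ∧ IsFreeGroup ↥F ∧
      ∃ n : ℕ, 0 < n ∧ ∀ g : G, g ^ n ∈ F := by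
  intro G _ hG
  exact Pool.Agent.BT.full Pool.Agent.BT.Asm.p_TFinal G hG

end Pool.Agent.S00879
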