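import Pool.Statements.S00909
import Pool.Agent.MX.XMain
import Pool.Agent.Mal3.Three
import Pool.Agent.MX.Facts1
import Pool.Agent.MX.Facts2
import Pool.Agent.MX.Facts3
import Pool.Agent.MX.Facts4
import Pool.Agent.MX.Facts5
import Pool.Agent.MX.AltBlock
import Pool.Agent.MX.J4
import Pool.Agent.MX.D
import Pool.Agent.MX.XSysB
import Pool.Agent.MX.Sq

set_option autoImplicit false
open Pool Pool.MP_20e9d0_al

namespace Pool.Agent.S00909

/-- Over every characteristic-0 field, a nonassociative polynomial vanishes on all values from squares of Malcev algebras iff it vanishes on all values from 3-generated Malcev algebras, i.e. Var(A^2) equals the variety of the rank-3 free Malcev algebra. -/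
theorem result :
    ∀ (F : Type) [Field F] [CharZero F],
      ∀ f : FreeNonUnitalNonAssocAlgebra F ℕ,
        (∀ (M : Type) [NonUnitalNonAssocRing M] [Module F M] [IsScalarTower F M M]
            [SMulCommClass F M M],
            (∀ x : M, x * x = 0) →
            (∀ x y z : M, (x * y) * (x * z) = ((x * y) * z) * x + ((y * z) * x) * x + ((z * x) * x) * y) →
            ∀ v : ℕ → M,
              (∀ i, v i ∈ Submodule.span F {m : M | ∃ x y : M, x * y = m}) →
              (FreeNonUnitalNonAssocAlgebra.lift F v) f = 0)
        ↔
        (∀ (M : Type) [NonUnitalNonAssocRing M] [Module F M] [IsScalarTower F M M]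
            [SMulCommClass F M M],
            (∀ x : M, x * x = 0) →
            (∀ x y z : M, (x * y) * (x * z) = ((x * y) * z) * x + ((y * z) * x) * x + ((z * x) * x) * y) →
            ∀ a b c : M, ∀ v : ℕ → M,
              (∀ i, v i ∈ NonUnitalAlgebra.adjoin F ({a, b, c} : Set M)) →
              (FreeNonUnitalNonAssocAlgebra.lift F v) f = 0) := by
  intro F _ _ f
  constructor
  · intro hf
    exact Pool.Agent.Mal3.three (F := F) f hf
  · intro hf
    exact Pool.Agent.MX.sq_of_three Pool.Agent.MX.facts1_proof Pool.Agent.MX.facts2_proof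
      Pool.Agent.MX.facts3_proof Pool.Agent.MX.Facts4_proof Pool.Agent.MX.facts5_proof
      (Pool.Agent.MX.XSys_proof Pool.Agent.MX.j4_proof
        (Pool.Agent.MX.d_proof Pool.Agent.MX.altBlock_proof)) Pool.Agent.MX.sq_proof F f hf

end Pool.Agent.S00909
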