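import Pool.Statements.S01206
import Pool.Agent.BURN.Asm
import Pool.Agent.BURN.App38

set_option autoImplicit false
open Pool Pool.MP_38b588_al

namespace Pool.Agent.S01206

/-- The negation of the preceding statement: For every word w in n letters and every group G: G is finite or satisfies the law w=1 iff for any n infinite subsets X_i of G one can pick x_i in X_i with w(x_1,…,x_n)=1. -/
theorem result :
    ¬ (∀ (n : ℕ) (w : FreeGroup (Fin n)) (G : Type) [Group G],
      (Finite G ∨ ∀ x : Fin n → G, FreeGroup.lift x w = 1) ↔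
        (∀ X : Fin n → Set G, (∀ i, (X i).Infinite) →
          ∃ x : Fin n → G, (∀ i, x i ∈ X i) ∧ FreeGroup.lift x w = 1)) := by
  exact Pool.Agent.BURN.App38.final Pool.Agent.BURN.Asm.p_BaseA Pool.Agent.BURN.Asm.p_Tower
    Pool.Agent.BURN.Asm.p_Lim1 Pool.Agent.BURN.Asm.p_LimM

end Pool.Agent.S01206
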