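import Pool.Statements.S01306

set_option autoImplicit false
open Pool Pool.MP_417d56_al

namespace Pool.Agent.S01306

open DihedralGroup

/-- The dihedral group of order `16`. -/
abbrev D : Type := DihedralGroup 8

/-- Parity of the index: `r i` and `sr i` are sent to `i mod 2`. -/
def par : D → ZMod 2
  | r i => (i.val : ZMod 2)
  | sr i => (i.val : ZMod 2)

/-- The central subgroup `{1, r 4}`, written as the image of `ZMod 2`. -/
def zeta (a : ZMod 2) : D := r ((4 * a.val : ℕ) : ZMod 8)

lemma par_mul : ∀ x y : D, par (x * y) = par x + par y := by decide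

lemma par_one : par 1 = 0 := by decide

lemma par_inv : ∀ x : D, par x⁻¹ = par x := by decide

lemma zeta_add : ∀ a b : ZMod 2, zeta (a + b) = zeta a * zeta b := by decide

lemma zeta_inv : ∀ a : ZMod 2, (zeta a)⁻¹ = zeta a := by decide

lemma zeta_inj : ∀ a b : ZMod 2, zeta a = zeta b → a = b := by decide

lemma zeta_zero : zeta 0 = 1 := by decide

lemma zeta_comm : ∀ (a : ZMod 2) (x : D), x * zeta a = zeta a * x := by decide

lemma sq_even : ∀ x y : D, par x = par y → ∃ a, x * y * (x * y) = zeta a := by decide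

lemma sq_swap : ∀ x y : D, par x = par y →
    x * y * (x * y) = y * x * (y * x) := by decide

variable (Q : Type) [Group Q]

/-- The subgroup of the regular wreath product `D ≀ Q` of all elements whose `D`-coordinates
all have the same parity. -/
def H : Subgroup (RegularWreathProduct D Q) where
  carrier := {x | ∀ g, par (x.left g) = par (x.left 1)}
  mul_mem' := by
    intro a b ha hb g
    have ha' : par (a.left g) = par (a.left 1) := ha g
    have hb' : ∀ h, par (b.left h) = par (b.left 1) := hb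
    simp only [RegularWreathProduct.mul_left, Pi.mul_apply, par_mul]
    rw [ha', hb' (a.right⁻¹ * g), hb' (a.right⁻¹ * 1)]
  one_mem' := by
    intro g
    simp
  inv_mem' := by
    intro a ha g
    have ha' : ∀ h, par (a.left h) = par (a.left 1) := ha
    simp only [RegularWreathProduct.inv_left, Pi.inv_apply, par_inv]
    rw [ha' (a.right * g), ha' (a.right * 1)]

lemma mem_H {x : RegularWreathProduct D Q} :
    x ∈ H Q ↔ ∀ g, par (x.left g) = par (x.left 1) := Iff.rfl

variable [Fintype Q]

/-- The normal subgroup of all `(ζ (s g))_g` with `∑ g, s g = 0`. -/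
def N : Subgroup (RegularWreathProduct D Q) where
  carrier := {x | x.right = 1 ∧ ∃ s : Q → ZMod 2, ∑ g, s g = 0 ∧ ∀ g, x.left g = zeta (s g)}
  mul_mem' := by
    rintro a b ⟨ha, s, hs, has⟩ ⟨hb, t, ht, hbt⟩
    refine ⟨by simp [ha, hb], fun g => s g + t g, ?_, ?_⟩
    · rw [Finset.sum_add_distrib, hs, ht, add_zero]
    · intro g
      simp [ha, has, hbt, zeta_add]
  one_mem' := by
    refine ⟨rfl, fun _ => 0, by simp, ?_⟩
    intro g
    simp [zeta_zero]
  inv_mem' := by
    rintro a ⟨ha, s, hs, has⟩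
    refine ⟨by simp [ha], s, hs, ?_⟩
    intro g
    simp [ha, has, zeta_inv]

lemma mem_N {x : RegularWreathProduct D Q} :
    x ∈ N Q ↔ x.right = 1 ∧ ∃ s : Q → ZMod 2, ∑ g, s g = 0 ∧ ∀ g, x.left g = zeta (s g) :=
  Iff.rfl

instance N_normal : (N Q).Normal where
  conj_mem := by
    rintro n ⟨hn, s, hs, hns⟩ w
    refine ⟨by simp [hn], fun g => s (w.right⁻¹ * g), ?_, ?_⟩
    · rw [← hs]
      exact Fintype.sum_equiv (Equiv.mulLeft w.right⁻¹) _ _ (fun g => rfl)
    · intro g
      simp [hn, hns, zeta_comm]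

/-- Elements of `H` lying over a non-trivial element of `Q` have fourth power in `N`. -/
lemma pow_four_mem (hQ : ∀ q : Q, q * q = 1) (x : RegularWreathProduct D Q) (hx : x ∈ H Q)
    (hr : x.right ≠ 1) : x ^ 4 ∈ N Q := by
  have hinv : x.right⁻¹ = x.right := by
    rw [inv_eq_iff_mul_eq_one, hQ]
  have hx' : ∀ g h, par (x.left g) = par (x.left h) := fun g h => (hx g).trans (hx h).symm
  have h4 : x ^ 4 = (x * x) * (x * x) := by
    rw [← pow_two x, ← pow_add]
  have hl : ∀ g, (x ^ 4).left g
      = x.left g * x.left (x.right * g) * (x.left g * x.left (x.right * g)) := by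
    intro g
    rw [h4]
    simp [hinv, hQ, ← mul_assoc]
  have hs : ∀ g, ∃ a, x.left g * x.left (x.right * g) * (x.left g * x.left (x.right * g))
      = zeta a := fun g => sq_even _ _ (hx' _ _)
  choose s hs using hs
  refine ⟨by rw [h4]; simp [hQ], s, ?_, fun g => by rw [hl, hs]⟩
  have hinvol : ∀ g, s (x.right * g) = s g := by
    intro g
    apply zeta_inj
    rw [← hs, ← hs, ← mul_assoc x.right, hQ, one_mul]
    exact sq_swap _ _ (hx' _ _)
  refine Finset.sum_involution (fun g _ => x.right * g) ?_ ?_ ?_ ?_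
  · intro g _
    rw [hinvol]
    exact CharTwo.add_self_eq_zero _
  · intro g _ _ h
    exact hr (by simpa using h)
  · intro g _
    exact Finset.mem_univ _
  · intro g _
    rw [← mul_assoc, hQ, one_mul]

/-- The group `G = H / N`. -/
abbrev G : Type := (H Q) ⧸ ((N Q).subgroupOf (H Q))

/-- The projection of `H` to `Q`. -/
def projH : H Q →* Q := (RegularWreathProduct.rightHom).comp (H Q).subtype

/-- The projection of `G` to `Q`. -/
def proj : G Q →* Q :=
  QuotientGroup.lift _ (projH Q) (by
    intro x hx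
    exact hx.1)

lemma proj_mk (x : H Q) : proj Q (QuotientGroup.mk x) = x.1.right := rfl

lemma proj_surjective : Function.Surjective (proj Q) := by
  intro q
  refine ⟨QuotientGroup.mk ⟨RegularWreathProduct.inl q, ?_⟩, rfl⟩
  intro g
  simp

lemma pow_four_eq_one (hQ : ∀ q : Q, q * q = 1) (x : G Q) (hx : proj Q x ≠ 1) : x ^ 4 = 1 := by
  induction x using QuotientGroup.induction_on with
  | H y =>
    rw [← QuotientGroup.mk_pow, QuotientGroup.eq_one_iff, Subgroup.mem_subgroupOf]
    exact pow_four_mem Q hQ y.1 y.2 hx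

lemma exists_pow_four_ne_one [DecidableEq Q] : ∃ x : G Q, x ^ 4 ≠ 1 := by
  let y : RegularWreathProduct D Q := ⟨fun g => if g = 1 then r 1 else sr 1, 1⟩
  have hy : y ∈ H Q := by
    intro g
    by_cases hg : g = 1
    · simp [y, hg]
    · simp [y, hg]
      decide
  refine ⟨QuotientGroup.mk ⟨y, hy⟩, ?_⟩
  intro h
  rw [← QuotientGroup.mk_pow, QuotientGroup.eq_one_iff, Subgroup.mem_subgroupOf] at h
  obtain ⟨-, s, hs, hys⟩ := h
  have hys' : ∀ g, (y ^ 4).left g = zeta (s g) := hys
  have h4 : y ^ 4 = (y * y) * (y * y) := by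
    rw [← pow_two y, ← pow_add]
  have h1 : s 1 = 1 := by
    apply zeta_inj
    rw [← hys', h4]
    simp only [RegularWreathProduct.mul_left, Pi.mul_apply, RegularWreathProduct.mul_right]
    simp [y]
    decide
  have h0 : ∀ g, g ≠ 1 → s g = 0 := by
    intro g hg
    apply zeta_inj
    rw [← hys', h4]
    simp only [RegularWreathProduct.mul_left, Pi.mul_apply, RegularWreathProduct.mul_right]
    simp [y, hg]
    decide
  rw [Finset.sum_eq_single 1 (fun g _ hg => h0 g hg) (fun h => absurd (Finset.mem_univ _) h),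
    h1] at hs
  exact one_ne_zero hs

lemma card_bound (hQ : ∀ q : Q, q * q = 1) :
    (Nat.card (G Q) : ℝ) ≤ (Nat.card {x : G Q // x ^ 4 = 1} : ℝ)
      + (Nat.card (G Q) : ℝ) / (Fintype.card Q : ℝ) := by
  classical
  have hcardQ : (Fintype.card Q : ℝ) ≠ 0 := by
    exact_mod_cast Fintype.card_ne_zero
  have h1 : Nat.card (G Q) = Nat.card (proj Q).ker * Fintype.card Q := by
    rw [← Subgroup.card_mul_index (proj Q).ker, Subgroup.index_ker,
      MonoidHom.range_eq_top.mpr (proj_surjective Q)]
    simp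
  have h2 : Nat.card (G Q) ≤ Nat.card {x : G Q // x ^ 4 = 1} + Nat.card (proj Q).ker := by
    have hsplit : Nat.card (G Q) = Nat.card {x : G Q // x ^ 4 = 1}
        + Nat.card {x : G Q // ¬ x ^ 4 = 1} := by
      rw [← Nat.card_sum]
      exact Nat.card_congr (Equiv.sumCompl _).symm
    rw [hsplit]
    apply Nat.add_le_add_left
    refine Nat.card_le_card_of_injective
      (fun x : {x : G Q // ¬ x ^ 4 = 1} => (⟨x.1, ?_⟩ : (proj Q).ker)) ?_
    · rw [MonoidHom.mem_ker]
      by_contra hne
      exact x.2 (pow_four_eq_one Q hQ x.1 hne)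
    · intro a b hab
      exact Subtype.ext (congrArg (fun z : (proj Q).ker => z.1) hab)
  have h3 : (Nat.card (G Q) : ℝ) / (Fintype.card Q : ℝ) = (Nat.card (proj Q).ker : ℝ) := by
    rw [h1]
    push_cast
    field_simp
  rw [h3]
  exact_mod_cast h2

/-- The negation of the preceding statement: For every m ≥ 1 there is ε > 0 such that any finite group in which more than a (1 − ε) fraction of elements satisfy x^m = 1 must satisfy x^m = 1 for all its elements. -/
theorem result :
    ¬ (∀ m : ℕ, 0 < m → ∃ ε : ℝ, 0 < ε ∧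
      ∀ (G : Type) [Group G] [Finite G],
        (1 - ε) * (Nat.card G : ℝ) < (Nat.card {x : G // x ^ m = 1} : ℝ) →
          ∀ x : G, x ^ m = 1) := by
  intro h
  obtain ⟨ε, hε, hG⟩ := h 4 (by norm_num)
  obtain ⟨k, hk⟩ := exists_pow_lt_of_lt_one hε (by norm_num : (1 / 2 : ℝ) < 1)
  let Q : Type := Fin k → Multiplicative (ZMod 2)
  have hQ : ∀ q : Q, q * q = 1 := by
    intro q
    funext i
    have h2 : ∀ a : Multiplicative (ZMod 2), a * a = 1 := by decide
    exact h2 (q i)
  have hcard : (Fintype.card Q : ℝ) = 2 ^ k := by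
    simp [Q]
  obtain ⟨x, hx⟩ := exists_pow_four_ne_one Q
  refine hx (hG (G Q) ?_ x)
  have hb := card_bound Q hQ
  have hpos : (0 : ℝ) < (Nat.card (G Q) : ℝ) := by
    exact_mod_cast Nat.card_pos
  rw [hcard] at hb
  have hlt : (Nat.card (G Q) : ℝ) / 2 ^ k < ε * (Nat.card (G Q) : ℝ) := by
    have : (Nat.card (G Q) : ℝ) / 2 ^ k = (1 / 2) ^ k * (Nat.card (G Q) : ℝ) := by
      rw [one_div, inv_pow]
      ring
    rw [this]
    exact mul_lt_mul_of_pos_right hk hpos
  linarith

end Pool.Agent.S01306
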