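import Pool.Statements.S01440
import Pool.Agent.Matlis.TheoremI
import Pool.Agent.Matlis.Final
import Pool.Agent.Matlis.Tight
import Pool.Agent.Matlis.Tri
import Pool.Agent.Matlis.LemmaR
import Pool.Agent.Matlis.Surj
import Pool.Agent.Matlis.StepA
import Pool.Agent.Matlis.StepB
import Pool.Agent.Matlis.StepC
import Pool.Agent.Matlis.Next
import Pool.Agent.Matlis.Lim
import Pool.Agent.Matlis.HatS
import Pool.Agent.Matlis.HatK
import Pool.Agent.Matlis.Rmem
import Pool.Agent.Matlis.KeyZ
import Pool.Agent.Matlis.Div
import Pool.Agent.Matlis.Nat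
import Pool.Agent.Matlis.Dens
import Pool.Agent.Matlis.Decomp
import Pool.Agent.Matlis.Comb
import Pool.Agent.Matlis.Coef
import Pool.Agent.Matlis.Tau
import Pool.Agent.Matlis.Ess
import Pool.Agent.Matlis.UnitH
import Pool.Agent.Matlis.YonS
import Pool.Agent.Matlis.Inj

set_option autoImplicit false
open scoped DirectSum
open Pool Pool.MP_504466_al

namespace Pool.Agent.S01440

open Pool.Agent.Matlis

theorem hI : Stmt_I :=
  i_proof (next_proof stepA_proof StepB_proof (stepC_proof lemmaR_proof)) lim_proof

theorem hHatS : Stmt_HatS := hatS_proof surj_proof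
theorem hHatK : Stmt_HatK := hatK_proof lemmaR_proof TIGHT_proof
theorem hRmem : Stmt_Rmem := rmem_proof tri_proof
theorem hZ : Stmt_Z := z_proof hHatS TIGHT_proof
theorem hDiv : Stmt_Div := div_proof hZ hHatS hHatK tri_proof
theorem hNat : Stmt_Nat := nat_proof hHatS
theorem hDens : Stmt_Dens := dens_proof hRmem
theorem hEss : Stmt_Ess := ess_proof hRmem hDens
theorem hCoef : Stmt_Coef := coef_proof hRmem hDens
theorem hTau : Stmt_Tau := tau_proof hRmem hNat
theorem hInj : Stmt_Inj :=
  inj_proof (unit_proof' hRmem hDens) (yonS_proof hDiv hNat) hRmem hNat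

/-- The negation of the preceding statement: For any ring R, any direct summand of a direct sum of indecomposable injective R-modules is an internal direct sum of an independent family of indecomposable submodules. -/
theorem result :
    ¬ (∀ (R : Type) [Ring R] (ι : Type) (E : ι → Type)
      [∀ i, AddCommGroup (E i)] [∀ i, Module R (E i)],
      (∀ i, Module.Injective R (E i)) →
      (∀ i, Nontrivial (E i) ∧
        ∀ A B : Submodule R (E i), IsCompl A B → A = ⊥ ∨ B = ⊥) →
      ∀ N : Submodule R (⨁ i, E i), (∃ N' : Submodule R (⨁ i, E i), IsCompl N N') →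
        ∃ (κ : Type) (F : κ → Submodule R (⨁ i, E i)),
          iSupIndep F ∧ (⨆ j, F j) = N ∧
          ∀ j, Nontrivial ↥(F j) ∧
            ∀ A B : Submodule R ↥(F j), IsCompl A B → A = ⊥ ∨ B = ⊥) := by
  exact final hI hInj hEss hCoef hTau decomp_proof comb_proof

end Pool.Agent.S01440
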