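import Pool.Statements.S01479
import Pool.Agent.Helper36.RelFreePrim
import Pool.Agent.Helper36.RelFreeNonPrim

set_option autoImplicit false
open Pool Pool.MP_540292_al

namespace Pool.Agent.S01479

/-- There is a variety of groups, ranks 0<r<n and h in the relatively free group of rank r such that no automorphism sends a basis element to h, but in rank n (via the standard inclusion) some automorphism sends a basis element to h. -/
theorem result :
    ∃ (W : Set (FreeGroup ℕ)) (r n : ℕ) (hrn : r < n) (w : FreeGroup (Fin r)),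
      0 < r ∧
      (¬ ∃ (φ : (FreeGroup (Fin r) ⧸ Subgroup.normalClosure
              {x : FreeGroup (Fin r) | ∃ u ∈ W, ∃ g : ℕ → FreeGroup (Fin r), FreeGroup.lift g u = x}) ≃*
            (FreeGroup (Fin r) ⧸ Subgroup.normalClosure
              {x : FreeGroup (Fin r) | ∃ u ∈ W, ∃ g : ℕ → FreeGroup (Fin r), FreeGroup.lift g u = x}))
          (i : Fin r),
          φ (QuotientGroup.mk (FreeGroup.of i) : FreeGroup (Fin r) ⧸ Subgroup.normalClosure
              {x : FreeGroup (Fin r) | ∃ u ∈ W, ∃ g : ℕ → FreeGroup (Fin r), FreeGroup.lift g u = x})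
            = (QuotientGroup.mk w : FreeGroup (Fin r) ⧸ Subgroup.normalClosure
              {x : FreeGroup (Fin r) | ∃ u ∈ W, ∃ g : ℕ → FreeGroup (Fin r), FreeGroup.lift g u = x})) ∧
      (∃ (ψ : (FreeGroup (Fin n) ⧸ Subgroup.normalClosure
              {x : FreeGroup (Fin n) | ∃ u ∈ W, ∃ g : ℕ → FreeGroup (Fin n), FreeGroup.lift g u = x}) ≃*
            (FreeGroup (Fin n) ⧸ Subgroup.normalClosure
              {x : FreeGroup (Fin n) | ∃ u ∈ W, ∃ g : ℕ → FreeGroup (Fin n), FreeGroup.lift g u = x}))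
          (j : Fin n),
          ψ (QuotientGroup.mk (FreeGroup.of j) : FreeGroup (Fin n) ⧸ Subgroup.normalClosure
              {x : FreeGroup (Fin n) | ∃ u ∈ W, ∃ g : ℕ → FreeGroup (Fin n), FreeGroup.lift g u = x})
            = (QuotientGroup.mk (FreeGroup.map (Fin.castLE hrn.le) w) : FreeGroup (Fin n) ⧸
              Subgroup.normalClosure
              {x : FreeGroup (Fin n) | ∃ u ∈ W, ∃ g : ℕ → FreeGroup (Fin n), FreeGroup.lift g u = x})) := by
  refine ⟨Pool.Agent.Helper36.lawW, 2, 3, by norm_num,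
    Pool.Agent.Helper36.hword (FreeGroup.of 0) (FreeGroup.of 1), by norm_num, ?_, ?_⟩
  · rintro ⟨φ, i, h⟩
    apply Pool.Agent.Helper36.not_prim_two φ i
    have e : (QuotientGroup.mk (Pool.Agent.Helper36.hword (FreeGroup.of 0) (FreeGroup.of 1)) :
        Pool.Agent.Helper36.Gam 2) = Pool.Agent.Helper36.hword (Pool.Agent.Helper36.gen 0)
          (Pool.Agent.Helper36.gen 1) :=
      Pool.Agent.Helper36.map_hword (QuotientGroup.mk' (Pool.Agent.Helper36.V 2))
        (FreeGroup.of 0) (FreeGroup.of 1)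
    exact h.trans e
  · obtain ⟨ψ, hψ⟩ := Pool.Agent.Helper36.prim_three
    refine ⟨ψ, 0, ?_⟩
    refine hψ.trans ?_
    have e1 : (FreeGroup.map (Fin.castLE (by norm_num : 2 ≤ 3))
        (Pool.Agent.Helper36.hword (FreeGroup.of 0) (FreeGroup.of 1)) : FreeGroup (Fin 3)) =
        Pool.Agent.Helper36.hword (FreeGroup.of 0) (FreeGroup.of 1) := by
      rw [Pool.Agent.Helper36.map_hword]
      simp only [FreeGroup.map.of]
      rfl
    have e : (QuotientGroup.mk (Pool.Agent.Helper36.hword (FreeGroup.of 0) (FreeGroup.of 1)) :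
        Pool.Agent.Helper36.Gam 3) = Pool.Agent.Helper36.hword (Pool.Agent.Helper36.gen 0)
          (Pool.Agent.Helper36.gen 1) :=
      Pool.Agent.Helper36.map_hword (QuotientGroup.mk' (Pool.Agent.Helper36.V 3))
        (FreeGroup.of 0) (FreeGroup.of 1)
    rw [e1]
    exact e.symm

end Pool.Agent.S01479
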