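import Pool.Statements.S01664
import Pool.Agent.Helper38.WordBall

set_option autoImplicit false
open scoped Pointwise
open Pool Pool.MP_60a75d_al

namespace Pool.Agent.S01664

open Pool.Agent.Helper38 Equiv Equiv.Perm

/-- a product of two disjoint transpositions -/
def IsDT {n : ℕ} (t : alternatingGroup (Fin n)) : Prop :=
  ∃ a b c d : Fin n, [a, b, c, d].Nodup ∧ (t : Perm (Fin n)) = swap a b * swap c d

open Classical in
/-- the set of double transpositions of the alternating group of degree `n` -/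
noncomputable def dt (n : ℕ) : Finset (alternatingGroup (Fin n)) :=
  Finset.univ.filter IsDT

lemma mem_dt {n : ℕ} {t : alternatingGroup (Fin n)} : t ∈ dt n ↔ IsDT t := by
  classical
  simp [dt]

lemma dt_inv {n : ℕ} : ∀ t ∈ dt n, t * t = 1 := by
  intro t ht
  obtain ⟨a, b, c, d, hnd, ht⟩ := mem_dt.1 ht
  apply Subtype.ext
  rw [Subgroup.coe_mul, ht, Subgroup.coe_one]
  have hcomm : Commute (swap a b) (swap c d) := (disjoint_swap_swap hnd).commute
  calc swap a b * swap c d * (swap a b * swap c d)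
      = swap a b * (swap c d * swap a b) * swap c d := by group
    _ = swap a b * (swap a b * swap c d) * swap c d := by rw [hcomm.eq]
    _ = (swap a b * swap a b) * (swap c d * swap c d) := by group
    _ = 1 := by rw [swap_mul_self, swap_mul_self, one_mul]

lemma dt_conj {n : ℕ} (g : alternatingGroup (Fin n)) {t : alternatingGroup (Fin n)} (ht : t ∈ dt n) :
    g⁻¹ * t * g ∈ dt n := by
  obtain ⟨a, b, c, d, hnd, ht⟩ := mem_dt.1 ht
  rw [mem_dt]
  refine ⟨(g : Perm (Fin n))⁻¹ a, (g : Perm (Fin n))⁻¹ b, (g : Perm (Fin n))⁻¹ c,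
    (g : Perm (Fin n))⁻¹ d, ?_, ?_⟩
  · have := hnd.map ((g : Perm (Fin n))⁻¹).injective
    simpa using this
  · rw [swap_apply_apply, swap_apply_apply, Subgroup.coe_mul, Subgroup.coe_mul, Subgroup.coe_inv, ht]
    group

lemma dt_conj' {n : ℕ} : ∀ t ∈ dt n, ∀ s ∈ dt n, t * s * t ∈ dt n := by
  intro t ht s hs
  have h1 : t⁻¹ = t := inv_eq_of_mul_eq_one_left (dt_inv t ht)
  have := dt_conj t hs
  rwa [h1] at this

lemma card_dt_le (n : ℕ) (hn : 0 < n) : (dt n).card ≤ n ^ 4 := by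
  classical
  have hch : ∀ t : alternatingGroup (Fin n), ∃ x : Fin n × Fin n × Fin n × Fin n,
      t ∈ dt n → (t : Perm (Fin n)) = swap x.1 x.2.1 * swap x.2.2.1 x.2.2.2 := by
    intro t
    by_cases ht : t ∈ dt n
    · obtain ⟨a, b, c, d, _, h⟩ := mem_dt.1 ht
      exact ⟨(a, b, c, d), fun _ => h⟩
    · exact ⟨(⟨0, hn⟩, ⟨0, hn⟩, ⟨0, hn⟩, ⟨0, hn⟩), fun h => absurd h ht⟩
  choose f hf using hch
  have h1 : (dt n).card ≤ (Finset.univ : Finset (Fin n × Fin n × Fin n × Fin n)).card := by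
    apply Finset.card_le_card_of_injOn f (fun _ _ => Finset.mem_univ _)
    intro t ht u hu htu
    apply Subtype.ext
    rw [hf t ht, hf u hu, htu]
  rw [Finset.card_univ, Fintype.card_prod, Fintype.card_prod, Fintype.card_prod,
    Fintype.card_fin] at h1
  calc (dt n).card ≤ n * (n * (n * n)) := h1
    _ = n ^ 4 := by ring

lemma mk_mem {n : ℕ} {a b c d : Fin n} (h : [a, b, c, d].Nodup) :
    ∃ t ∈ dt n, (t : Perm (Fin n)) = swap a b * swap c d := by
  have hab : a ≠ b := by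
    intro h'
    subst h'
    simp at h
  have hcd : c ≠ d := by
    intro h'
    subst h'
    simp at h
  have hmem : swap a b * swap c d ∈ alternatingGroup (Fin n) := by
    rw [mem_alternatingGroup, Perm.sign_mul, sign_swap hab, sign_swap hcd]
    norm_num
  exact ⟨⟨_, hmem⟩, mem_dt.2 ⟨a, b, c, d, h, rfl⟩, rfl⟩

lemma three_le_card_dt {n : ℕ} (hn : 4 ≤ n) : 3 ≤ (dt n).card := by
  classical
  set x0 : Fin n := ⟨0, by omega⟩ with h0
  set x1 : Fin n := ⟨1, by omega⟩ with h1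
  set x2 : Fin n := ⟨2, by omega⟩ with h2
  set x3 : Fin n := ⟨3, by omega⟩ with h3
  obtain ⟨s, hs, hs'⟩ := mk_mem (a := x0) (b := x1) (c := x2) (d := x3) (by simp [h0, h1, h2, h3])
  obtain ⟨t, ht, ht'⟩ := mk_mem (a := x0) (b := x2) (c := x1) (d := x3) (by simp [h0, h1, h2, h3])
  obtain ⟨u, hu, hu'⟩ := mk_mem (a := x0) (b := x3) (c := x1) (d := x2) (by simp [h0, h1, h2, h3])
  have es : (s : Perm (Fin n)) x0 = x1 := by
    rw [hs', Perm.mul_apply, swap_apply_of_ne_of_ne (a := x2) (b := x3) (x := x0)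
      (by simp [h0, h2]) (by simp [h0, h3]), swap_apply_left]
  have et : (t : Perm (Fin n)) x0 = x2 := by
    rw [ht', Perm.mul_apply, swap_apply_of_ne_of_ne (a := x1) (b := x3) (x := x0)
      (by simp [h0, h1]) (by simp [h0, h3]), swap_apply_left]
  have eu : (u : Perm (Fin n)) x0 = x3 := by
    rw [hu', Perm.mul_apply, swap_apply_of_ne_of_ne (a := x1) (b := x2) (x := x0)
      (by simp [h0, h1]) (by simp [h0, h2]), swap_apply_left]
  have hst : s ≠ t := by
    rintro rfl
    rw [es] at et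
    simp [h1, h2] at et
  have hsu : s ≠ u := by
    rintro rfl
    rw [es] at eu
    simp [h1, h3] at eu
  have htu : t ≠ u := by
    rintro rfl
    rw [et] at eu
    simp [h2, h3] at eu
  have hsub : ({s, t, u} : Finset (alternatingGroup (Fin n))) ⊆ dt n := by
    intro x hx
    simp only [Finset.mem_insert, Finset.mem_singleton] at hx
    rcases hx with rfl | rfl | rfl <;> assumption
  calc 3 = ({s, t, u} : Finset (alternatingGroup (Fin n))).card := by
        rw [Finset.card_insert_of_notMem (by simp [hst, hsu]), Finset.card_insert_of_notMem (by simp [htu]),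
          Finset.card_singleton]
    _ ≤ _ := Finset.card_le_card hsub

/-- the real inequality behind the counterexample -/
lemma real_ineq {x y J r : ℝ} (hx3 : 3 ≤ x) (hr : 0 < r) (hxr : x ≤ r ^ 8) (hJ : 2 * r ≤ J) (hy : 0 < y)
    {z : ℝ} (hz : J * z ≤ J * y + y * x) : z < y * x ^ (1 - (1 / 8 : ℝ)) := by
  have hx0 : 0 < x := by linarith
  have hJ0 : 0 < J := by linarith
  have h1 : x / r ≤ x ^ (1 - (1 / 8 : ℝ)) := by
    rw [Real.rpow_sub hx0, Real.rpow_one]
    apply div_le_div_of_nonneg_left hx0.le (by positivity)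
    calc x ^ (1 / 8 : ℝ) ≤ (r ^ 8) ^ (1 / 8 : ℝ) := Real.rpow_le_rpow hx0.le hxr (by norm_num)
      _ = r := by
        rw [← Real.rpow_natCast, ← Real.rpow_mul hr.le]
        norm_num
  have h2 : 2 < x ^ (1 - (1 / 8 : ℝ)) := by
    calc (2 : ℝ) < 3 ^ (1 - (1 / 8 : ℝ)) := by
          have h3 : (2 : ℝ) ^ (8 : ℕ) < 3 ^ (7 : ℕ) := by norm_num
          have h4 : ((3 : ℝ) ^ (1 - (1 / 8 : ℝ))) ^ (8 : ℕ) = 3 ^ (7 : ℕ) := by
            rw [← Real.rpow_natCast, ← Real.rpow_mul (by norm_num), ← Real.rpow_natCast]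
            norm_num
          rw [← h4] at h3
          exact lt_of_pow_lt_pow_left₀ 8 (by positivity) h3
      _ ≤ x ^ (1 - (1 / 8 : ℝ)) := Real.rpow_le_rpow (by norm_num) hx3 (by norm_num)
  have h3 : J * z ≤ J * (y * (1 + x / (2 * r))) := by
    have : x ≤ J * (x / (2 * r)) := by
      rw [mul_div_assoc']
      rw [le_div_iff₀ (by positivity)]
      nlinarith
    nlinarith
  have h4 : z ≤ y * (1 + x / (2 * r)) := le_of_mul_le_mul_left h3 hJ0
  have h5 : x / (2 * r) = (x / r) / 2 := by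
    field_simp
  rw [h5] at h4
  have h6 : 1 + (x / r) / 2 < x ^ (1 - (1 / 8 : ℝ)) := by linarith
  calc z ≤ y * (1 + x / r / 2) := h4
    _ < y * x ^ (1 - (1 / 8 : ℝ)) := mul_lt_mul_of_pos_left h6 hy

lemma two_pow_le_card {n : ℕ} (hn : 2 ≤ n) : (2 : ℝ) ^ (n - 2) ≤ (Nat.card (alternatingGroup (Fin n)) : ℝ) := by
  have : Nontrivial (Fin n) := Fin.nontrivial_iff_two_le.2 hn
  have h1 := two_mul_nat_card_alternatingGroup (α := Fin n)
  rw [Nat.card_perm, Nat.card_fin] at h1
  have h2 : 2 ^ (n - 1) ≤ n.factorial := by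
    have : ∀ k : ℕ, 2 ^ k ≤ (k + 1).factorial := by
      intro k
      induction k with
      | zero => simp
      | succ k ih =>
        rw [Nat.factorial_succ, pow_succ]
        nlinarith
    have := this (n - 1)
    rwa [Nat.sub_add_cancel (by omega)] at this
  have h3 : 2 * 2 ^ (n - 2) ≤ 2 * Nat.card (alternatingGroup (Fin n)) := by
    rw [h1]
    calc 2 * 2 ^ (n - 2) = 2 ^ (n - 1) := by
          rw [← pow_succ']
          congr 1
          omega
      _ ≤ _ := h2
  have h4 : 2 ^ (n - 2) ≤ Nat.card (alternatingGroup (Fin n)) := by omega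
  exact_mod_cast h4

/-- the choice of the degree -/
lemma exists_degree {δ : ℝ} (hδ : 0 < δ) : ∃ m : ℕ, 3 ≤ m ∧
    ((m : ℝ) ^ 10) ^ (2 * m) ≤ ((2 : ℝ) ^ (m ^ 2 - 2)) ^ δ := by
  have hlog : Real.log =o[Filter.atTop] (id : ℝ → ℝ) := Real.isLittleO_log_id_atTop
  have hc : 0 < δ * Real.log 2 / 40 := by
    have := Real.log_pos (by norm_num : (1 : ℝ) < 2)
    positivity
  have h1 := hlog.bound hc
  have h2 := tendsto_natCast_atTop_atTop (R := ℝ) |>.eventually h1
  obtain ⟨m, hm1, hm3⟩ := (h2.and (Filter.eventually_ge_atTop 3)).exists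
  refine ⟨m, hm3, ?_⟩
  have hm0 : (3 : ℝ) ≤ m := by exact_mod_cast hm3
  have hlogm : 0 ≤ Real.log m := Real.log_nonneg (by linarith)
  rw [Real.norm_of_nonneg hlogm] at hm1
  have hid : ‖(id (m : ℝ) : ℝ)‖ = m := by simp
  rw [hid] at hm1
  have hlog2 := Real.log_pos (by norm_num : (1 : ℝ) < 2)
  rw [← Real.log_le_log_iff (by positivity) (by positivity)]
  rw [Real.log_pow, Real.log_pow, Real.log_rpow (by positivity), Real.log_pow]
  have hcast : ((m ^ 2 - 2 : ℕ) : ℝ) = (m : ℝ) ^ 2 - 2 := by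
    rw [Nat.cast_sub (by nlinarith)]
    push_cast
    ring
  rw [hcast]
  push_cast
  have h3 : (m : ℝ) ^ 2 / 2 ≤ (m : ℝ) ^ 2 - 2 := by nlinarith
  calc 2 * (m : ℝ) * (10 * Real.log m) = 20 * m * Real.log m := by ring
    _ ≤ 20 * m * (δ * Real.log 2 / 40 * m) := mul_le_mul_of_nonneg_left hm1 (by positivity)
    _ = δ * (((m : ℝ) ^ 2 / 2) * Real.log 2) := by ring
    _ ≤ δ * (((m : ℝ) ^ 2 - 2) * Real.log 2) := by
      apply mul_le_mul_of_nonneg_left _ hδ.le
      exact mul_le_mul_of_nonneg_right h3 hlog2.le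

/-- The negation of the preceding statement: For each ε>0 there is δ>0 so that in every non-abelian finite simple group S, any nonempty subsets B, A of size at most ∣S∣^δ admit g in S with ∣B·g⁻¹Ag∣ ≥ ∣B∣·∣A∣^(1−ε). -/
theorem result :
    ¬ (∀ ε : ℝ, 0 < ε → ∃ δ : ℝ, 0 < δ ∧
      ∀ (S : Type) [Group S] [Finite S], IsSimpleGroup S →
        (∃ a b : S, a * b ≠ b * a) →
        ∀ B A : Set S, B.Nonempty → A.Nonempty →
          (Nat.card B : ℝ) ≤ (Nat.card S : ℝ) ^ δ →
          (Nat.card A : ℝ) ≤ (Nat.card S : ℝ) ^ δ →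
          ∃ g : S, (Nat.card B : ℝ) * (Nat.card A : ℝ) ^ (1 - ε) ≤
            (Nat.card ↥(B * ((fun a : S => g⁻¹ * a * g) '' A)) : ℝ)) := by
  classical
  intro H
  obtain ⟨δ, hδ, H⟩ := H (1 / 8) (by norm_num)
  obtain ⟨m, hm3, hm⟩ := exists_degree hδ
  set n := m ^ 2 with hn
  have hn9 : 9 ≤ n := by rw [hn]; nlinarith
  set T := dt n with hT
  set Bf := wball T (2 * m) with hBf
  have hsimple : IsSimpleGroup (alternatingGroup (Fin n)) :=
    alternatingGroup.isSimpleGroup (by rw [Nat.card_fin]; omega)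
  have hT3 : 3 ≤ T.card := three_le_card_dt (by omega)
  have hTle : T.card ≤ n ^ 4 := card_dt_le n (by omega)
  have hncast : ((n : ℕ) : ℝ) = (m : ℝ) ^ 2 := by rw [hn]; push_cast; ring
  have hm1 : (1 : ℝ) ≤ m := by
    have : (3 : ℝ) ≤ m := by exact_mod_cast hm3
    linarith
  have hcardS : ((2 : ℝ) ^ (m ^ 2 - 2)) ^ δ ≤ (Nat.card (alternatingGroup (Fin n)) : ℝ) ^ δ :=
    Real.rpow_le_rpow (by positivity) (two_pow_le_card (by omega)) hδ.le
  have hT10 : ((T.card : ℝ) + 1) ≤ (m : ℝ) ^ 10 := by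
    have h1 : (T.card : ℝ) ≤ ((m : ℝ) ^ 2) ^ 4 := by
      have : (T.card : ℝ) ≤ ((n : ℕ) : ℝ) ^ 4 := by exact_mod_cast hTle
      rwa [hncast] at this
    have h2 : (3 : ℝ) ≤ m := by exact_mod_cast hm3
    have h3 : (m : ℝ) ^ 10 = (m : ℝ) ^ 8 * (m : ℝ) ^ 2 := by ring
    have h4 : (1 : ℝ) ≤ (m : ℝ) ^ 8 := one_le_pow₀ hm1
    have h5 : ((m : ℝ) ^ 2) ^ 4 = (m : ℝ) ^ 8 := by ring
    rw [h5] at h1
    have h6 : (9 : ℝ) ≤ (m : ℝ) ^ 2 := by nlinarith
    nlinarith
  have hins : ((insert 1 T).card : ℝ) ≤ (m : ℝ) ^ 10 := by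
    have : (insert 1 T).card ≤ T.card + 1 := Finset.card_insert_le _ _
    have : ((insert 1 T).card : ℝ) ≤ (T.card : ℝ) + 1 := by exact_mod_cast this
    linarith
  have hBcard : (Bf.card : ℝ) ≤ (Nat.card (alternatingGroup (Fin n)) : ℝ) ^ δ := by
    calc (Bf.card : ℝ) ≤ ((insert 1 T).card : ℝ) ^ (2 * m) := by
          have : Bf.card ≤ (insert 1 T).card ^ (2 * m) := Finset.card_pow_le
          exact_mod_cast this
      _ ≤ ((m : ℝ) ^ 10) ^ (2 * m) := pow_le_pow_left₀ (by positivity) hins _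
      _ ≤ _ := hm.trans hcardS
  have hTcard : (T.card : ℝ) ≤ (Nat.card (alternatingGroup (Fin n)) : ℝ) ^ δ := by
    calc (T.card : ℝ) ≤ (m : ℝ) ^ 10 := by linarith
      _ ≤ ((m : ℝ) ^ 10) ^ (2 * m) := by
          apply le_self_pow₀ (one_le_pow₀ hm1)
          omega
      _ ≤ _ := hm.trans hcardS
  have hnab : ∃ a b : alternatingGroup (Fin n), a * b ≠ b * a := by
    by_contra hcon
    push Not at hcon
    -- an abelian simple group has prime order, here it is shown through explicit elements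
    have h5 : 5 ≤ n := by omega
    set x0 : Fin n := ⟨0, by omega⟩ with h0
    set x1 : Fin n := ⟨1, by omega⟩ with h1
    set x2 : Fin n := ⟨2, by omega⟩ with h2
    set x3 : Fin n := ⟨3, by omega⟩ with h3
    set x4 : Fin n := ⟨4, by omega⟩ with h4
    obtain ⟨s, hs, hs'⟩ := mk_mem (a := x0) (b := x1) (c := x2) (d := x3) (by simp [h0, h1, h2, h3])
    obtain ⟨t, ht, ht'⟩ := mk_mem (a := x0) (b := x1) (c := x2) (d := x4) (by simp [h0, h1, h2, h4])
    have hst := congrArg (fun g : alternatingGroup (Fin n) => (g : Perm (Fin n)) x2) (hcon s t)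
    simp only [Subgroup.coe_mul, hs', ht', Perm.mul_apply] at hst
    rw [swap_apply_left x2 x4, swap_apply_left x2 x3,
      swap_apply_of_ne_of_ne (a := x0) (b := x1) (x := x4) (by simp [h0, h4]) (by simp [h1, h4]),
      swap_apply_of_ne_of_ne (a := x0) (b := x1) (x := x3) (by simp [h0, h3]) (by simp [h1, h3]),
      swap_apply_of_ne_of_ne (a := x2) (b := x3) (x := x4) (by simp [h2, h4]) (by simp [h3, h4]),
      swap_apply_of_ne_of_ne (a := x2) (b := x4) (x := x3) (by simp [h2, h3]) (by simp [h4, h3]),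
      swap_apply_of_ne_of_ne (a := x0) (b := x1) (x := x4) (by simp [h0, h4]) (by simp [h1, h4]),
      swap_apply_of_ne_of_ne (a := x0) (b := x1) (x := x3) (by simp [h0, h3]) (by simp [h1, h3])] at hst
    simp [h3, h4] at hst
  have hBne : (Bf : Set (alternatingGroup (Fin n))).Nonempty := ⟨1, one_mem_wball T _⟩
  have hTne : (T : Set (alternatingGroup (Fin n))).Nonempty := by
    have : T.Nonempty := Finset.card_pos.1 (by omega)
    exact this
  obtain ⟨g, hg⟩ := H (alternatingGroup (Fin n)) hsimple hnab (Bf : Set _) (T : Set _) hBne hTne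
    (by rw [Nat.card_coe_set_eq, Set.ncard_coe_finset]; exact hBcard)
    (by rw [Nat.card_coe_set_eq, Set.ncard_coe_finset]; exact hTcard)
  rw [Nat.card_coe_set_eq, Nat.card_coe_set_eq, Nat.card_coe_set_eq, Set.ncard_coe_finset,
    Set.ncard_coe_finset] at hg
  have hsub : ((Bf : Set (alternatingGroup (Fin n))) *
      ((fun a : alternatingGroup (Fin n) => g⁻¹ * a * g) '' (T : Set (alternatingGroup (Fin n))))) ⊆
      ((wball T (2 * m + 1) : Finset (alternatingGroup (Fin n))) : Set _) := by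
    rintro x ⟨b, hb, y, ⟨a, ha, rfl⟩, rfl⟩
    exact mul_mem_wball (by exact_mod_cast hb) (dt_conj g (by exact_mod_cast ha))
  have hle : (((Bf : Set (alternatingGroup (Fin n))) *
      ((fun a : alternatingGroup (Fin n) => g⁻¹ * a * g) '' (T : Set (alternatingGroup (Fin n))))).ncard : ℝ) ≤
      ((wball T (2 * m + 1)).card : ℝ) := by
    have := Set.ncard_le_ncard hsub (Finset.finite_toSet _)
    rw [Set.ncard_coe_finset] at this
    exact_mod_cast this
  have hgrow := card_wball_succ_le dt_inv dt_conj' (T := T) (2 * m)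
  have hgrow' : ((2 * m : ℕ) + 1 : ℝ) * ((wball T (2 * m + 1)).card : ℝ) ≤
      ((2 * m : ℕ) + 1 : ℝ) * (Bf.card : ℝ) + (Bf.card : ℝ) * (T.card : ℝ) := by
    exact_mod_cast hgrow
  have hBpos : (0 : ℝ) < Bf.card := by
    have : 0 < Bf.card := Finset.card_pos.2 ⟨1, one_mem_wball T _⟩
    exact_mod_cast this
  have hlt := real_ineq (x := (T.card : ℝ)) (y := (Bf.card : ℝ)) (J := ((2 * m : ℕ) + 1 : ℝ)) (r := (m : ℝ))
    (by exact_mod_cast hT3) (by linarith)
    (by
      have : (T.card : ℝ) ≤ ((n : ℕ) : ℝ) ^ 4 := by exact_mod_cast hTle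
      rw [hncast] at this
      calc (T.card : ℝ) ≤ ((m : ℝ) ^ 2) ^ 4 := this
        _ = (m : ℝ) ^ 8 := by ring)
    (by push_cast; linarith) hBpos hgrow'
  linarith

end Pool.Agent.S01664
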