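import Pool.Statements.S01851
import Pool.Agent.Helper37.SM.Step
import Pool.Agent.Helper37.SM.Final
import Pool.Agent.Helper37.SM.Key
import Pool.Agent.Helper37.SM.Ext
import Pool.Agent.Helper37.SM.Small
import Pool.Agent.Helper37.SM.Lower
import Pool.Agent.Helper37.SM.Exist
import Pool.Agent.Helper37.SM.T2
import Pool.Agent.Helper37.SM.Gen
import Pool.Agent.Helper37.SM.Grow
import Pool.Agent.Helper37.SM.Sat
import Pool.Agent.Helper37.SM.Marks
import Pool.Agent.Helper37.SM.Num
import Pool.Agent.Helper37.SM.Upper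
import Pool.Agent.Helper37.SM.Laws

/-!
# Counting groups of prime-power order in a variety and a non-abelian subvariety

The proof rests on a new upper bound, which answers a question of Sims: the number of groups of order `p^m` is at most
`p^(2m³/27 + C m²)`, with `C` depending only on `p` (theorem `sims_upper`).  Together with Higman's lower bound
`p^(2m³/27 - C m²)`, which holds inside every non-abelian variety of `p`-groups, it gives the frozen statement.
-/

set_option autoImplicit false
open Pool Pool.MP_6f76df_al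

namespace Pool.Agent.S01851

open Pool.Agent.Helper37.SM in
/-- The number of groups of order `p^m` is at most `p^(2m³/27 + C m²)`. -/
theorem sims_upper : Upper_Stmt :=
  upper (step_of ext key) (exist_of t2 rank gen grow sat marks) small num

open Pool.Agent.Helper37.SM in
theorem main_cls :
    ∀ (p : ℕ), p.Prime → ∀ (L L' : Set (FreeGroup ℕ)),
      (∀ (G : Type) [Group G], (∀ w ∈ L, ∀ x : ℕ → G, FreeGroup.lift x w = 1) →
          IsPGroup p G ∧ (Group.FG G → Finite G)) →
      (∀ (G : Type) [Group G], (∀ w ∈ L', ∀ x : ℕ → G, FreeGroup.lift x w = 1) →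
          (∀ w ∈ L, ∀ x : ℕ → G, FreeGroup.lift x w = 1)) →
      (∃ (G : Type) (_ : Group G), (∀ w ∈ L', ∀ x : ℕ → G, FreeGroup.lift x w = 1) ∧
          ∃ a b : G, a * b ≠ b * a) →
      ∃ C : ℕ, ∀ m : ℕ, 1 ≤ m →
        Nat.card (cls p m L) ≤ p ^ (C * m ^ 2) * Nat.card (cls p m L') :=
  final_of sims_upper lower laws

/-- For any locally finite variety of p-groups V (given by laws) and non-abelian subvariety U, there is C with #iso classes of order-p^m groups in V at most p^(C m^2) times that number for U, for all m ≥ 1. -/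
theorem result :
    ∀ (p : ℕ), p.Prime → ∀ (L L' : Set (FreeGroup ℕ)),
      (∀ (G : Type) [Group G], (∀ w ∈ L, ∀ x : ℕ → G, FreeGroup.lift x w = 1) →
          IsPGroup p G ∧ (Group.FG G → Finite G)) →
      (∀ (G : Type) [Group G], (∀ w ∈ L', ∀ x : ℕ → G, FreeGroup.lift x w = 1) →
          (∀ w ∈ L, ∀ x : ℕ → G, FreeGroup.lift x w = 1)) →
      (∃ (G : Type) (_ : Group G), (∀ w ∈ L', ∀ x : ℕ → G, FreeGroup.lift x w = 1) ∧
          ∃ a b : G, a * b ≠ b * a) →
      ∃ C : ℕ, ∀ m : ℕ, 1 ≤ m →
        Nat.card (Quot (fun H K : {H : Subgroup (Equiv.Perm (Fin (p ^ m))) //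
              Nat.card H = p ^ m ∧ ∀ w ∈ L, ∀ x : ℕ → H, FreeGroup.lift x w = 1} =>
              Nonempty (H.1 ≃* K.1)))
          ≤ p ^ (C * m ^ 2) *
            Nat.card (Quot (fun H K : {H : Subgroup (Equiv.Perm (Fin (p ^ m))) //
              Nat.card H = p ^ m ∧ ∀ w ∈ L', ∀ x : ℕ → H, FreeGroup.lift x w = 1} =>
              Nonempty (H.1 ≃* K.1))) := by
  exact main_cls

end Pool.Agent.S01851
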