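import Pool.Statements.S02151
import Pool.Agent.PT2.Final

set_option autoImplicit false
open Pool Pool.MP_851278_al

namespace Pool.Agent.S02151

/-- Every connected, locally finite graph with finitely many automorphism orbits that is quasi-isometric to a connected graph excluding some finite minor is accessible: a fixed k bounds the size of vertex sets needed to separate any two distinct ends. -/
theorem result :
    ∀ (V : Type) (G : SimpleGraph V), G.Connected → (∀ v, (G.neighborSet v).Finite) →
      (∃ S : Finset V, ∀ v : V, ∃ s ∈ S, ∃ φ : G ≃g G, φ s = v) →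
      (∃ (V' : Type) (G' : SimpleGraph V'), G'.Connected ∧
        (∃ (W : Type), Finite W ∧ ∃ H : SimpleGraph W,
          ¬ ∃ f : W → Set V', (∀ w, (G'.induce (f w)).Connected) ∧
            Pairwise (fun a b => Disjoint (f a) (f b)) ∧
            ∀ a b, H.Adj a b → ∃ x ∈ f a, ∃ y ∈ f b, G'.Adj x y) ∧
        ∃ (q : V → V') (C : ℕ),
          (∀ x y, G'.dist (q x) (q y) ≤ C * G.dist x y + C ∧
                  G.dist x y ≤ C * G'.dist (q x) (q y) + C) ∧
          ∀ z, ∃ x, G'.dist z (q x) ≤ C) →
      ∃ k : ℕ, ∀ ω₁ ω₂ : G.end, ω₁ ≠ ω₂ →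
        ∃ K : Finset V, K.card ≤ k ∧ ω₁.val (Opposite.op K) ≠ ω₂.val (Opposite.op K) :=
  Pool.Agent.PT2.fin

end Pool.Agent.S02151
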