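import Pool.Statements.S02463
import Pool.Agent.Helper72.Delta

set_option autoImplicit false
open Pool Pool.MP_9bbc25_al

namespace Pool.Agent.S02463

/-- Every finite set of positive integers containing 1 equals the delta set of some numerical semigroup, i.e. the set of gaps between consecutive factorization lengths over its minimal generators. -/
theorem result :
    ∀ D : Finset ℕ, (∀ d ∈ D, 0 < d) → 1 ∈ D →
      ∃ S : AddSubmonoid ℕ, ((S : Set ℕ)ᶜ).Finite ∧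
        {d : ℕ | 0 < d ∧ ∃ n ∈ S, ∃ k : ℕ,
          (∃ m : Multiset ℕ,
              (∀ a ∈ m, a ∈ S ∧ a ≠ 0 ∧ ∀ b ∈ S, ∀ c ∈ S, b + c = a → b = 0 ∨ c = 0) ∧
              m.sum = n ∧ Multiset.card m = k) ∧
          (∃ m : Multiset ℕ,
              (∀ a ∈ m, a ∈ S ∧ a ≠ 0 ∧ ∀ b ∈ S, ∀ c ∈ S, b + c = a → b = 0 ∨ c = 0) ∧
              m.sum = n ∧ Multiset.card m = k + d) ∧
          ∀ j : ℕ, k < j → j < k + d →
            ¬ ∃ m : Multiset ℕ,
              (∀ a ∈ m, a ∈ S ∧ a ≠ 0 ∧ ∀ b ∈ S, ∀ c ∈ S, b + c = a → b = 0 ∨ c = 0) ∧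
              m.sum = n ∧ Multiset.card m = j} = (D : Set ℕ) := by
  intro D hD h1
  obtain ⟨I, e, m, N, W, hN, hW, ⟨X, hX⟩, hmain⟩ := Helper72.Delta.main D hD h1
  refine ⟨Helper72.Delta.SG I e m N W, ?_, ?_⟩
  · refine Set.Finite.subset (Set.finite_lt_nat X) ?_
    intro x hx
    by_contra hcon
    exact hx (Helper72.Delta.mem_SG_iff.2 (hX x (by simpa using hcon)))
  · simp only [Helper72.Delta.atom_iff hN hW]
    ext d
    rw [Set.mem_setOf_eq, Finset.mem_coe, ← hmain d]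
    constructor
    · rintro ⟨hd, n, -, k, hk, hkd, hgap⟩
      exact ⟨hd, n, k, hk, hkd, hgap⟩
    · rintro ⟨hd, n, k, hk, hkd, hgap⟩
      exact ⟨hd, n, Helper72.Delta.mem_SG_iff.2 ⟨k, hk⟩, k, hk, hkd, hgap⟩

end Pool.Agent.S02463
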