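import Pool.Statements.S03452
import Pool.Agent.Helper49.LSPFact
import Pool.Agent.Helper49.LSPSolv

set_option autoImplicit false
open Pool Pool.MP_ead43b_al

namespace Pool.Agent.S03452

open Equiv Pool.Agent.Helper49.LSP

/-- The group `G`, the increasing union of the soluble groups `Gk k`. -/
def GG : Subgroup (Perm ℤ) where
  carrier := {g | ∃ k, g ∈ Gk k}
  mul_mem' := by
    rintro g h ⟨k, hk⟩ ⟨l, hl⟩
    exact ⟨max k l, mul_mem (Gk_mono (le_max_left _ _) hk) (Gk_mono (le_max_right _ _) hl)⟩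
  one_mem' := ⟨0, one_mem _⟩
  inv_mem' := by
    rintro g ⟨k, hk⟩
    exact ⟨k, inv_mem hk⟩

/-- The union of the finite groups `Ak k`. -/
def AA : Subgroup (Perm ℤ) where
  carrier := {g | ∃ k, g ∈ Ak k}
  mul_mem' := by
    rintro g h ⟨k, hk⟩ ⟨l, hl⟩
    exact ⟨max k l, mul_mem (Ak_mono (le_max_left _ _) hk) (Ak_mono (le_max_right _ _) hl)⟩
  one_mem' := ⟨0, one_mem _⟩
  inv_mem' := by
    rintro g ⟨k, hk⟩
    exact ⟨k, inv_mem hk⟩

/-- The conjugate of `AA` by the translation `tau`. -/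
def BB : Subgroup (Perm ℤ) where
  carrier := {g | ∃ k, tau⁻¹ * g * tau ∈ Ak k}
  mul_mem' := by
    rintro g h ⟨k, hk⟩ ⟨l, hl⟩
    refine ⟨max k l, ?_⟩
    have h1 := mul_mem (Ak_mono (le_max_left k l) hk) (Ak_mono (le_max_right k l) hl)
    have h2 : tau⁻¹ * g * tau * (tau⁻¹ * h * tau) = tau⁻¹ * (g * h) * tau := by group
    rwa [h2] at h1
  one_mem' := ⟨0, by simp [one_mem]⟩
  inv_mem' := by
    rintro g ⟨k, hk⟩
    refine ⟨k, ?_⟩
    have h1 := inv_mem hk
    have h2 : (tau⁻¹ * g * tau)⁻¹ = tau⁻¹ * g⁻¹ * tau := by group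
    rwa [h2] at h1

lemma level (S : Finset GG) : ∃ k, ∀ s ∈ S, (s : Perm ℤ) ∈ Gk k := by
  classical
  induction S using Finset.induction_on with
  | empty => exact ⟨0, by simp⟩
  | insert a S ha ih =>
    obtain ⟨k, hk⟩ := ih
    obtain ⟨l, hl⟩ := a.2
    refine ⟨max k l, fun s hs => ?_⟩
    rcases Finset.mem_insert.1 hs with h | h
    · subst h
      exact Gk_mono (le_max_right _ _) hl
    · exact Gk_mono (le_max_left _ _) (hk s h)

/-- The negation of the preceding statement: Suppose every finitely generated subgroup of a group G is soluble, and every element of G is a product ab with a, b taken from two periodic subgroups A and B. Then every element of G has finite order. -/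
theorem result :
    ¬ (∀ (G : Type) [Group G],
      (∀ S : Finset G, IsSolvable (Subgroup.closure (S : Set G))) →
      ∀ A B : Subgroup G,
        (∀ a ∈ A, IsOfFinOrder a) →
        (∀ b ∈ B, IsOfFinOrder b) →
        (∀ g : G, ∃ a ∈ A, ∃ b ∈ B, g = a * b) →
        Monoid.IsTorsion G) := by
  intro H
  have h := H GG ?_ (AA.subgroupOf GG) (BB.subgroupOf GG) ?_ ?_ ?_
  · -- the translation by `2` has infinite order
    have hmem : (Equiv.addRight (2 : ℤ) : Perm ℤ) ∈ GG := by
      refine ⟨0, fun x => ?_, fun i x y => ?_, fun x => ⟨1, Or.inl rfl, fun y => ?_⟩⟩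
      · simp
      · simp
      · simp only [Equiv.coe_addRight]
        ring
    have h1 := h ⟨_, hmem⟩
    rw [isOfFinOrder_iff_pow_eq_one] at h1
    obtain ⟨N, hN, h2⟩ := h1
    have h3 : (Equiv.addRight (2 : ℤ) : Perm ℤ) ^ N = 1 := by
      have := congrArg Subtype.val h2
      simpa using this
    have h4 : ∀ M : ℕ, ((Equiv.addRight (2 : ℤ) : Perm ℤ) ^ M) 0 = 2 * M := by
      intro M
      induction M with
      | zero => simp
      | succ M ih =>
        rw [pow_succ', Perm.mul_apply, ih]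
        simp only [Equiv.coe_addRight]
        push_cast
        ring
    have h5 := h4 N
    rw [h3] at h5
    simp only [Perm.one_apply] at h5
    omega
  · intro S
    obtain ⟨k, hk⟩ := level S
    have := solv_Gk k
    have hle : Subgroup.closure (S : Set GG) ≤ (Gk k).subgroupOf GG := by
      rw [Subgroup.closure_le]
      intro s hs
      exact hk s hs
    let f : Subgroup.closure (S : Set GG) →* Gk k :=
      { toFun := fun x => ⟨x.1.1, hle x.2⟩
        map_one' := rfl
        map_mul' := fun _ _ => rfl }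
    have hf : Function.Injective f := by
      intro x y hxy
      apply Subtype.ext
      apply Subtype.ext
      exact congrArg (fun z : Gk k => (z : Perm ℤ)) hxy
    exact Group.isSolvable_of_isSolvable_injective hf
  · rintro ⟨a, ha⟩ haA
    obtain ⟨k, hk⟩ : ∃ k, a ∈ Ak k := haA
    have := Ak_fin hk
    rwa [← Submonoid.isOfFinOrder_coe]
  · rintro ⟨b, hb⟩ hbB
    obtain ⟨k, hk⟩ : ∃ k, tau⁻¹ * b * tau ∈ Ak k := hbB
    have h1 := Ak_fin hk
    rw [← Submonoid.isOfFinOrder_coe]
    change IsOfFinOrder b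
    rw [isOfFinOrder_iff_pow_eq_one] at h1 ⊢
    obtain ⟨N, hN, h2⟩ := h1
    refine ⟨N, hN, ?_⟩
    have h3 : tau⁻¹ * b * tau = tau⁻¹ * b * (tau⁻¹)⁻¹ := by group
    rw [h3, conj_pow] at h2
    have h4 : tau * (tau⁻¹ * b ^ N * tau⁻¹⁻¹) * tau⁻¹ = tau * 1 * tau⁻¹ := by rw [h2]
    have h5 : tau * (tau⁻¹ * b ^ N * tau⁻¹⁻¹) * tau⁻¹ = b ^ N := by group
    rw [h5] at h4
    rw [h4]
    group
  · rintro ⟨g, i, hg⟩
    obtain ⟨k, a, ha, b, hb, hbG, hab⟩ := factor hg
    exact ⟨⟨a, k, ha.1⟩, ⟨k, ha⟩, ⟨b, k, hbG⟩, ⟨k, hb⟩, Subtype.ext hab⟩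

end Pool.Agent.S03452
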