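import Pool.Statements.S03869
import Pool.Agent.CEL.Main
-- import your own Pool.Agent.* helpers here

set_option autoImplicit false
open Topology Filter MeasureTheory Matrix
open Pool Pool.MP_12ff24_an

namespace Pool.Agent.S03869

/-- For every ℂ-elliptic first-order constant-coefficient operator B and every u in BV^B of an open set, the total variation measure of Bu gives zero mass to approximate discontinuity points that are not jump points. -/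
theorem result :
  ∀ (n N K : ℕ) (A : Fin n → Matrix (Fin K) (Fin N) ℝ),
    (∀ ξ : Fin n → ℂ, ξ ≠ 0 → ∀ v : Fin N → ℂ,
      (∑ j, ξ j • (A j).map (fun t : ℝ => (t : ℂ))) *ᵥ v = 0 → v = 0) →
    ∀ (Ω : Set (EuclideanSpace ℝ (Fin n))), IsOpen Ω →
    ∀ (u : EuclideanSpace ℝ (Fin n) → (Fin N → ℝ)), Measurable u → IntegrableOn u Ω →
    ∀ (μ : Measure (EuclideanSpace ℝ (Fin n))) (g : EuclideanSpace ℝ (Fin n) → (Fin K → ℝ)),
      IsFiniteMeasure μ → μ Ωᶜ = 0 → Measurable g → (∀ᵐ x ∂μ, ‖g x‖ = 1) →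
      (∀ φ : EuclideanSpace ℝ (Fin n) → (Fin K → ℝ), ContDiff ℝ (⊤ : ℕ∞) φ →
        HasCompactSupport φ → tsupport φ ⊆ Ω →
        ∫ x in Ω, ∑ j, u x ⬝ᵥ ((A j).transpose *ᵥ (fderiv ℝ φ x (EuclideanSpace.single j 1))) =
          - ∫ x, g x ⬝ᵥ φ x ∂μ) →
      μ {x | x ∈ Ω ∧
        (¬ ∃ z : Fin N → ℝ,
          Tendsto (fun r : ℝ => (volume (Metric.ball x r))⁻¹ *
            ∫⁻ y in Metric.ball x r, ‖u y - z‖ₑ) (𝓝[>] 0) (𝓝 0)) ∧
        (¬ ∃ (a b : Fin N → ℝ) (ν : EuclideanSpace ℝ (Fin n)), a ≠ b ∧ ‖ν‖ = 1 ∧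
          Tendsto (fun r : ℝ => (volume (Metric.ball x r))⁻¹ *
            ∫⁻ y in Metric.ball x r ∩ {y | 0 < inner ℝ (y - x) ν}, ‖u y - a‖ₑ)
            (𝓝[>] 0) (𝓝 0) ∧
          Tendsto (fun r : ℝ => (volume (Metric.ball x r))⁻¹ *
            ∫⁻ y in Metric.ball x r ∩ {y | inner ℝ (y - x) ν < 0}, ‖u y - b‖ₑ)
            (𝓝[>] 0) (𝓝 0))} = 0 :=
  Pool.Agent.CEL.t_asm

end Pool.Agent.S03869
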