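import Pool.Statements.S04351
import Pool.Agent.Helper56.SepDeriv3

set_option autoImplicit false
open Pool Pool.MP_37ff87_an

namespace Pool.Agent.S04351

/-- For every separable real Banach space X: if the set of Gâteaux derivatives of the norm at unit vectors (the support functionals at Gâteaux points) is norm separable in X*, then the dual X* is separable.

Proof idea. Let mu be the law of a random series `∑ tₙ hₙ` with `tₙ` independent and uniform on
`[0,1]` and `hₙ` small multiples of a dense sequence. The smoothed norm `φ(x) = ∫ ‖x + w‖ dmu(w)` is
within `δ` of the norm and has at every point a subgradient that is an average of Gateaux derivatives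
of the norm (the norm is Gateaux differentiable at `x + w` for almost every `w`). If the derivatives lie
in a proper closed separable subspace, a sequence `ξₙ` in the ball with `f0(ξₙ) ≥ α > 0`, on which all
derivatives tend to `0`, contradicts a Simons type argument applied to `φ`. -/
theorem result :
    ∀ (X : Type) [NormedAddCommGroup X] [NormedSpace ℝ X] [CompleteSpace X]
      [TopologicalSpace.SeparableSpace X],
      TopologicalSpace.IsSeparable
          {f : X →L[ℝ] ℝ | ∃ x : X, ‖x‖ = 1 ∧
            ∀ v : X, HasLineDerivAt ℝ (fun y : X => ‖y‖) (f v) x v} →
        TopologicalSpace.SeparableSpace (X →L[ℝ] ℝ) := by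
  intro X _ _ _ _ hD
  exact Pool.Agent.Helper56.SepDeriv.main hD

end Pool.Agent.S04351
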