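import Pool.Statements.S04422
import Pool.Agent.URec.Signs
import Pool.Agent.URec.Basic
import Pool.Agent.URec.Dec
import Pool.Agent.URec.CorrAbs
import Pool.Agent.URec.CorrLink
import Pool.Agent.URec.Rec
import Pool.Agent.URec.Prox
import Pool.Agent.URec.Final

set_option autoImplicit false
open Topology
open Pool Pool.MP_3dc43d_an

namespace Pool.Agent.S04422

/-- The negation of the preceding statement: For every real or complex Banach space X and bounded operator T, if the uniformly recurrent vectors (return times to each neighbourhood have bounded gaps) are dense, then some dense linear subspace consists entirely of uniformly recurrent vectors. -/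
theorem result :
    ¬ (∀ (𝕂 : Type) [RCLike 𝕂] (X : Type) [NormedAddCommGroup X] [NormedSpace 𝕂 X]
      [CompleteSpace X] (T : X →L[𝕂] X),
      Dense {x : X | ∀ U ∈ 𝓝 x, ∃ N : ℕ, ∀ m : ℕ, ∃ n : ℕ,
          m ≤ n ∧ n ≤ m + N ∧ 1 ≤ n ∧ (T ^ n) x ∈ U} →
      ∃ M : Submodule 𝕂 X, Dense (M : Set X) ∧
        ∀ x ∈ M, ∀ U ∈ 𝓝 x, ∃ N : ℕ, ∀ m : ℕ, ∃ n : ℕ,
          m ≤ n ∧ n ≤ m + N ∧ 1 ≤ n ∧ (T ^ n) x ∈ U) := by
  obtain ⟨P⟩ := Pool.Agent.URec.signs
  exact Pool.Agent.URec.main_of P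
    (Pool.Agent.URec.stmt_sign P) (Pool.Agent.URec.stmt_cell P) (Pool.Agent.URec.stmt_pos P)
    (Pool.Agent.URec.stmt_posDet P) (Pool.Agent.URec.stmt_closed P)
    (Pool.Agent.URec.corr P (Pool.Agent.URec.corrAbs P)) (Pool.Agent.URec.dec P)
    (Pool.Agent.URec.rec_ P) (Pool.Agent.URec.prox P) (Pool.Agent.URec.stmt_nonempty P)

end Pool.Agent.S04422
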