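import Pool.Statements.S04610
import Pool.Agent.Helper58.LpReflexive
import Pool.Agent.Helper58.Embed

set_option autoImplicit false
open Filter Topology
open Pool Pool.MP_4c3cf5_an

namespace Pool.Agent.S04610

open scoped ENNReal lp
open Pool.Agent.Helper58

/-- `lp`-sums of reflexive spaces, `1 < p < ∞`, are reflexive. -/
theorem lp_refl {ι : Type} {E : ι → Type} [∀ i, NormedAddCommGroup (E i)]
    [∀ i, NormedSpace ℝ (E i)] {p : ℝ≥0∞} [Fact (1 ≤ p)] (h1 : 1 < p) (hp : p ≠ ⊤)
    (hE : ∀ i, Function.Surjective (NormedSpace.inclusionInDoubleDual ℝ (E i))) :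
    Function.Surjective (NormedSpace.inclusionInDoubleDual ℝ (lp E p)) := by
  haveI : Fact (1 ≤ ENNReal.conjExponent p) := ⟨by
    unfold ENNReal.conjExponent
    exact le_self_add⟩
  refine lp_reflexive (p := p) (p' := ENNReal.conjExponent p) hp ?_ hE
  unfold ENNReal.conjExponent
  refine ENNReal.add_ne_top.2 ⟨ENNReal.one_ne_top, ENNReal.inv_ne_top.2 ?_⟩
  exact (tsub_pos_of_lt h1).ne'

theorem PP_gt (n : ℕ) : 1 < PP n := by
  have h := PP_ge n
  by_contra hcon
  push Not at hcon
  have := ENNReal.toReal_mono ENNReal.one_ne_top hcon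
  rw [ENNReal.toReal_one] at this
  linarith

theorem ee_tendsto (φ : StrongDual ℝ XX) : Tendsto (fun i => φ (ee i)) atTop (𝓝 0) := by
  have h4 : (4 : ℝ≥0∞).toReal.HolderConjugate (ENNReal.conjExponent 4).toReal := by
    have hc : ENNReal.conjExponent 4 ≠ ⊤ := by
      unfold ENNReal.conjExponent
      refine ENNReal.add_ne_top.2 ⟨ENNReal.one_ne_top, ENNReal.inv_ne_top.2 ?_⟩
      exact (tsub_pos_of_lt (by norm_num : (1 : ℝ≥0∞) < 4)).ne'
    have hc0 : ENNReal.conjExponent 4 ≠ 0 := by
      unfold ENNReal.conjExponent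
      simp
    have := ENNReal.HolderTriple.toReal (p := 4) (q := ENNReal.conjExponent 4) 1 (by norm_num)
      (ENNReal.toReal_pos hc0 hc)
    simpa using this
  have hm := memlp_coeff h4 φ
  have hs := hm.summable h4.symm.pos
  have ht := hs.tendsto_cofinite_zero
  rw [Nat.cofinite_eq_atTop] at ht
  have ht2 : Tendsto (fun i => ‖coeff φ i‖) atTop (𝓝 0) := by
    have := ht.rpow_const (p := 1 / (ENNReal.conjExponent 4).toReal)
      (Or.inr (by have := h4.symm.pos; positivity))
    rw [Real.zero_rpow (by have := h4.symm.pos; positivity)] at this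
    refine this.congr fun i => ?_
    rw [← Real.rpow_mul (norm_nonneg _), mul_one_div_cancel h4.symm.pos.ne', Real.rpow_one]
  refine squeeze_zero_norm (fun i => ?_) ht2
  have h := (coeff φ i).le_opNorm (1 : ℝ)
  rw [norm_one, mul_one] at h
  exact h

/-- The negation of the preceding statement: For separable reflexive real Banach spaces X, Y: if X coarse Lipschitz embeds into Y, then some coarse Lipschitz embedding of X into Y maps weakly convergent sequences to weakly convergent sequences with the matching limit. -/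
theorem result :
    ¬ (∀ (X Y : Type) [NormedAddCommGroup X] [NormedSpace ℝ X] [CompleteSpace X]
      [TopologicalSpace.SeparableSpace X]
      [NormedAddCommGroup Y] [NormedSpace ℝ Y] [CompleteSpace Y]
      [TopologicalSpace.SeparableSpace Y],
      Function.Surjective (NormedSpace.inclusionInDoubleDual ℝ X) →
      Function.Surjective (NormedSpace.inclusionInDoubleDual ℝ Y) →
      (∃ f : X → Y, ∃ a b c : ℝ, 0 < a ∧ 0 < b ∧ 0 ≤ c ∧
        ∀ x x' : X, a * ‖x - x'‖ - c ≤ ‖f x - f x'‖ ∧ ‖f x - f x'‖ ≤ b * ‖x - x'‖ + c) →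
      ∃ g : X → Y,
        (∃ a b c : ℝ, 0 < a ∧ 0 < b ∧ 0 ≤ c ∧
          ∀ x x' : X, a * ‖x - x'‖ - c ≤ ‖g x - g x'‖ ∧ ‖g x - g x'‖ ≤ b * ‖x - x'‖ + c) ∧
        ∀ (u : ℕ → X) (x : X),
          (∀ φ : X →L[ℝ] ℝ, Tendsto (fun n => φ (u n)) atTop (𝓝 (φ x))) →
          ∀ ψ : Y →L[ℝ] ℝ, Tendsto (fun n => ψ (g (u n))) atTop (𝓝 (ψ (g x)))) := by
  intro H
  haveI hXs : TopologicalSpace.SeparableSpace XX := lp_separable (by norm_num)
  haveI hEs : ∀ n, TopologicalSpace.SeparableSpace (EE PP n) := fun n => lp_separable (PP_top n)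
  haveI hYs : TopologicalSpace.SeparableSpace (YY PP) := lp_separable (by norm_num)
  have hXr : Function.Surjective (NormedSpace.inclusionInDoubleDual ℝ XX) :=
    lp_refl (by norm_num) (by norm_num) (fun _ => real_reflexive)
  have hEr : ∀ n, Function.Surjective (NormedSpace.inclusionInDoubleDual ℝ (EE PP n)) :=
    fun n => lp_refl (PP_gt n) (PP_top n) (fun _ => real_reflexive)
  have hYr : Function.Surjective (NormedSpace.inclusionInDoubleDual ℝ (YY PP)) :=
    lp_refl (by norm_num) (by norm_num) hEr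
  obtain ⟨g, ⟨a, b, c, ha, hb, hc, hg⟩, hw⟩ := H XX (YY PP) hXr hYr
    ⟨emb, 1 / 36, 80, 1, by norm_num, by norm_num, by norm_num, fun x y =>
      ⟨emb_lower x y, (emb_upper x y).trans (by linarith)⟩⟩
  set r : ℝ := (c + 3) / a with hr
  have hr0 : 0 < r := by positivity
  refine no_wsc PP_top PP_lt g b c r hb.le hc (fun x y => (hg x y).2) ?_ ?_
  · intro x i
    have h := (hg (x + r • ee i) x).1
    rw [add_sub_cancel_left, norm_smul, norm_ee, Real.norm_eq_abs, abs_of_pos hr0, mul_one] at h
    have : a * r = c + 3 := by rw [hr]; field_simp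
    linarith
  · intro x ψ
    have h := hw (fun i => x + r • ee i) x (by
      intro φ
      have h1 : Tendsto (fun i => φ x + r * φ (ee i)) atTop (𝓝 (φ x + r * 0)) :=
        tendsto_const_nhds.add ((ee_tendsto φ).const_mul r)
      rw [mul_zero, add_zero] at h1
      refine h1.congr fun i => ?_
      rw [map_add, map_smul, smul_eq_mul]) ψ
    have h2 := h.sub_const (ψ (g x))
    rw [sub_self] at h2
    refine h2.congr fun i => ?_
    rw [map_sub]

end Pool.Agent.S04610
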