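import Pool.Statements.S05404
import Pool.Agent.SLA.Asm
import Pool.Agent.SLA.Sys
import Pool.Agent.SLA.Trc
import Pool.Agent.SLA.Q
import Pool.Agent.SLA.Ret
import Pool.Agent.SLA.Bmp
import Pool.Agent.SLA.ADB
import Pool.Agent.SLA.Cnt
import Pool.Agent.SLA.Brn
import Pool.Agent.SLA.NoOp
import Pool.Agent.SLA.Div

set_option autoImplicit false
open Pool Pool.MP_91c4ba_an

namespace Pool.Agent.S05404

/-- The negation of the preceding statement: For every k in ℕ∪{∞} and real Banach space X with a C^k Lipschitz bump (nonzero, bounded support), every Lipschitz map from X into any real Banach space Y is uniformly within any ε>0 of some C^k Lipschitz map. -/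
theorem result :
    ¬ (∀ (k : ℕ∞) (X : Type) [NormedAddCommGroup X] [NormedSpace ℝ X] [CompleteSpace X],
      (∃ b : X → ℝ, ContDiff ℝ ((k : ℕ∞) : WithTop ℕ∞) b ∧ (∃ L : NNReal, LipschitzWith L b) ∧
          b ≠ 0 ∧ Bornology.IsBounded (Function.support b)) →
      ∀ (Y : Type) [NormedAddCommGroup Y] [NormedSpace ℝ Y] [CompleteSpace Y] (f : X → Y),
        (∃ K : NNReal, LipschitzWith K f) →
        ∀ ε : ℝ, 0 < ε →
          ∃ g : X → Y, ContDiff ℝ ((k : ℕ∞) : WithTop ℕ∞) g ∧
            (∃ L : NNReal, LipschitzWith L g) ∧ ∀ x, ‖f x - g x‖ ≤ ε) := by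
  exact SLA.S05404_of SLA.Sys_proof SLA.Trc_proof SLA.Q_proof (SLA.Ret_proof SLA.Q_proof)
    SLA.Bmp_proof SLA.ADB_proof (SLA.NoOp_proof SLA.ADB_proof SLA.Cnt_proof SLA.Brn_proof)
    SLA.Div_proof

end Pool.Agent.S05404
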