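import Pool.Statements.S05609
import Pool.Agent.Helper61.StoneCechProd

set_option autoImplicit false
open Pool Pool.MP_a0704c_an

namespace Pool.Agent.S05609

/-- There is a bounded linear isomorphism, with bounded inverse, between real continuous functions on (convergent sequence)×βℕ×βℕ and real continuous functions on βℕ×βℕ. -/
theorem result :
    Nonempty (C(OnePoint ℕ × StoneCech ℕ × StoneCech ℕ, ℝ) ≃L[ℝ] C(StoneCech ℕ × StoneCech ℕ, ℝ)) :=
  Pool.Agent.Helper61.main

end Pool.Agent.S05609
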