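import Pool.Statements.S05685
import Pool.Agent.Crouzeix.Main

set_option autoImplicit false
open Pool Pool.MP_a561ac_an

namespace Pool.Agent.S05685

/-- For T on a Hilbert space, Ω bounded open containing its spectrum: if a unital antilinear sup-norm contraction α on A(Ω) satisfies ‖f(T)+α(f)(T)*‖ ≤ 2‖f‖_Ω for all f, then ‖f(T)‖ ≤ 2‖f‖_Ω for all f (f(T) via holomorphic calculus). -/
theorem result :
  ∀ (H : Type) [NormedAddCommGroup H] [InnerProductSpace ℂ H] [CompleteSpace H]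
    (T : H →L[ℂ] H) (Ω : Set ℂ), IsOpen Ω → Bornology.IsBounded Ω → spectrum ℂ T ⊆ Ω →
    ∀ (χ : ℂ → ℂ), ContDiff ℝ 1 χ → HasCompactSupport χ → tsupport χ ⊆ Ω →
    (∃ U : Set ℂ, IsOpen U ∧ spectrum ℂ T ⊆ U ∧ Set.EqOn χ 1 U) →
    ∀ (Φ : (ℂ → ℂ) → (H →L[ℂ] H)),
    (∀ f : ℂ → ℂ, Φ f = -(1 / (Real.pi : ℂ)) • ∫ z : ℂ,
        (f z * ((1 / 2 : ℂ) * (fderiv ℝ χ z 1 + Complex.I * fderiv ℝ χ z Complex.I)))
          • resolvent T z) →
    ∀ (α : (ℂ → ℂ) → (ℂ → ℂ)),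
    (∀ f : ℂ → ℂ, (ContinuousOn f (closure Ω) ∧ DifferentiableOn ℂ f Ω) →
        (ContinuousOn (α f) (closure Ω) ∧ DifferentiableOn ℂ (α f) Ω)) →
    (∀ f g : ℂ → ℂ, (ContinuousOn f (closure Ω) ∧ DifferentiableOn ℂ f Ω) →
        (ContinuousOn g (closure Ω) ∧ DifferentiableOn ℂ g Ω) →
        Set.EqOn f g (closure Ω) → Set.EqOn (α f) (α g) (closure Ω)) →
    Set.EqOn (α 1) 1 (closure Ω) →
    (∀ f g : ℂ → ℂ, (ContinuousOn f (closure Ω) ∧ DifferentiableOn ℂ f Ω) →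
        (ContinuousOn g (closure Ω) ∧ DifferentiableOn ℂ g Ω) →
        Set.EqOn (α (f + g)) (α f + α g) (closure Ω)) →
    (∀ (c : ℂ) (f : ℂ → ℂ), (ContinuousOn f (closure Ω) ∧ DifferentiableOn ℂ f Ω) →
        Set.EqOn (α (c • f)) ((starRingEnd ℂ) c • α f) (closure Ω)) →
    (∀ f : ℂ → ℂ, (ContinuousOn f (closure Ω) ∧ DifferentiableOn ℂ f Ω) →
        ∀ M : ℝ, (∀ z ∈ closure Ω, ‖f z‖ ≤ M) → ∀ z ∈ closure Ω, ‖α f z‖ ≤ M) →
    (∀ f : ℂ → ℂ, (ContinuousOn f (closure Ω) ∧ DifferentiableOn ℂ f Ω) →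
        ∀ M : ℝ, (∀ z ∈ closure Ω, ‖f z‖ ≤ M) → ‖Φ f + star (Φ (α f))‖ ≤ 2 * M) →
    ∀ f : ℂ → ℂ, (ContinuousOn f (closure Ω) ∧ DifferentiableOn ℂ f Ω) →
        ∀ M : ℝ, (∀ z ∈ closure Ω, ‖f z‖ ≤ M) → ‖Φ f‖ ≤ 2 * M := by
  intro H _ _ _ T Ω hΩ _ _ χ hχd hχc hχs hU Φ hΦ α hα _ hone hadd hsmul _ hX f hf M hM
  obtain ⟨U, hU1, hU2, hU3⟩ := hU
  have hcut : Pool.Agent.Crouzeix.IsCutoff Ω (spectrum ℂ T) χ :=
    ⟨hχd, hχc, hχs, U, hU1, hU2, hU3⟩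
  have hΦ' : ∀ g, Φ g = Pool.Agent.Crouzeix.fcalc χ T g := fun g => hΦ g
  simp only [hΦ'] at hX ⊢
  rcases Ω.eq_empty_or_nonempty with hemp | ⟨z₀, hz₀⟩
  · exfalso
    have h := hX 0 ⟨continuousOn_const, differentiableOn_const 0⟩ (-1) (by
      intro z hz; rw [hemp, closure_empty] at hz; exact absurd hz (Set.notMem_empty z))
    have := (norm_nonneg _).trans h
    norm_num at this
  have hM0 : 0 ≤ M := (norm_nonneg _).trans (hM z₀ (subset_closure hz₀))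
  rcases hM0.eq_or_lt with h0 | hpos
  · -- `f` vanishes
    have hfz : Set.EqOn f ((0 : ℂ) • f) Ω := by
      intro z hz
      have := hM z (subset_closure hz)
      rw [← h0] at this
      have h1 : f z = 0 := norm_le_zero_iff.mp this
      simp [h1]
    rw [Pool.Agent.Crouzeix.fcalc_congr hcut hfz, Pool.Agent.Crouzeix.fcalc_smul, ← h0]
    simp
  · have hclass : Pool.Agent.Crouzeix.AClass Ω (((M⁻¹ : ℝ) : ℂ) • f) :=
      ⟨hf.1.const_smul _, hf.2.const_smul _⟩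
    have h1 := Pool.Agent.Crouzeix.unital_lemma T Ω hΩ χ hcut α hα hone hadd hsmul hX
      (((M⁻¹ : ℝ) : ℂ) • f) hclass (by
        intro z hz
        rw [Pi.smul_apply, norm_smul, Complex.norm_real, Real.norm_of_nonneg (by positivity)]
        calc M⁻¹ * ‖f z‖ ≤ M⁻¹ * M := by gcongr; exact hM z hz
          _ = 1 := inv_mul_cancel₀ hpos.ne')
    rw [Pool.Agent.Crouzeix.fcalc_smul, norm_smul, Complex.norm_real,
      Real.norm_of_nonneg (by positivity)] at h1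
    calc ‖Pool.Agent.Crouzeix.fcalc χ T f‖
        = M * (M⁻¹ * ‖Pool.Agent.Crouzeix.fcalc χ T f‖) := by
          rw [← mul_assoc, mul_inv_cancel₀ hpos.ne', one_mul]
      _ ≤ M * 2 := by gcongr
      _ = 2 * M := by ring

end Pool.Agent.S05685
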