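import Pool.Statements.S06184
import Pool.Agent.JohnsonSp.Net
import Pool.Agent.JohnsonSp.Lift
import Pool.Agent.JohnsonSp.Compl
import Pool.Agent.JohnsonSp.KerProj
import Pool.Agent.JohnsonSp.Step
import Pool.Agent.JohnsonSp.FDD
import Pool.Agent.JohnsonSp.A
import Pool.Agent.JohnsonSp.Form
import Pool.Agent.JohnsonSp.Sep
import Pool.Agent.JohnsonSp.Johnson
import Pool.Agent.JohnsonSp.Basis
import Pool.Agent.JohnsonSp.Hilb
import Pool.Agent.JohnsonSp.ESub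
import Pool.Agent.JohnsonSp.Red
import Pool.Agent.JohnsonSp.HS
import Pool.Agent.JohnsonSp.Greedy
import Pool.Agent.JohnsonSp.Near
import Pool.Agent.JohnsonSp.Trace
import Pool.Agent.JohnsonSp.HSa
import Pool.Agent.JohnsonSp.HSb
import Pool.Agent.JohnsonSp.Adj
import Pool.Agent.JohnsonSp.Det
import Pool.Agent.JohnsonSp.Dual
import Pool.Agent.JohnsonSp.NetE
import Pool.Agent.JohnsonSp.NetHS
import Pool.Agent.JohnsonSp.Cover
import Pool.Agent.JohnsonSp.OpNorm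
import Pool.Agent.JohnsonSp.Ball
import Pool.Agent.JohnsonSp.Prob
import Pool.Agent.JohnsonSp.Fin
import Pool.Agent.JohnsonSp.Seq
import Pool.Agent.JohnsonSp.Final

set_option autoImplicit false
open Filter Topology
open Pool Pool.MP_cd3d85_an

namespace Pool.Agent.S06184

/-- The negation of the preceding statement: For any ℓ²-sum of ℓ^{p_n}_{k_n} with k_n→∞, p_n→2, not isomorphic to ℓ², all of whose closed subspaces have an FDD and the UAP, every infinite-dimensional closed subspace has a Schauder basis. -/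
theorem result :
    ¬ (∀ (k : ℕ → ℕ) (p : ℕ → ENNReal) [∀ n, Fact (1 ≤ p n)],
    Tendsto k atTop atTop → Tendsto p atTop (𝓝 2) →
    (¬ Nonempty (lp (fun n : ℕ => PiLp (p n) (fun _ : Fin (k n) => ℝ)) 2 ≃L[ℝ] lp (fun _ : ℕ => ℝ) 2)) →
    (∀ E : Submodule ℝ (lp (fun n : ℕ => PiLp (p n) (fun _ : Fin (k n) => ℝ)) 2),
      IsClosed (E : Set (lp (fun n : ℕ => PiLp (p n) (fun _ : Fin (k n) => ℝ)) 2)) →
      (∃ F : ℕ → Submodule ℝ E, (∀ n, FiniteDimensional ℝ (F n)) ∧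
        ∀ x : E, ∃! y : ℕ → E, (∀ n, y n ∈ F n) ∧
          Tendsto (fun N => ∑ i ∈ Finset.range N, y i) atTop (𝓝 x)) ∧
      (∃ (C : ℝ) (f : ℕ → ℕ), ∀ G : Submodule ℝ E, FiniteDimensional ℝ G →
        ∃ T : E →L[ℝ] E, (∀ x ∈ G, T x = x) ∧ ‖T‖ ≤ C ∧
          FiniteDimensional ℝ (LinearMap.range (T : E →ₗ[ℝ] E)) ∧
          Module.finrank ℝ (LinearMap.range (T : E →ₗ[ℝ] E)) ≤ f (Module.finrank ℝ G))) →
    ∀ E : Submodule ℝ (lp (fun n : ℕ => PiLp (p n) (fun _ : Fin (k n) => ℝ)) 2),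
      IsClosed (E : Set (lp (fun n : ℕ => PiLp (p n) (fun _ : Fin (k n) => ℝ)) 2)) →
      ¬ FiniteDimensional ℝ E →
      ∃ e : ℕ → E, ∀ x : E, ∃! a : ℕ → ℝ,
        Tendsto (fun N => ∑ i ∈ Finset.range N, a i • e i) atTop (𝓝 x)) := by
  have hLift : JohnsonSp.Stmt_Lift := JohnsonSp.Lift
  have hCompl : JohnsonSp.Stmt_Compl := JohnsonSp.Compl
  have hKer : JohnsonSp.Stmt_KerProj := JohnsonSp.KerProj hLift
  have hStep : JohnsonSp.Stmt_Step := JohnsonSp.Step hLift hCompl hKer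
  have hA : JohnsonSp.Stmt_A := JohnsonSp.A hStep JohnsonSp.FDD hLift hCompl
  have hJ : JohnsonSp.Stmt_Johnson := JohnsonSp.Johnson hA JohnsonSp.Form JohnsonSp.Sep
  have hDet : JohnsonSp.Stmt_Det := JohnsonSp.Det_of JohnsonSp.HS JohnsonSp.Adj JohnsonSp.Greedy
    JohnsonSp.Near (JohnsonSp.Trace JohnsonSp.HS) JohnsonSp.HSa JohnsonSp.HSb
  have hProb : JohnsonSp.Stmt_Prob := JohnsonSp.Prob_of JohnsonSp.Dual JohnsonSp.NetHS
    (JohnsonSp.Cover JohnsonSp.NetE) (JohnsonSp.OpNorm JohnsonSp.Net) JohnsonSp.Ball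
  exact JohnsonSp.final_of hJ JohnsonSp.Form JohnsonSp.Basis JohnsonSp.Hilb
    JohnsonSp.ESub_module JohnsonSp.Red (JohnsonSp.seq_thm (JohnsonSp.fin_thm hDet hProb))

end Pool.Agent.S06184
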