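import Pool.Statements.S06888
import Pool.Agent.SSH.Main

set_option autoImplicit false
open Pool Pool.MP_018a5e_co

namespace Pool.Agent.S06888

/-- The negation of the preceding statement: Every infinite square-free word over 3 letters u equals a shuffle of u itself with some infinite square-free ternary word w, interleaved by a selector sequence with infinitely many choices of each side. -/
theorem result :
    ¬ (∀ u : ℕ → Fin 3, (∀ i n : ℕ, 0 < n → ∃ k < n, u (i + k) ≠ u (i + n + k)) →
      ∃ w : ℕ → Fin 3, (∀ i n : ℕ, 0 < n → ∃ k < n, w (i + k) ≠ w (i + n + k)) ∧
        ∃ β : ℕ → Bool, Set.Infinite {i : ℕ | β i = false} ∧ Set.Infinite {i : ℕ | β i = true} ∧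
          ∀ n : ℕ, u n =
            if β n = false then
              u (Finset.filter (fun i => β i = false) (Finset.range n)).card
            else
              w (Finset.filter (fun i => β i = true) (Finset.range n)).card) := by
  exact Pool.Agent.SSH.main

end Pool.Agent.S06888
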