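import Pool.Statements.S07453
import Pool.Agent.Helper67.Abstract

set_option autoImplicit false
open Pool Pool.MP_1bb742_co

namespace Pool.Agent.S07453

open Finset

/-- The action of vertex permutations on the set of unordered pairs of distinct vertices. -/
noncomputable def actPairs (n : ℕ) :
    Equiv.Perm (Fin n) →* Equiv.Perm {e : Sym2 (Fin n) // ¬ e.IsDiag} where
  toFun σ :=
    { toFun := fun e => ⟨Sym2.map σ e.1, by rw [Sym2.isDiag_map σ.injective]; exact e.2⟩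
      invFun := fun e => ⟨Sym2.map σ.symm e.1, by rw [Sym2.isDiag_map σ.symm.injective]; exact e.2⟩
      left_inv := fun e => by
        apply Subtype.ext
        simp only
        rw [Sym2.map_map]
        simp
      right_inv := fun e => by
        apply Subtype.ext
        simp only
        rw [Sym2.map_map]
        simp }
  map_one' := by
    ext e : 1
    apply Subtype.ext
    simp
  map_mul' := by
    intro σ τ
    ext e : 1
    apply Subtype.ext
    simp only [Equiv.Perm.mul_apply, Equiv.coe_fn_mk]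
    rw [Sym2.map_map]
    rfl

lemma actPairs_apply (n : ℕ) (σ : Equiv.Perm (Fin n)) (e : {e : Sym2 (Fin n) // ¬ e.IsDiag}) :
    ((actPairs n σ) e).1 = Sym2.map σ e.1 := rfl

lemma actPairs_trans (n : ℕ) : ∀ x y, ∃ g, actPairs n g x = y := by
  rintro ⟨x, hx⟩ ⟨y, hy⟩
  induction x with
  | _ a b =>
  induction y with
  | _ c d =>
  rw [Sym2.mk_isDiag_iff] at hx hy
  -- first move `a` to `c`, then move the image of `b` to `d` fixing `c`
  refine ⟨Equiv.swap (Equiv.swap a c b) d * Equiv.swap a c, ?_⟩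
  apply Subtype.ext
  rw [actPairs_apply]
  have h1 : Equiv.swap (Equiv.swap a c b) d c = c := by
    apply Equiv.swap_apply_of_ne_of_ne
    · intro h
      have : Equiv.swap a c a = Equiv.swap a c b := by rw [Equiv.swap_apply_left]; exact h
      exact hx ((Equiv.swap a c).injective this)
    · exact hy
  simp [h1]

/-- The purely analytic estimate. -/
lemma eventually_small (c : ℝ) (hc : 0 < c) :
    ∃ N : ℕ, ∀ n : ℕ, N ≤ n → 5 * (n : ℝ) ^ 4 * Real.exp (-(c * n)) < 1 := by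
  have h := Real.tendsto_pow_mul_exp_neg_atTop_nhds_zero 4
  have hc4 : 0 < c ^ 4 / 5 := by positivity
  have h2 := (h.eventually (gt_mem_nhds hc4))
  rw [Filter.eventually_atTop] at h2
  obtain ⟨M, hM⟩ := h2
  obtain ⟨N, hN⟩ := exists_nat_ge (M / c)
  refine ⟨N, fun n hn => ?_⟩
  have h3 : M ≤ c * n := by
    have : M / c ≤ n := hN.trans (by exact_mod_cast hn)
    rw [div_le_iff₀ hc] at this
    linarith
  have h4 := hM (c * n) h3
  rw [mul_pow] at h4
  have h5 : c ^ 4 * ((n : ℝ) ^ 4 * Real.exp (-(c * n))) < c ^ 4 * (1 / 5) := by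
    calc _ = c ^ 4 * (n : ℝ) ^ 4 * Real.exp (-(c * n)) := by ring
      _ < c ^ 4 / 5 := h4
      _ = _ := by ring
  have h6 := lt_of_mul_lt_mul_left h5 (by positivity)
  linarith


/-- For every ε,δ>0 and all large n, any two n-vertex graphs with equal edge counts above εn² can have their edge sets split into at most δn parts each, the i-th parts being isomorphic via a vertex permutation. -/
theorem result :
    ∀ ε : ℝ, 0 < ε → ∀ δ : ℝ, 0 < δ → ∃ N : ℕ, ∀ n : ℕ, N ≤ n →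
      ∀ G G' : SimpleGraph (Fin n),
        G.edgeSet.ncard = G'.edgeSet.ncard →
        ε * (n : ℝ) ^ 2 < (G.edgeSet.ncard : ℝ) →
        ∃ r : ℕ, (r : ℝ) ≤ δ * (n : ℝ) ∧
          ∃ c c' : Sym2 (Fin n) → Fin r,
            ∀ i : Fin r, ∃ σ : Equiv.Perm (Fin n),
              Sym2.map σ '' {e | e ∈ G.edgeSet ∧ c e = i} =
                {e | e ∈ G'.edgeSet ∧ c' e = i} := by
  classical
  intro ε hε δ₀ hδ₀
  set δ : ℝ := min δ₀ 1 with hδdef
  have hδ : 0 < δ := lt_min hδ₀ one_pos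
  have hδ1 : δ ≤ 1 := min_le_right _ _
  have hδδ : δ ≤ δ₀ := min_le_left _ _
  set η : ℝ := 1 / 100000 with hη
  have hηpos : 0 < η := by rw [hη]; norm_num
  set c1 : ℝ := δ * ε * η ^ 2 / 12 with hc1
  set c2 : ℝ := 4 * ε ^ 2 * δ ^ 3 / (216 * 256) with hc2
  have hc1pos : 0 < c1 := by positivity
  have hc2pos : 0 < c2 := by positivity
  set c : ℝ := min c1 c2 with hc
  have hcpos : 0 < c := lt_min hc1pos hc2pos
  obtain ⟨N1, hN1⟩ := eventually_small c hcpos
  obtain ⟨N2, hN2⟩ := exists_nat_ge (6 / δ)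
  refine ⟨max (max N1 N2) 2, fun n hn G G' hGG' hG => ?_⟩
  have hnN1 : N1 ≤ n := le_trans (le_trans (le_max_left _ _) (le_max_left _ _)) hn
  have hnN2 : N2 ≤ n := le_trans (le_trans (le_max_right _ _) (le_max_left _ _)) hn
  have hn2 : 2 ≤ n := le_trans (le_max_right _ _) hn
  have hn2' : (2 : ℝ) ≤ n := by exact_mod_cast hn2
  have hδn : 6 ≤ δ * n := by
    have : 6 / δ ≤ n := hN2.trans (by exact_mod_cast hnN2)
    rw [div_le_iff₀ hδ] at this
    linarith
  -- the number of group elements per stage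
  set t : ℕ := ⌊δ * n / 3⌋₊ with ht
  have htub : (t : ℝ) ≤ δ * n / 3 := Nat.floor_le (by positivity)
  have htlb : δ * n / 6 ≤ t := by
    have := Nat.lt_floor_add_one (δ * n / 3)
    rw [← ht] at this
    linarith
  have htpos : 0 < t := by
    have : (0 : ℝ) < t := by linarith
    exact_mod_cast this
  have htpos' : (0 : ℝ) < t := by exact_mod_cast htpos
  -- the ground set
  let Ω := {e : Sym2 (Fin n) // ¬ e.IsDiag}
  have hωcard : (Fintype.card Ω : ℝ) = n * (n - 1) / 2 := by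
    have : Fintype.card Ω = n.choose 2 := by
      rw [Sym2.card_subtype_not_diag, Fintype.card_fin]
    rw [this, Nat.cast_choose_two]
  have hωpos : (0 : ℝ) < Fintype.card Ω := by rw [hωcard]; nlinarith
  have hωub : (Fintype.card Ω : ℝ) ≤ n ^ 2 / 2 := by rw [hωcard]; nlinarith
  let E : Finset Ω := univ.filter (fun e => e.1 ∈ G.edgeSet)
  let E' : Finset Ω := univ.filter (fun e => e.1 ∈ G'.edgeSet)
  have hcardgen : ∀ H : SimpleGraph (Fin n),
      (univ.filter (fun e : Ω => e.1 ∈ H.edgeSet)).card = H.edgeSet.ncard := by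
    intro H
    rw [Set.ncard_eq_toFinset_card', ← Finset.card_map (Function.Embedding.subtype _)]
    congr 1
    ext e
    simp only [mem_map, mem_filter, mem_univ, true_and, Function.Embedding.subtype_apply,
      Set.mem_toFinset]
    constructor
    · rintro ⟨a, ha, rfl⟩
      exact ha
    · intro he
      exact ⟨⟨e, H.not_isDiag_of_mem_edgeSet he⟩, he, rfl⟩
  have hE : E.card = G.edgeSet.ncard := hcardgen G
  have hE' : E'.card = G'.edgeSet.ncard := hcardgen G'
  set p : ℝ := (E.card : ℝ) / Fintype.card Ω with hp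
  have hEp : (E.card : ℝ) = p * Fintype.card Ω := by rw [hp]; field_simp
  have hEp' : (E'.card : ℝ) = p * Fintype.card Ω := by rw [← hEp, hE, hE', hGG']
  have hElb : ε * (n : ℝ) ^ 2 < E.card := by rw [hE]; exact hG
  have hplb : 2 * ε ≤ p := by
    rw [hp, le_div_iff₀ hωpos]
    calc 2 * ε * (Fintype.card Ω : ℝ) ≤ 2 * ε * (n ^ 2 / 2) := by
          apply mul_le_mul_of_nonneg_left hωub (by positivity)
      _ = ε * n ^ 2 := by ring
      _ ≤ _ := hElb.le
  have hp0 : 0 < p := by linarith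
  have hp1 : p ≤ 1 := by
    rw [hp, div_le_one hωpos]
    exact_mod_cast card_le_univ E
  have htω : (t : ℝ) ^ 2 ≤ Fintype.card Ω := by
    rw [hωcard]
    have : (t : ℝ) ≤ n / 3 := by nlinarith
    nlinarith
  have hn0 : (0 : ℝ) < n := by linarith
  have hprob : 8 * (Fintype.card Ω : ℝ) * Real.exp (-(t * p * η ^ 2 / 4))
      + (Fintype.card Ω : ℝ) ^ 2 * Real.exp (-(p ^ 2 * t ^ 3 / (512 * Fintype.card Ω))) < 1 := by
    have hcn := hN1 n hnN1
    have a1 : c * n ≤ t * p * η ^ 2 / 4 := by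
      calc c * n ≤ c1 * n := mul_le_mul_of_nonneg_right (min_le_left _ _) hn0.le
        _ = (δ * n / 6) * (2 * ε) * η ^ 2 / 4 := by rw [hc1]; ring
        _ ≤ t * p * η ^ 2 / 4 := by gcongr
    have a2 : c * n ≤ p ^ 2 * t ^ 3 / (512 * Fintype.card Ω) := by
      calc c * n ≤ c2 * n := mul_le_mul_of_nonneg_right (min_le_right _ _) hn0.le
        _ = (2 * ε) ^ 2 * (δ * n / 6) ^ 3 / (512 * (n ^ 2 / 2)) := by
            rw [hc2, eq_div_iff (by positivity)]; ring
        _ ≤ _ := by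
            have q1 : (2 * ε) ^ 2 ≤ p ^ 2 := pow_le_pow_left₀ (by positivity) hplb 2
            have q2 : (δ * n / 6) ^ 3 ≤ (t : ℝ) ^ 3 := pow_le_pow_left₀ (by positivity) htlb 3
            have q3 : 0 ≤ (δ * n / 6) ^ 3 := by positivity
            have q4 : 0 ≤ p ^ 2 := sq_nonneg p
            have q5 : 0 ≤ (t : ℝ) ^ 3 := pow_nonneg htpos'.le 3
            exact div_le_div₀ (mul_nonneg q4 q5) (mul_le_mul q1 q2 q3 q4)
              (mul_pos (by norm_num) hωpos) (by linarith)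
    have b1 : Real.exp (-(t * p * η ^ 2 / 4)) ≤ Real.exp (-(c * n)) :=
      Real.exp_le_exp.2 (by linarith)
    have b2 : Real.exp (-(p ^ 2 * t ^ 3 / (512 * Fintype.card Ω))) ≤ Real.exp (-(c * n)) :=
      Real.exp_le_exp.2 (by linarith)
    have hepos : 0 < Real.exp (-(c * n)) := Real.exp_pos _
    calc _ ≤ 8 * ((n : ℝ) ^ 2 / 2) * Real.exp (-(c * n))
          + ((n : ℝ) ^ 2 / 2) ^ 2 * Real.exp (-(c * n)) := by gcongr
      _ = (4 * (n : ℝ) ^ 2 + (n : ℝ) ^ 4 / 4) * Real.exp (-(c * n)) := by ring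
      _ ≤ (5 * (n : ℝ) ^ 4) * Real.exp (-(c * n)) := by
          apply mul_le_mul_of_nonneg_right _ hepos.le
          have : (n : ℝ) ^ 2 * 1 ≤ (n : ℝ) ^ 2 * (n : ℝ) ^ 2 := by
            apply mul_le_mul_of_nonneg_left _ (by positivity)
            nlinarith
          nlinarith
      _ < 1 := hcn
  obtain ⟨g, f, hgf⟩ := Pool.Agent.Helper67.exists_matching (actPairs n) (actPairs_trans n) E E' p η t
    hp0 hp1 htpos hωpos htω hEp hEp' hη hprob
  choose l hl using hgf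
  refine ⟨3 * t, ?_, ?_⟩
  · push_cast
    have : δ * n ≤ δ₀ * n := mul_le_mul_of_nonneg_right hδδ hn0.le
    linarith
  have h3t : 0 < 3 * t := by omega
  have memE : ∀ e, e ∈ G.edgeSet → ∃ h : ¬ e.IsDiag, (⟨e, h⟩ : Ω) ∈ E := by
    intro e he
    exact ⟨G.not_isDiag_of_mem_edgeSet he, by simp [E, he]⟩
  have memE' : ∀ e, e ∈ G'.edgeSet → ∃ h : ¬ e.IsDiag, (⟨e, h⟩ : Ω) ∈ E' := by
    intro e he
    exact ⟨G'.not_isDiag_of_mem_edgeSet he, by simp [E', he]⟩
  let c₀ : Sym2 (Fin n) → Fin (3 * t) := fun e =>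
    if h : ∃ h : ¬ e.IsDiag, (⟨e, h⟩ : Ω) ∈ E then
      finProdFinEquiv (l ⟨⟨e, h.choose⟩, h.choose_spec⟩) else ⟨0, h3t⟩
  let c₀' : Sym2 (Fin n) → Fin (3 * t) := fun e =>
    if h : ∃ h : ¬ e.IsDiag, (⟨e, h⟩ : Ω) ∈ E' then
      finProdFinEquiv (l (f.symm ⟨⟨e, h.choose⟩, h.choose_spec⟩)) else ⟨0, h3t⟩
  have hc₀ : ∀ x : {x // x ∈ E}, c₀ x.1.1 = finProdFinEquiv (l x) := by
    intro x
    have h : ∃ h : ¬ x.1.1.IsDiag, (⟨x.1.1, h⟩ : Ω) ∈ E := ⟨x.1.2, x.2⟩
    simp only [c₀]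
    rw [dif_pos h]
  have hc₀' : ∀ x : {x // x ∈ E'}, c₀' x.1.1 = finProdFinEquiv (l (f.symm x)) := by
    intro x
    have h : ∃ h : ¬ x.1.1.IsDiag, (⟨x.1.1, h⟩ : Ω) ∈ E' := ⟨x.1.2, x.2⟩
    simp only [c₀']
    rw [dif_pos h]
  refine ⟨c₀, c₀', fun i => ⟨g (finProdFinEquiv.symm i), ?_⟩⟩
  ext e'
  constructor
  · rintro ⟨e, ⟨he, hce⟩, rfl⟩
    obtain ⟨hd, hmem⟩ := memE e he
    have h1 := hc₀ ⟨⟨e, hd⟩, hmem⟩
    simp only at h1
    rw [hce] at h1
    have h2 := hl ⟨⟨e, hd⟩, hmem⟩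
    have h3 : l ⟨⟨e, hd⟩, hmem⟩ = finProdFinEquiv.symm i := by rw [h1]; simp
    rw [h3] at h2
    have h4 : Sym2.map (g (finProdFinEquiv.symm i)) e = (f ⟨⟨e, hd⟩, hmem⟩).1.1 := by
      rw [← h2]; rfl
    have h5 := (f ⟨⟨e, hd⟩, hmem⟩).2
    refine ⟨?_, ?_⟩
    · rw [h4]
      have := (mem_filter.1 h5).2
      exact this
    · rw [h4, hc₀', Equiv.symm_apply_apply, h3, Equiv.apply_symm_apply]
  · rintro ⟨he', hce'⟩
    obtain ⟨hd, hmem⟩ := memE' e' he'
    have h1 := hc₀' ⟨⟨e', hd⟩, hmem⟩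
    simp only at h1
    rw [hce'] at h1
    set x := f.symm ⟨⟨e', hd⟩, hmem⟩ with hx
    have h2 := hl x
    have h3 : l x = finProdFinEquiv.symm i := by rw [h1]; simp
    rw [h3] at h2
    have h4 : Sym2.map (g (finProdFinEquiv.symm i)) x.1.1 = e' := by
      have h5 : (f x).1.1 = e' := by rw [hx, Equiv.apply_symm_apply]
      rw [← h5, ← h2]; rfl
    refine ⟨x.1.1, ⟨(mem_filter.1 x.2).2, ?_⟩, h4⟩
    rw [hc₀, h3, Equiv.apply_symm_apply]

end Pool.Agent.S07453
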