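import Pool.Statements.S09782
-- import your own Pool.Agent.* helpers here

set_option autoImplicit false
open Pool Pool.MP_817a43_co

namespace Pool.Agent.S09782

lemma f01 : (0 : Fin 3) ≠ 1 := by decide
lemma f21 : (2 : Fin 3) ≠ 1 := by decide
lemma f02 : (0 : Fin 3) ≠ 2 := by decide

noncomputable section Aux

open Classical

/-- A finite graph with a root. -/
structure RG where
  V : Type
  fin : Fintype V
  G : SimpleGraph V
  r : V

attribute [instance] RG.fin

/-- Entry of the signed adjacency matrix. -/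
def en (A : RG) (s : A.V → A.V → ℝ) (i j : A.V) : ℝ := if A.G.Adj i j then s i j else 0

/-- The quadratic form of the signed adjacency matrix. -/
def form (A : RG) (s : A.V → A.V → ℝ) (x : A.V → ℝ) : ℝ :=
  ∑ i, ∑ j, en A s i j * x i * x j

/-- The squared norm. -/
def nsq (A : RG) (x : A.V → ℝ) : ℝ := ∑ i, x i ^ 2

/-- Symmetric signings. -/
def IsSg {V : Type} (s : V → V → ℝ) : Prop :=
  (∀ i j, s i j = s j i) ∧ ∀ i j, s i j = 1 ∨ s i j = -1

/-- The spectral edge of the cubic tree. -/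
def L : ℝ := 2 * Real.sqrt 2

/-- Response at the root. -/
def Resp (A : RG) (s : A.V → A.V → ℝ) (g : ℝ) : Prop :=
  ∃ x : A.V → ℝ, g ≤ 2 * x A.r + form A s x - L * nsq A x

/-- Capacity at the root. -/
def Cap (A : RG) (s : A.V → A.V → ℝ) (k : ℝ) : Prop :=
  ∃ x : A.V → ℝ, x A.r = 1 ∧ -k ≤ form A s x - L * nsq A x

lemma form_smul (A : RG) (s : A.V → A.V → ℝ) (x : A.V → ℝ) (t : ℝ) :
    form A s (fun i => t * x i) = t ^ 2 * form A s x := by
  unfold form
  rw [Finset.mul_sum]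
  refine Finset.sum_congr rfl fun i _ => ?_
  rw [Finset.mul_sum]
  refine Finset.sum_congr rfl fun j _ => ?_
  ring

lemma nsq_smul (A : RG) (x : A.V → ℝ) (t : ℝ) :
    nsq A (fun i => t * x i) = t ^ 2 * nsq A x := by
  unfold nsq
  rw [Finset.mul_sum]
  refine Finset.sum_congr rfl fun i _ => ?_
  ring

lemma Cap.resp {A : RG} {s : A.V → A.V → ℝ} {k : ℝ} (h : Cap A s k) (t : ℝ) :
    Resp A s (2 * t - k * t ^ 2) := by
  obtain ⟨x, hx, hk⟩ := h
  refine ⟨fun i => t * x i, ?_⟩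
  rw [form_smul, nsq_smul]
  show 2 * t - k * t ^ 2 ≤ 2 * (t * x A.r) + t ^ 2 * form A s x - L * (t ^ 2 * nsq A x)
  rw [hx]
  nlinarith [mul_le_mul_of_nonneg_left hk (sq_nonneg t)]

lemma Resp.mono {A : RG} {s : A.V → A.V → ℝ} {g g' : ℝ} (h : Resp A s g) (hg : g' ≤ g) :
    Resp A s g' := by
  obtain ⟨x, hx⟩ := h
  exact ⟨x, hg.trans hx⟩

/-- Attach the rooted graph `B` to the vertex `a` of `A`. -/
def att (A B : RG) (a : A.V) : RG where
  V := A.V ⊕ B.V
  fin := inferInstance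
  G :=
    { Adj := fun p q =>
        match p, q with
        | Sum.inl i, Sum.inl j => A.G.Adj i j
        | Sum.inr i, Sum.inr j => B.G.Adj i j
        | Sum.inl i, Sum.inr j => i = a ∧ j = B.r
        | Sum.inr i, Sum.inl j => j = a ∧ i = B.r
      symm := ⟨by
        rintro (i | i) (j | j) h
        · exact A.G.adj_symm h
        · exact h
        · exact h
        · exact B.G.adj_symm h⟩
      loopless := ⟨by
        rintro (i | i) h
        · exact A.G.loopless.irrefl i h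
        · exact B.G.loopless.irrefl i h⟩ }
  r := Sum.inl A.r

/-- Degree of a vertex. -/
def dg (A : RG) (i : A.V) : ℕ := ∑ j, if A.G.Adj i j then 1 else 0

lemma adj_lr (A B : RG) (a i : A.V) (j : B.V) :
    (att A B a).G.Adj (Sum.inl i) (Sum.inr j) ↔ (i = a ∧ j = B.r) := Iff.rfl

lemma adj_rl (A B : RG) (a j : A.V) (i : B.V) :
    (att A B a).G.Adj (Sum.inr i) (Sum.inl j) ↔ (j = a ∧ i = B.r) := Iff.rfl

lemma dg_att_inl (A B : RG) (a i : A.V) :
    dg (att A B a) (Sum.inl i) = dg A i + if i = a then 1 else 0 := by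
  unfold dg
  show (∑ j : A.V ⊕ B.V, if (att A B a).G.Adj (Sum.inl i) j then 1 else 0) = _
  rw [Fintype.sum_sum_type]
  congr 1
  simp only [adj_lr]
  by_cases h : i = a <;> simp [h]

lemma dg_att_inr (A B : RG) (a : A.V) (i : B.V) :
    dg (att A B a) (Sum.inr i) = dg B i + if i = B.r then 1 else 0 := by
  unfold dg
  show (∑ j : A.V ⊕ B.V, if (att A B a).G.Adj (Sum.inr i) j then 1 else 0) = _
  rw [Fintype.sum_sum_type, add_comm]
  congr 1
  simp only [adj_rl]
  by_cases h : i = B.r <;> simp [h]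

/-- restriction of a signing to the left part -/
def rl {A B : RG} {a : A.V} (s : (att A B a).V → (att A B a).V → ℝ) : A.V → A.V → ℝ :=
  fun i j => s (Sum.inl i) (Sum.inl j)

/-- restriction of a signing to the right part -/
def rr {A B : RG} {a : A.V} (s : (att A B a).V → (att A B a).V → ℝ) : B.V → B.V → ℝ :=
  fun i j => s (Sum.inr i) (Sum.inr j)

lemma IsSg.rl {A B : RG} {a : A.V} {s : (att A B a).V → (att A B a).V → ℝ} (h : IsSg s) :
    IsSg (rl s) := ⟨fun _ _ => h.1 _ _, fun _ _ => h.2 _ _⟩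

lemma IsSg.rr {A B : RG} {a : A.V} {s : (att A B a).V → (att A B a).V → ℝ} (h : IsSg s) :
    IsSg (rr s) := ⟨fun _ _ => h.1 _ _, fun _ _ => h.2 _ _⟩

lemma en_lr (A B : RG) (a i : A.V) (j : B.V) (s : (att A B a).V → (att A B a).V → ℝ) :
    en (att A B a) s (Sum.inl i) (Sum.inr j) =
      if i = a then (if j = B.r then s (Sum.inl i) (Sum.inr j) else 0) else 0 := by
  unfold en
  by_cases h : i = a <;> by_cases h' : j = B.r <;> simp [adj_lr, h, h']

lemma en_rl (A B : RG) (a j : A.V) (i : B.V) (s : (att A B a).V → (att A B a).V → ℝ) :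
    en (att A B a) s (Sum.inr i) (Sum.inl j) =
      if i = B.r then (if j = a then s (Sum.inr i) (Sum.inl j) else 0) else 0 := by
  unfold en
  by_cases h : i = B.r <;> by_cases h' : j = a <;> simp [adj_rl, h, h']

lemma form_att (A B : RG) (a : A.V) (s : (att A B a).V → (att A B a).V → ℝ)
    (hs : ∀ i j, s i j = s j i) (x : A.V → ℝ) (y : B.V → ℝ) :
    form (att A B a) s (Sum.elim x y : A.V ⊕ B.V → ℝ) =
      form A (rl s) x + form B (rr s) y
        + 2 * (s (Sum.inl a) (Sum.inr B.r) * x a * y B.r) := by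
  have h1 : form (att A B a) s (Sum.elim x y : A.V ⊕ B.V → ℝ) =
      (∑ i : A.V, ((∑ j : A.V, en A (rl s) i j * x i * x j) +
        ∑ j : B.V, en (att A B a) s (Sum.inl i) (Sum.inr j) * x i * y j)) +
      ∑ i : B.V, ((∑ j : A.V, en (att A B a) s (Sum.inr i) (Sum.inl j)
        * y i * x j) + ∑ j : B.V, en B (rr s) i j * y i * y j) := by
    unfold form
    show (∑ i : A.V ⊕ B.V, ∑ j : A.V ⊕ B.V, _) = _
    rw [Fintype.sum_sum_type]
    congr 1
    · refine Finset.sum_congr rfl fun i _ => ?_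
      rw [Fintype.sum_sum_type]
      rfl
    · refine Finset.sum_congr rfl fun i _ => ?_
      rw [Fintype.sum_sum_type]
      rfl
  rw [h1, Finset.sum_add_distrib, Finset.sum_add_distrib]
  simp only [en_lr, en_rl]
  have h2 : (∑ i : A.V, ∑ j : B.V,
      (if i = a then (if j = B.r then s (Sum.inl i) (Sum.inr j) else 0) else 0) * x i * y j) =
      s (Sum.inl a) (Sum.inr B.r) * x a * y B.r := by
    rw [Finset.sum_eq_single a]
    · rw [Finset.sum_eq_single B.r]
      · simp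
      · intro j _ hj
        simp [hj]
      · simp
    · intro i _ hi
      simp [hi]
    · simp
  have h3 : (∑ i : B.V, ∑ j : A.V,
      (if i = B.r then (if j = a then s (Sum.inr i) (Sum.inl j) else 0) else 0) * y i * x j) =
      s (Sum.inl a) (Sum.inr B.r) * x a * y B.r := by
    rw [Finset.sum_eq_single B.r]
    · rw [Finset.sum_eq_single a]
      · rw [hs (Sum.inl a) (Sum.inr B.r)]
        simp
        ring
      · intro j _ hj
        simp [hj]
      · simp
    · intro i _ hi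
      simp [hi]
    · simp
  rw [h2, h3]
  unfold form
  ring

lemma nsq_att (A B : RG) (a : A.V) (x : A.V → ℝ) (y : B.V → ℝ) :
    nsq (att A B a) (Sum.elim x y : A.V ⊕ B.V → ℝ) = nsq A x + nsq B y := by
  unfold nsq
  show (∑ i : A.V ⊕ B.V, (Sum.elim x y i) ^ 2) = _
  rw [Fintype.sum_sum_type]
  rfl

/-- Attaching a branch with response `g` adds `g * (x a)^2`. -/
lemma att_resp (A B : RG) (a : A.V) (s : (att A B a).V → (att A B a).V → ℝ) (hs : IsSg s)
    (g : ℝ) (hg : Resp B (rr s) g) (x : A.V → ℝ) :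
    ∃ y : B.V → ℝ, form A (rl s) x - L * nsq A x + g * x a ^ 2 ≤
      form (att A B a) s (Sum.elim x y : A.V ⊕ B.V → ℝ)
        - L * nsq (att A B a) (Sum.elim x y : A.V ⊕ B.V → ℝ) := by
  obtain ⟨z, hz⟩ := hg
  set e := s (Sum.inl a) (Sum.inr B.r) with he
  have he2 : e * e = 1 := by
    rcases hs.2 (Sum.inl a) (Sum.inr B.r) with h | h <;> rw [he, h] <;> norm_num
  refine ⟨fun i => (e * x a) * z i, ?_⟩
  rw [form_att A B a s hs.1, nsq_att, form_smul, nsq_smul, ← he]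
  have h4 : (e * x a) ^ 2 = x a ^ 2 := by
    calc (e * x a) ^ 2 = (e * e) * x a ^ 2 := by ring
      _ = _ := by rw [he2, one_mul]
  have h5 : e * x a * (e * x a * z B.r) = x a ^ 2 * z B.r := by
    calc e * x a * (e * x a * z B.r) = (e * e) * (x a ^ 2 * z B.r) := by ring
      _ = _ := by rw [he2, one_mul]
  rw [h4, h5]
  nlinarith [mul_le_mul_of_nonneg_left hz (sq_nonneg (x a))]

/-- the one point graph -/
def pt : RG where
  V := Unit
  fin := inferInstance
  G := ⊥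
  r := ()

/-- the node: a root with two branches. -/
def node (B C : RG) : RG := att (att pt B pt.r) C (Sum.inl pt.r)

lemma form_pt (s : pt.V → pt.V → ℝ) (x : pt.V → ℝ) : form pt s x = 0 := by
  unfold form en pt
  simp

lemma nsq_pt (x : pt.V → ℝ) : nsq pt x = x () ^ 2 := by
  unfold nsq
  show (∑ i : Unit, x i ^ 2) = _
  simp

lemma node_cap (B C : RG) (s : (node B C).V → (node B C).V → ℝ) (hs : IsSg s) (g h : ℝ)
    (hB : Resp B (rr (rl s)) g) (hC : Resp C (rr s) h) :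
    Cap (node B C) s (L - g - h) := by
  obtain ⟨y, hy⟩ := att_resp pt B pt.r (rl s) hs.rl g hB (fun _ => 1)
  obtain ⟨z, hz⟩ := att_resp (att pt B pt.r) C (Sum.inl pt.r) s hs h hC
    (Sum.elim (fun _ => 1) y : pt.V ⊕ B.V → ℝ)
  refine ⟨(Sum.elim (Sum.elim (fun _ => 1) y : pt.V ⊕ B.V → ℝ) z :
    (pt.V ⊕ B.V) ⊕ C.V → ℝ), rfl, ?_⟩
  refine le_trans ?_ hz
  refine le_trans ?_ (add_le_add_left hy _)
  rw [form_pt, nsq_pt]
  show -(L - g - h) ≤ (0 - L * 1 ^ 2 + g * 1 ^ 2) + h * 1 ^ 2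
  linarith

/-- All degrees are at most three, and the root has degree at most two. -/
def Dok (A : RG) : Prop := dg A A.r ≤ 2 ∧ ∀ i, dg A i ≤ 3

lemma att_inl_self (A B : RG) (a : A.V) : dg (att A B a) (Sum.inl a) = dg A a + 1 := by
  rw [dg_att_inl, if_pos rfl]

lemma att_inl_ne (A B : RG) (a i : A.V) (h : i ≠ a) : dg (att A B a) (Sum.inl i) = dg A i := by
  rw [dg_att_inl, if_neg h, Nat.add_zero]

lemma att_inl_le (A B : RG) (a i : A.V) : dg (att A B a) (Sum.inl i) ≤ dg A i + 1 := by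
  rw [dg_att_inl]
  split_ifs <;> omega

lemma att_inr_le (A B : RG) (a : A.V) (hB : Dok B) (i : B.V) :
    dg (att A B a) (Sum.inr i) ≤ 3 := by
  rw [dg_att_inr]
  by_cases h : i = B.r
  · rw [if_pos h, h]
    have := hB.1
    omega
  · rw [if_neg h]
    exact hB.2 i

lemma dg_pt (i : pt.V) : dg pt i = 0 := by
  have h : ∀ j, ¬ pt.G.Adj i j := fun j => id
  unfold dg
  simp [h]

lemma dok_pt : Dok pt := by
  refine ⟨?_, fun i => ?_⟩ <;> rw [dg_pt] <;> omega

lemma node_dok (B C : RG) (hB : Dok B) (hC : Dok C) : Dok (node B C) := by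
  refine ⟨?_, ?_⟩
  · have h1 : dg (node B C) (node B C).r = _ := att_inl_self (att pt B pt.r) C (Sum.inl pt.r)
    have h2 : dg (att pt B pt.r) (Sum.inl pt.r) = _ := att_inl_self pt B pt.r
    rw [h1, h2, dg_pt]
  · rintro ((i | i) | i)
    · have h1 : dg (node B C) (Sum.inl (Sum.inl i)) ≤ _ :=
        att_inl_le (att pt B pt.r) C (Sum.inl pt.r) (Sum.inl i)
      have h2 : dg (att pt B pt.r) (Sum.inl i) ≤ _ := att_inl_le pt B pt.r i
      rw [dg_pt] at h2
      omega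
    · have h3 : (Sum.inr i : pt.V ⊕ B.V) ≠ Sum.inl pt.r := by simp
      have h1 : dg (node B C) (Sum.inl (Sum.inr i)) = _ :=
        att_inl_ne (att pt B pt.r) C (Sum.inl pt.r) (Sum.inr i) h3
      rw [h1]
      exact att_inr_le pt B pt.r hB i
    · exact att_inr_le (att pt B pt.r) C (Sum.inl pt.r) hC i

/-- one-sided response for all signings -/
def One (A : RG) (g : ℝ) : Prop := ∀ s, IsSg s → Resp A s g

/-- two-sided response for all signings -/
def Two (A : RG) (q : ℝ) : Prop :=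
  ∀ s, IsSg s → ∃ g g', 2 * q ≤ g + g' ∧ Resp A s g ∧ Resp A (-s) g'

lemma IsSg.neg {V : Type} {s : V → V → ℝ} (h : IsSg s) : IsSg (-s) := by
  refine ⟨fun i j => ?_, fun i j => ?_⟩
  · show -(s i j) = -(s j i)
    rw [h.1]
  · show -(s i j) = 1 ∨ -(s i j) = -1
    rcases h.2 i j with h | h <;> rw [h] <;> simp

lemma Lsq : L * L = 8 := by
  unfold L
  nlinarith [Real.mul_self_sqrt (show (0:ℝ) ≤ 2 by norm_num)]

lemma Lpos : 0 < L := by
  unfold L
  have := Real.sqrt_pos.mpr (show (0:ℝ) < 2 by norm_num)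
  linarith

/-- pure binary trees: response `L/4 * (k+1)/(k+2)`. -/
lemma pure_tree (k : ℕ) : ∃ A : RG, Dok A ∧ One A (L / 4 * ((k + 1) / (k + 2))) := by
  induction k with
  | zero =>
    refine ⟨pt, dok_pt, fun s hs => ?_⟩
    have hc : Cap pt s L := ⟨fun _ => 1, rfl, by rw [form_pt, nsq_pt]; linarith⟩
    refine (hc.resp (L / 8)).mono (le_of_eq ?_)
    push_cast
    linear_combination (L / 64) * Lsq
  | succ k ih =>
    obtain ⟨A, hA, h1⟩ := ih
    refine ⟨node A A, node_dok A A hA hA, fun s hs => ?_⟩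
    have hc := node_cap A A s hs _ _ (h1 _ hs.rl.rr) (h1 _ hs.rr)
    refine (hc.resp (L / 4 * ((k + 2) / (k + 3)))).mono (le_of_eq ?_)
    push_cast
    have h2 : (k : ℝ) + 2 ≠ 0 := by positivity
    have h3 : (k : ℝ) + 3 ≠ 0 := by positivity
    have h4 : (2 - ((k : ℝ) + 1) / (k + 2)) * ((k + 2) / (k + 3)) = 1 := by
      field_simp
      ring
    have h5 : ((k : ℝ) + 1 + 1) / (k + 1 + 2) = (k + 2) / (k + 3) := by
      congr 1 <;> ring
    rw [h5]
    generalize ((k : ℝ) + 1) / (k + 2) = v at h4 ⊢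
    generalize ((k : ℝ) + 2) / (k + 3) = u at h4 ⊢
    linear_combination (L ^ 3 / 32 * u) * h4 + (L / 32 * u) * Lsq

/-- the triangle -/
def tri3 : RG where
  V := Fin 3
  fin := inferInstance
  G := ⊤
  r := (0 : Fin 3)

/-- the triangle with the branch `T` at two of its vertices -/
def tri (T : RG) : RG := att (att tri3 T (1 : Fin 3)) T (Sum.inl (2 : Fin 3))

lemma tri3_adj (i j : Fin 3) : tri3.G.Adj i j ↔ i ≠ j := Iff.rfl

lemma dg_tri3 (i : Fin 3) : dg tri3 i = 2 := by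
  unfold dg
  show (∑ j : Fin 3, if tri3.G.Adj i j then 1 else 0) = 2
  simp only [tri3_adj]
  rw [Fin.sum_univ_three]
  fin_cases i <;> simp

lemma tri_dok (T : RG) (hT : Dok T) : Dok (tri T) := by
  refine ⟨?_, ?_⟩
  · have h3 : (Sum.inl (0 : Fin 3) : Fin 3 ⊕ T.V) ≠ Sum.inl (2 : Fin 3) := by simp
    have h1 : dg (tri T) (Sum.inl (Sum.inl (0 : Fin 3))) = _ :=
      att_inl_ne (att tri3 T (1 : Fin 3)) T (Sum.inl (2 : Fin 3)) (Sum.inl (0 : Fin 3)) h3
    have h2 : dg (att tri3 T (1 : Fin 3)) (Sum.inl (0 : Fin 3)) = _ :=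
      att_inl_ne tri3 T (1 : Fin 3) (0 : Fin 3) f01
    show dg (tri T) (Sum.inl (Sum.inl (0 : Fin 3))) ≤ 2
    rw [h1, h2]
    exact le_of_eq (dg_tri3 0)
  · rintro ((i | i) | i)
    · by_cases h3 : (i : Fin 3) = (2 : Fin 3)
      · have h1 : dg (tri T) (Sum.inl (Sum.inl i)) ≤ _ :=
          att_inl_le (att tri3 T (1 : Fin 3)) T (Sum.inl (2 : Fin 3)) (Sum.inl i)
        have h2 : dg (att tri3 T (1 : Fin 3)) (Sum.inl i) = _ :=
          att_inl_ne tri3 T (1 : Fin 3) i (by rw [h3]; exact f21)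
        have h5 : dg tri3 i = 2 := dg_tri3 i
        rw [h2, h5] at h1
        exact h1
      · have h4 : (Sum.inl i : Fin 3 ⊕ T.V) ≠ Sum.inl (2 : Fin 3) := by
          intro h
          exact h3 (Sum.inl.inj h)
        have h1 : dg (tri T) (Sum.inl (Sum.inl i)) = _ :=
          att_inl_ne (att tri3 T (1 : Fin 3)) T (Sum.inl (2 : Fin 3)) (Sum.inl i) h4
        have h2 : dg (att tri3 T (1 : Fin 3)) (Sum.inl i) ≤ _ :=
          att_inl_le tri3 T (1 : Fin 3) i
        have h5 : dg tri3 i = 2 := dg_tri3 i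
        rw [h5] at h2
        rw [h1]
        exact h2
    · have h3 : (Sum.inr i : Fin 3 ⊕ T.V) ≠ Sum.inl (2 : Fin 3) := by simp
      have h1 : dg (tri T) (Sum.inl (Sum.inr i)) = _ :=
        att_inl_ne (att tri3 T (1 : Fin 3)) T (Sum.inl (2 : Fin 3)) (Sum.inr i) h3
      rw [h1]
      exact att_inr_le tri3 T (1 : Fin 3) hT i
    · exact att_inr_le (att tri3 T (1 : Fin 3)) T (Sum.inl (2 : Fin 3)) hT i

/-- the sign of the triangle -/
def eps {T : RG} (s : (tri T).V → (tri T).V → ℝ) : ℝ :=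
  s (Sum.inl (Sum.inl (0 : Fin 3))) (Sum.inl (Sum.inl (1 : Fin 3))) *
  s (Sum.inl (Sum.inl (0 : Fin 3))) (Sum.inl (Sum.inl (2 : Fin 3))) *
  s (Sum.inl (Sum.inl (1 : Fin 3))) (Sum.inl (Sum.inl (2 : Fin 3)))

lemma form_tri3 (s : Fin 3 → Fin 3 → ℝ) (hs : ∀ i j, s i j = s j i) (x : Fin 3 → ℝ) :
    form tri3 s x = 2 * (s 0 1 * x 0 * x 1 + s 0 2 * x 0 * x 2 + s 1 2 * x 1 * x 2) := by
  unfold form en
  show (∑ i : Fin 3, ∑ j : Fin 3,
    (if tri3.G.Adj i j then s i j else 0) * x i * x j) = _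
  simp only [tri3_adj, Fin.sum_univ_three]
  rw [hs 1 0, hs 2 0, hs 2 1]
  simp
  ring

lemma nsq_tri3 (x : Fin 3 → ℝ) : nsq tri3 x = x 0 ^ 2 + x 1 ^ 2 + x 2 ^ 2 := by
  unfold nsq
  show (∑ i : Fin 3, x i ^ 2) = _
  rw [Fin.sum_univ_three]

lemma tri_cap (T : RG) (g : ℝ) (hT : One T g) (s : (tri T).V → (tri T).V → ℝ) (hs : IsSg s)
    (y : ℝ) : Cap (tri T) s (L - 4 * y - 2 * eps s * y ^ 2 + 2 * (L - g) * y ^ 2) := by
  set a := s (Sum.inl (Sum.inl (0 : Fin 3))) (Sum.inl (Sum.inl (1 : Fin 3))) with ha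
  set b := s (Sum.inl (Sum.inl (0 : Fin 3))) (Sum.inl (Sum.inl (2 : Fin 3))) with hb
  set c := s (Sum.inl (Sum.inl (1 : Fin 3))) (Sum.inl (Sum.inl (2 : Fin 3))) with hc
  have ha2 : a * a = 1 := by
    rcases hs.2 (Sum.inl (Sum.inl (0 : Fin 3))) (Sum.inl (Sum.inl (1 : Fin 3))) with h | h <;>
      rw [ha, h] <;> norm_num
  have hb2 : b * b = 1 := by
    rcases hs.2 (Sum.inl (Sum.inl (0 : Fin 3))) (Sum.inl (Sum.inl (2 : Fin 3))) with h | h <;>
      rw [hb, h] <;> norm_num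
  have he : eps s = a * b * c := rfl
  set x0 : Fin 3 → ℝ := ![1, a * y, b * y] with hx0
  obtain ⟨z, hz⟩ := att_resp tri3 T (1 : Fin 3) (rl s) hs.rl g (hT _ hs.rl.rr) x0
  obtain ⟨w, hw⟩ := att_resp (att tri3 T (1 : Fin 3)) T (Sum.inl (2 : Fin 3)) s hs g
    (hT _ hs.rr) (Sum.elim x0 z : Fin 3 ⊕ T.V → ℝ)
  refine ⟨(Sum.elim (Sum.elim x0 z : Fin 3 ⊕ T.V → ℝ) w : (Fin 3 ⊕ T.V) ⊕ T.V → ℝ),
    rfl, ?_⟩
  refine le_trans ?_ hw
  refine le_trans ?_ (add_le_add_left hz _)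
  rw [form_tri3 (rl (rl s)) hs.rl.rl.1 x0, nsq_tri3]
  show _ ≤ 2 * (a * x0 0 * x0 1 + b * x0 0 * x0 2 + c * x0 1 * x0 2)
    - L * (x0 0 ^ 2 + x0 1 ^ 2 + x0 2 ^ 2) + g * x0 1 ^ 2 + g * x0 2 ^ 2
  have e0 : x0 0 = 1 := rfl
  have e1 : x0 1 = a * y := rfl
  have e2 : x0 2 = b * y := rfl
  rw [e0, e1, e2, he]
  apply le_of_eq
  linear_combination (-2 * y + L * y ^ 2 - g * y ^ 2) * ha2 +
    (-2 * y + L * y ^ 2 - g * y ^ 2) * hb2

lemma Lbounds : 2.828 < L ∧ L < 2.829 := by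
  have h1 := Lsq
  have h2 := Lpos
  constructor
  · by_contra h
    push Not at h
    nlinarith
  · by_contra h
    push Not at h
    nlinarith

lemma eps_sq {T : RG} (s : (tri T).V → (tri T).V → ℝ) (hs : IsSg s) :
    eps s = 1 ∨ eps s = -1 := by
  unfold eps
  rcases hs.2 (Sum.inl (Sum.inl (0 : Fin 3))) (Sum.inl (Sum.inl (1 : Fin 3))) with h1 | h1 <;>
  rcases hs.2 (Sum.inl (Sum.inl (0 : Fin 3))) (Sum.inl (Sum.inl (2 : Fin 3))) with h2 | h2 <;>
  rcases hs.2 (Sum.inl (Sum.inl (1 : Fin 3))) (Sum.inl (Sum.inl (2 : Fin 3))) with h3 | h3 <;>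
  rw [h1, h2, h3] <;> norm_num

/-- the response of the gadget `node T (tri T)` -/
lemma gad_resp (T : RG) (g : ℝ) (hT : One T g)
    (s : (node T (tri T)).V → (node T (tri T)).V → ℝ) (hs : IsSg s) (y x t : ℝ) :
    Resp (node T (tri T)) s (2 * t - (L - g - (2 * x -
      (L - 4 * y - 2 * eps (rr s) * y ^ 2 + 2 * (L - g) * y ^ 2) * x ^ 2)) * t ^ 2) :=
  (node_cap T (tri T) s hs _ _ (hT _ hs.rl.rr) ((tri_cap T g hT (rr s) hs.rr y).resp x)).resp t

lemma eps_neg {T : RG} (s : (tri T).V → (tri T).V → ℝ) : eps (-s) = - eps s := by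
  have key : ∀ a b c : ℝ, (-a) * (-b) * (-c) = -(a * b * c) := fun a b c => by ring
  exact key _ _ _

/-- the gadget: two-sided response above `L/4`. -/
lemma gadget : ∃ A : RG, Dok A ∧ Two A (L / 4 * (1 + 1 / ((40 : ℕ) + 1 / 2))) := by
  obtain ⟨T, hT, hg⟩ := pure_tree 998
  have e1 : (((998 : ℕ) : ℝ) + 1) / (((998 : ℕ) : ℝ) + 2) = 999 / 1000 := by norm_num
  rw [e1] at hg
  refine ⟨node T (tri T), node_dok _ _ hT (tri_dok T hT), fun s hs => ?_⟩
  obtain ⟨hL1, hL2⟩ := Lbounds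
  rcases eps_sq (rr s) hs.rr with h | h
  · have r1 := gad_resp T _ hg s hs (89 / 100) (956 / 1000) (858 / 1000)
    have r2 := gad_resp T _ hg (-s) hs.neg (32 / 100) (457 / 1000) (6 / 10)
    have h' : eps (rr (-s)) = -1 := by
      have : rr (-s) = -(rr s) := rfl
      rw [this, eps_neg, h]
    rw [h] at r1
    rw [h'] at r2
    refine ⟨_, _, ?_, r1, r2⟩
    push_cast
    nlinarith
  · have r1 := gad_resp T _ hg s hs (32 / 100) (457 / 1000) (6 / 10)
    have r2 := gad_resp T _ hg (-s) hs.neg (89 / 100) (956 / 1000) (858 / 1000)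
    have h' : eps (rr (-s)) = 1 := by
      have : rr (-s) = -(rr s) := rfl
      rw [this, eps_neg, h, neg_neg]
    rw [h] at r1
    rw [h'] at r2
    refine ⟨_, _, ?_, r1, r2⟩
    push_cast
    nlinarith

/-- one more level -/
lemma level (n : ℕ) (h : ∃ A : RG, Dok A ∧ Two A (L / 4 * (1 + 1 / ((n + 1 : ℕ) + 1 / 2)))) :
    ∃ A : RG, Dok A ∧ Two A (L / 4 * (1 + 1 / ((n : ℕ) + 1 / 2))) := by
  obtain ⟨A, hA, h2⟩ := h
  refine ⟨node A A, node_dok _ _ hA hA, fun s hs => ?_⟩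
  obtain ⟨g1, g1', e1, r1, r1'⟩ := h2 _ hs.rl.rr
  obtain ⟨g2, g2', e2, r2, r2'⟩ := h2 _ hs.rr
  have c1 := node_cap A A s hs g1 g2 r1 r2
  have c2 := node_cap A A (-s) hs.neg g1' g2' r1' r2'
  set t : ℝ := L / 4 * (1 + 1 / ((n : ℕ) + 1 / 2)) with ht
  refine ⟨_, _, ?_, c1.resp t, c2.resp t⟩
  have h3 : 2 * (2 * (L / 4 * (1 + 1 / ((n + 1 : ℕ) + 1 / 2)))) ≤ g1 + g1' + (g2 + g2') := by
    linarith
  have h4 := mul_le_mul_of_nonneg_right h3 (sq_nonneg t)
  have h5 : (2 * L - 2 * (2 * (L / 4 * (1 + 1 / ((n + 1 : ℕ) + 1 / 2))))) * t ^ 2 = 2 * t := by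
    push_cast
    have hn : (n : ℝ) + 1 + 1 / 2 ≠ 0 := by positivity
    have hn' : (n : ℝ) + 1 / 2 ≠ 0 := by positivity
    have h6 : (1 - 1 / ((n : ℝ) + 1 + 1 / 2)) * (1 + 1 / (n + 1 / 2)) = 1 := by
      field_simp
      ring
    rw [ht]
    generalize (1 / ((n : ℝ) + 1 + 1 / 2)) = v at h6 ⊢
    generalize (1 / ((n : ℝ) + 1 / 2)) = u at h6 ⊢
    linear_combination (L ^ 3 / 16 * (1 + u)) * h6 + (L / 16 * (1 + u)) * Lsq
  nlinarith

lemma chain (n : ℕ) (h : ∃ A : RG, Dok A ∧ Two A (L / 4 * (1 + 1 / ((n : ℕ) + 1 / 2)))) :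
    ∃ A : RG, Dok A ∧ Two A (L / 4 * (1 + 1 / ((0 : ℕ) + 1 / 2))) := by
  induction n with
  | zero => exact h
  | succ n ih => exact ih (level n h)

/-- Every signing has a Rayleigh quotient beyond `L` in absolute value. -/
def Bad (A : RG) : Prop :=
  ∀ s, IsSg s → ∃ x, L * nsq A x < form A s x ∨ L * nsq A x < - form A s x

lemma form_neg (A : RG) (s : A.V → A.V → ℝ) (x : A.V → ℝ) : form A (-s) x = - form A s x := by
  unfold form en
  rw [← Finset.sum_neg_distrib]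
  refine Finset.sum_congr rfl fun i _ => ?_
  rw [← Finset.sum_neg_distrib]
  refine Finset.sum_congr rfl fun j _ => ?_
  simp only [Pi.neg_apply]
  split_ifs <;> ring

lemma exists_bad : ∃ A : RG, Bad A ∧ ∀ i, dg A i ≤ 3 := by
  obtain ⟨A, hA, h2⟩ := chain 40 gadget
  refine ⟨node A A, fun s hs => ?_, (node_dok A A hA hA).2⟩
  obtain ⟨g1, g1', e1, r1, r1'⟩ := h2 _ hs.rl.rr
  obtain ⟨g2, g2', e2, r2, r2'⟩ := h2 _ hs.rr
  obtain ⟨x, -, hx⟩ := node_cap A A s hs g1 g2 r1 r2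
  obtain ⟨y, -, hy⟩ := node_cap A A (-s) hs.neg g1' g2' r1' r2'
  have e3 : L / 4 * (1 + 1 / (((0 : ℕ) : ℝ) + 1 / 2)) = 3 * L / 4 := by
    push_cast
    ring
  rw [e3] at e1 e2
  have hL := Lpos
  rw [form_neg] at hy
  by_cases h : L < g1 + g2
  · exact ⟨x, Or.inl (by linarith)⟩
  · exact ⟨y, Or.inr (by linarith)⟩

/-- two copies, joined at the deficient vertices -/
def dbl (A : RG) : RG where
  V := A.V ⊕ A.V
  fin := inferInstance
  G :=
    { Adj := fun p q =>
        match p, q with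
        | Sum.inl i, Sum.inl j => A.G.Adj i j
        | Sum.inr i, Sum.inr j => A.G.Adj i j
        | Sum.inl i, Sum.inr j => i = j ∧ dg A i < 3
        | Sum.inr i, Sum.inl j => j = i ∧ dg A i < 3
      symm := ⟨by
        rintro (i | i) (j | j) h
        · exact A.G.adj_symm h
        · exact ⟨h.1, h.1 ▸ h.2⟩
        · exact ⟨h.1, h.1 ▸ h.2⟩
        · exact A.G.adj_symm h⟩
      loopless := ⟨by
        rintro (i | i) h
        · exact A.G.loopless.irrefl i h
        · exact A.G.loopless.irrefl i h⟩ }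
  r := Sum.inl A.r

lemma dbl_lr (A : RG) (i j : A.V) :
    (dbl A).G.Adj (Sum.inl i) (Sum.inr j) ↔ (i = j ∧ dg A i < 3) := Iff.rfl

lemma dbl_rl (A : RG) (i j : A.V) :
    (dbl A).G.Adj (Sum.inr i) (Sum.inl j) ↔ (j = i ∧ dg A i < 3) := Iff.rfl

lemma dbl_inl (A : RG) (i : A.V) :
    dg (dbl A) (Sum.inl i) = dg A i + if dg A i < 3 then 1 else 0 := by
  conv_lhs => unfold dg
  show (∑ j : A.V ⊕ A.V, if (dbl A).G.Adj (Sum.inl i) j then 1 else 0) = _
  rw [Fintype.sum_sum_type]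
  congr 1
  simp only [dbl_lr]
  by_cases h : dg A i < 3 <;> simp [h]

lemma dbl_inr (A : RG) (i : A.V) :
    dg (dbl A) (Sum.inr i) = dg A i + if dg A i < 3 then 1 else 0 := by
  conv_lhs => unfold dg
  show (∑ j : A.V ⊕ A.V, if (dbl A).G.Adj (Sum.inr i) j then 1 else 0) = _
  rw [Fintype.sum_sum_type, add_comm]
  congr 1
  simp only [dbl_rl]
  by_cases h : dg A i < 3 <;> simp [h]

lemma dbl_bad (A : RG) (h : Bad A) : Bad (dbl A) := by
  intro s hs
  obtain ⟨x, hx⟩ := h (fun i j => s (Sum.inl i) (Sum.inl j))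
    ⟨fun _ _ => hs.1 _ _, fun _ _ => hs.2 _ _⟩
  refine ⟨(Sum.elim x (fun _ => 0) : A.V ⊕ A.V → ℝ), ?_⟩
  have h1 : form (dbl A) s (Sum.elim x (fun _ => 0) : A.V ⊕ A.V → ℝ) =
      form A (fun i j => s (Sum.inl i) (Sum.inl j)) x := by
    have h2 : form (dbl A) s (Sum.elim x (fun _ => 0) : A.V ⊕ A.V → ℝ) =
      (∑ i : A.V, ((∑ j : A.V, en A (fun i j => s (Sum.inl i) (Sum.inl j)) i j * x i * x j) +
        ∑ j : A.V, en (dbl A) s (Sum.inl i) (Sum.inr j) * x i * 0)) +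
      ∑ i : A.V, ((∑ j : A.V, en (dbl A) s (Sum.inr i) (Sum.inl j)
        * 0 * x j) + ∑ j : A.V, en (dbl A) s (Sum.inr i) (Sum.inr j) * 0 * 0) := by
      unfold form
      show (∑ i : A.V ⊕ A.V, ∑ j : A.V ⊕ A.V, _) = _
      rw [Fintype.sum_sum_type]
      congr 1
      · refine Finset.sum_congr rfl fun i _ => ?_
        rw [Fintype.sum_sum_type]
        rfl
      · refine Finset.sum_congr rfl fun i _ => ?_
        rw [Fintype.sum_sum_type]
        rfl
    rw [h2]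
    simp only [mul_zero, zero_mul, Finset.sum_const_zero, add_zero]
    rfl
  have h3 : nsq (dbl A) (Sum.elim x (fun _ => 0) : A.V ⊕ A.V → ℝ) = nsq A x := by
    unfold nsq
    show (∑ i : A.V ⊕ A.V, (Sum.elim x (fun _ => 0) i : ℝ) ^ 2) = _
    rw [Fintype.sum_sum_type]
    simp
  rw [h1, h3]
  exact hx

lemma dbl_deg (A : RG) (k : ℕ) (h : ∀ i, dg A i ≤ 3 ∧ k ≤ dg A i) (hk : k ≤ 3) :
    ∀ i, dg (dbl A) i ≤ 3 ∧ min (k + 1) 3 ≤ dg (dbl A) i := by
  rintro (i | i)
  · have := h i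
    rw [dbl_inl]
    split_ifs <;> omega
  · have := h i
    rw [dbl_inr]
    split_ifs <;> omega

lemma exists_bad_regular : ∃ A : RG, Bad A ∧ ∀ i, dg A i = 3 := by
  obtain ⟨A, hA, hd⟩ := exists_bad
  have h0 : ∀ i, dg A i ≤ 3 ∧ 0 ≤ dg A i := fun i => ⟨hd i, Nat.zero_le _⟩
  have h1 := dbl_deg A 0 h0 (by norm_num)
  have h2 := dbl_deg (dbl A) 1 h1 (by norm_num)
  have h3 := dbl_deg (dbl (dbl A)) 2 h2 (by norm_num)
  refine ⟨dbl (dbl (dbl A)), dbl_bad _ (dbl_bad _ (dbl_bad _ hA)), fun i => ?_⟩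
  have := h3 i
  omega

/-- If all eigenvalues of a real symmetric matrix are at most `c` in absolute value, then so are its
Rayleigh quotients. -/
lemma rayleigh {V : Type} [Fintype V] [DecidableEq V] (M : Matrix V V ℝ) (hM : M.IsHermitian)
    (c : ℝ) (h : ∀ μ ∈ spectrum ℝ M, |μ| ≤ c) (x : V → ℝ) :
    (∑ i, ∑ j, M i j * x i * x j) ≤ c * ∑ i, x i ^ 2 := by
  have hB : (algebraMap ℝ (Matrix V V ℝ) c - M).IsHermitian := by
    refine Matrix.IsHermitian.sub ?_ hM
    rw [Matrix.algebraMap_eq_diagonal]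
    exact Matrix.isHermitian_diagonal _
  have hP : (algebraMap ℝ (Matrix V V ℝ) c - M).PosSemidef := by
    rw [hB.posSemidef_iff_eigenvalues_nonneg]
    intro i
    have h1 := hB.eigenvalues_mem_spectrum_real i
    rw [← spectrum.singleton_sub_eq] at h1
    obtain ⟨c', hc', μ, hμ, h2⟩ := Set.mem_sub.mp h1
    have h4 := h _ hμ
    have h5 := abs_le.mp h4
    rw [Set.mem_singleton_iff] at hc'
    show (0 : ℝ) ≤ hB.eigenvalues i
    linarith [h5.2]
  have h6 := hP.dotProduct_mulVec_nonneg x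
  have h7 : star x ⬝ᵥ ((algebraMap ℝ (Matrix V V ℝ) c - M).mulVec x) =
      c * (∑ i, x i ^ 2) - ∑ i, ∑ j, M i j * x i * x j := by
    rw [Matrix.sub_mulVec, dotProduct_sub]
    congr 1
    · rw [Matrix.algebraMap_eq_diagonal]
      simp only [dotProduct, Matrix.mulVec_diagonal]
      rw [Finset.mul_sum]
      refine Finset.sum_congr rfl fun i _ => ?_
      simp
      ring
    · simp only [dotProduct, Matrix.mulVec]
      refine Finset.sum_congr rfl fun i _ => ?_
      rw [Finset.mul_sum]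
      refine Finset.sum_congr rfl fun j _ => ?_
      simp
      ring
  rw [h7] at h6
  linarith

end Aux

/-- The negation of the preceding statement: For every d ≥ 2 and every finite simple d-regular graph, some symmetric ±1 signing of its adjacency matrix has every eigenvalue of absolute value at most 2√(d−1). -/
theorem result :
    ¬ (∀ (d : ℕ), 2 ≤ d →
      ∀ (V : Type) [Fintype V] [DecidableEq V] (G : SimpleGraph V) [DecidableRel G.Adj],
        G.IsRegularOfDegree d →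
          ∃ s : V → V → ℝ,
            (∀ i j, s i j = s j i) ∧
            (∀ i j, s i j = 1 ∨ s i j = -1) ∧
            ∀ μ ∈ spectrum ℝ
                (Matrix.of (fun i j => if G.Adj i j then s i j else 0) : Matrix V V ℝ),
              |μ| ≤ 2 * Real.sqrt ((d : ℝ) - 1)) := by
  intro H
  obtain ⟨A, hA, hd⟩ := exists_bad_regular
  classical
  obtain ⟨s, hs1, hs2, hs3⟩ := H 3 (by norm_num) A.V A.G (by
    intro v
    rw [← SimpleGraph.card_neighborFinset_eq_degree, SimpleGraph.neighborFinset_eq_filter,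
      Finset.card_filter, ← hd v]
    unfold dg
    refine Finset.sum_congr rfl fun j _ => ?_
    congr)
  have hL : 2 * Real.sqrt (((3 : ℕ) : ℝ) - 1) = L := by
    unfold L
    norm_num
  rw [hL] at hs3
  obtain ⟨x, hx⟩ := hA s ⟨hs1, hs2⟩
  set M : Matrix A.V A.V ℝ := Matrix.of (fun i j => if A.G.Adj i j then s i j else 0) with hM
  have hMh : M.IsHermitian := by
    ext i j
    show star (if A.G.Adj j i then s j i else 0) = (if A.G.Adj i j then s i j else 0)
    rw [star_trivial, hs1 j i]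
    simp only [A.G.adj_comm j i]
  have hform : (∑ i, ∑ j, M i j * x i * x j) = form A s x := by
    unfold form en
    refine Finset.sum_congr rfl fun i _ => Finset.sum_congr rfl fun j _ => ?_
    show (if A.G.Adj i j then s i j else 0) * x i * x j = _
    congr
  rcases hx with hx | hx
  · have h1 := rayleigh M hMh L hs3 x
    rw [hform] at h1
    unfold nsq at hx
    linarith
  · have h1 := rayleigh (-M) hMh.neg L (by
      intro μ hμ
      rw [← spectrum.neg_eq] at hμ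
      have := hs3 _ (Set.mem_neg.mp hμ)
      rwa [abs_neg] at this) x
    have h2 : (∑ i, ∑ j, (-M) i j * x i * x j) = - form A s x := by
      rw [← hform, ← Finset.sum_neg_distrib]
      refine Finset.sum_congr rfl fun i _ => ?_
      rw [← Finset.sum_neg_distrib]
      refine Finset.sum_congr rfl fun j _ => ?_
      simp only [Matrix.neg_apply]
      ring
    rw [h2] at h1
    unfold nsq at hx
    linarith

end Pool.Agent.S09782
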