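import Pool.Statements.S09898
import Pool.Agent.PFRNeg.M1
import Pool.Agent.PFRNeg.M1b
import Pool.Agent.PFRNeg.M2a
import Pool.Agent.PFRNeg.M2b
import Pool.Agent.PFRNeg.M2c
import Pool.Agent.PFRNeg.M2
import Pool.Agent.PFRNeg.M3a
import Pool.Agent.PFRNeg.M3b
import Pool.Agent.PFRNeg.M4
import Pool.Agent.PFRNeg.M5a
import Pool.Agent.PFRNeg.M5b
import Pool.Agent.PFRNeg.M5
import Pool.Agent.PFRNeg.M6
import Pool.Agent.RevMink.Final

set_option autoImplicit false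
open scoped Pointwise
open Pool Pool.MP_86f7a7_co

namespace Pool.Agent.S09898
/-- The negation of the preceding statement: There are absolute constants C,c>0 such that any finite nonempty A in a torsion-free abelian group with ∣A+A∣ ≤ K∣A∣ meets, in at least C⁻¹K^(-c)∣A∣ points, a progression of rank at most C·K^c and size at most C·K^c·∣A∣. -/
theorem result :
    ¬ (∃ C : ℝ, 0 < C ∧ ∃ c : ℝ, 0 < c ∧
  ∀ (G : Type) [AddCommGroup G],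
    (∀ (n : ℕ) (x : G), n ≠ 0 → n • x = 0 → x = 0) →
    ∀ (A : Set G) (K : ℝ), A.Finite → A.Nonempty →
      ((A + A).ncard : ℝ) ≤ K * (A.ncard : ℝ) →
      ∃ (d : ℕ) (a : G) (v : Fin d → G) (N : Fin d → ℕ) (P : Set G),
        P = {x : G | ∃ k : Fin d → ℕ, (∀ i, k i < N i) ∧ x = a + ∑ i, k i • v i} ∧
        (d : ℝ) ≤ C * K ^ c ∧
        (P.ncard : ℝ) ≤ C * K ^ c * (A.ncard : ℝ) ∧
        C⁻¹ * K ^ (-c) * (A.ncard : ℝ) ≤ ((A ∩ P).ncard : ℝ)) := by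
  have h2 : Pool.Agent.PFRNeg.Stmt_M2 :=
    Pool.Agent.PFRNeg.m2 Pool.Agent.PFRNeg.m1 Pool.Agent.PFRNeg.m2a
      (Pool.Agent.PFRNeg.m2c Pool.Agent.PFRNeg.m1b (Pool.Agent.PFRNeg.m2b Pool.Agent.PFRNeg.m2a))
  have h5 : Pool.Agent.PFRNeg.Stmt_M5 :=
    Pool.Agent.PFRNeg.m5 Pool.Agent.PFRNeg.m5a Pool.Agent.PFRNeg.m5b Pool.Agent.PFRNeg.m3b
      Pool.Agent.RevMink.rm
  exact Pool.Agent.PFRNeg.m6 h2 Pool.Agent.PFRNeg.m3a Pool.Agent.PFRNeg.m3b Pool.Agent.PFRNeg.m4 h5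

end Pool.Agent.S09898
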