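import Pool.Statements.S09914

set_option autoImplicit false
open Pool Pool.MP_879572_co

namespace Pool.Agent.S09914

/-- The set witnessing the failure: the subgroup of order `10` of `ℤ_410` together with six elements of
the coset `1 + H`. -/
def wit : Finset (ZMod 410) :=
  {0, 41, 82, 123, 164, 205, 246, 287, 328, 369, 1, 42, 83, 165, 206, 247}

theorem wit_card : wit.card = 16 := by decide +kernel

theorem wit_sum : ((wit.powersetCard 3).image (fun B : Finset (ZMod 410) => ∑ x ∈ B, x)).card = 39 := by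
  decide +kernel

theorem div_aux : ∀ d ∈ Nat.divisors 410, 40 ≤ (3 * ((16 + d - 1) / d) - 2) * d := by
  decide +kernel

/-- The negation of the preceding statement: For 4 ≤ m ≤ n, the least size of the set of sums of 3 distinct elements of an m-element subset of ℤ_n is min(u(n,m,3), c), where c is 3m−3−gcd(n,m−1), 3m−10, 3m−9 or 3m−8 according to the stated case conditions. -/
theorem result :
    ¬ (∀ n m : ℕ, 4 ≤ m → m ≤ n →
      IsLeast
        {k : ℕ | ∃ A : Finset (ZMod n), A.card = m ∧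
            ((A.powersetCard 3).image (fun B : Finset (ZMod n) => ∑ x ∈ B, x)).card = k}
        (min (sInf ((fun d : ℕ => (3 * ((m + d - 1) / d) - 2) * d) '' {d : ℕ | d ∣ n}))
          (if 8 ≤ Nat.gcd n (m - 1) then 3 * m - 3 - Nat.gcd n (m - 1)
           else if Nat.gcd n (m - 1) = 7
                  ∨ (Nat.gcd n (m - 1) ≤ 5 ∧ 3 ∣ n ∧ 3 ∣ m)
                  ∨ (Nat.gcd n (m - 1) ≤ 5 ∧ (3 * m - 9) ∣ n ∧ 5 ∣ (m - 3))
             then 3 * m - 10
           else if Nat.gcd n (m - 1) = 6 ∨ (m = 6 ∧ 10 ∣ n ∧ ¬ 3 ∣ n)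
             then 3 * m - 9
           else 3 * m - 8))) := by
  intro h
  have h1 := (h 410 16 (by norm_num) (by norm_num)).2
  have h2 := h1 ⟨wit, wit_card, wit_sum⟩
  have h3 : (if 8 ≤ Nat.gcd 410 (16 - 1) then 3 * 16 - 3 - Nat.gcd 410 (16 - 1)
           else if Nat.gcd 410 (16 - 1) = 7
                  ∨ (Nat.gcd 410 (16 - 1) ≤ 5 ∧ 3 ∣ 410 ∧ 3 ∣ 16)
                  ∨ (Nat.gcd 410 (16 - 1) ≤ 5 ∧ (3 * 16 - 9) ∣ 410 ∧ 5 ∣ (16 - 3))
             then 3 * 16 - 10
           else if Nat.gcd 410 (16 - 1) = 6 ∨ (16 = 6 ∧ 10 ∣ 410 ∧ ¬ 3 ∣ 410)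
             then 3 * 16 - 9
           else 3 * 16 - 8) = 40 := by decide +kernel
  rw [h3] at h2
  have h4 : sInf ((fun d : ℕ => (3 * ((16 + d - 1) / d) - 2) * d) '' {d : ℕ | d ∣ 410}) ≤ 39 := by
    rcases min_le_iff.mp h2 with h5 | h5
    · exact h5
    · omega
  have hne : ((fun d : ℕ => (3 * ((16 + d - 1) / d) - 2) * d) '' {d : ℕ | d ∣ 410}).Nonempty :=
    ⟨_, 1, one_dvd _, rfl⟩
  obtain ⟨d, hd, hd2⟩ := Nat.sInf_mem hne
  have h6 := div_aux d (Nat.mem_divisors.mpr ⟨hd, by norm_num⟩)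
  have h7 : (3 * ((16 + d - 1) / d) - 2) * d ≤ 39 := by
    have := hd2
    simp only at this
    rw [this]
    exact h4
  omega

end Pool.Agent.S09914
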