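import Pool.Statements.S10423
import Pool.Agent.Helper89.L

set_option autoImplicit false
open Pool Pool.MP_9e12c1_co

namespace Pool.Agent.S10423

/-- For every coloring of the natural numbers with finitely many colors, there exist positive integers a and b such that a, b and a(b+1) all receive the same color. -/
theorem result :
    ∀ (r : ℕ) (c : ℕ → Fin r),
      ∃ a b : ℕ, 0 < a ∧ 0 < b ∧ c a = c b ∧ c a = c (a * (b + 1)) := by
  intro r c
  exact Pool.Agent.Helper89.main r c

end Pool.Agent.S10423
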