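import Pool.Statements.S10970
import Pool.Agent.MCN.Fin

set_option autoImplicit false
open Pool Pool.MP_b67d73_co

namespace Pool.Agent.S10970

/-- The negation of the preceding statement: For every finite Coxeter group, Coxeter element c and k ≥ 1, the subword complex of c^k w₀(c) for the longest element w₀ equals the proper-face complex of some point configuration, so it is the boundary complex of a simplicial polytope. -/
theorem result :
    ¬ (∀ (n : ℕ) (hn : 0 < n) (M : CoxeterMatrix (Fin n)) (W : Type) [Group W]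
    (cs : CoxeterSystem M W), Finite W →
  ∀ (σ : Equiv.Perm (Fin n)) (a : ℕ → Fin n),
    (∀ i : ℕ, a i = σ ⟨i % n, Nat.mod_lt i hn⟩) →
  ∀ (k : ℕ), 1 ≤ k →
  ∀ w₀ : W, (∀ u : W, cs.length u ≤ cs.length w₀) →
  ∀ S : Finset ℕ,
    (S ⊆ Finset.range (n * cs.length w₀) ∧ S.card = cs.length w₀ ∧
      cs.wordProd (((List.range (n * (k + cs.length w₀))).filter
        (fun i => decide (i ∈ S))).map a) = w₀ ∧
      ∀ S' : Finset ℕ, S' ⊆ Finset.range (n * cs.length w₀) → S'.card = cs.length w₀ →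
        cs.wordProd (((List.range (n * (k + cs.length w₀))).filter
          (fun i => decide (i ∈ S'))).map a) = w₀ → S' ≠ S →
        ∃ m, m ∈ S ∧ m ∉ S' ∧ ∀ m' : ℕ, m' < m → (m' ∈ S ↔ m' ∈ S')) →
  ∀ T : Finset ℕ, T = Finset.range (k * n) ∪ S.image (fun s => s + k * n) →
  ∃ (d : ℕ) (v : ℕ → Fin d → ℝ), ∀ F : Finset ℕ,
    ((F ⊆ T ∧ ∃ R : Finset ℕ, R ⊆ T ∧ Disjoint R F ∧ R.card = cs.length w₀ ∧
        cs.wordProd (((List.range (n * (k + cs.length w₀))).filter
          (fun i => decide (i ∈ R))).map a) = w₀) ↔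
     (F ⊆ T ∧ F ≠ T ∧ ∃ (y : Fin d → ℝ) (b : ℝ),
        (∀ i ∈ T, ∑ j, y j * v i j ≤ b) ∧
        ∀ i ∈ T, (i ∈ F ↔ ∑ j, y j * v i j = b)))) := by
  exact Pool.Agent.MCN.not_Fz

end Pool.Agent.S10970
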