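import Pool.Statements.S11274

set_option autoImplicit false
open scoped Pointwise
open Pool Pool.MP_c36cd3_co

namespace Pool.Agent.S11274

/-- The Euclidean plane. -/
abbrev Pl := EuclideanSpace ℝ (Fin 2)

/-! ### A homeomorphism between a star-shaped body and the disk -/

section Gauge

variable (g : Pl → ℝ)

/-- Radial map onto the disk. -/
noncomputable def phi (x : Pl) : Pl := (g x / ‖x‖) • x

/-- Inverse radial map. -/
noncomputable def psi (y : Pl) : Pl := (‖y‖ / g y) • y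

variable (hc : Continuous g) (hh : ∀ t : ℝ, 0 < t → ∀ x, g (t • x) = t * g x)
  (hp : ∀ x, x ≠ 0 → 0 < g x)

include hh in
theorem g_zero : g 0 = 0 := by
  have h := hh 2 (by norm_num) 0
  simp only [smul_zero] at h
  linarith

include hh hp in
theorem norm_phi (x : Pl) : ‖phi g x‖ = g x := by
  unfold phi
  by_cases hx : x = 0
  · subst hx
    simp [g_zero g hh]
  · have h1 : 0 < ‖x‖ := norm_pos_iff.mpr hx
    have h2 := hp x hx
    rw [norm_smul, Real.norm_eq_abs, abs_of_pos (div_pos h2 h1)]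
    field_simp

include hh hp in
theorem g_psi (y : Pl) : g (psi g y) = ‖y‖ := by
  unfold psi
  by_cases hy : y = 0
  · subst hy
    simp [g_zero g hh]
  · have h1 : 0 < ‖y‖ := norm_pos_iff.mpr hy
    have h2 := hp y hy
    rw [hh _ (div_pos h1 h2)]
    field_simp

include hh hp in
theorem psi_phi (x : Pl) : psi g (phi g x) = x := by
  by_cases hx : x = 0
  · subst hx
    simp [phi, psi]
  · have h1 : 0 < ‖x‖ := norm_pos_iff.mpr hx
    have h2 := hp x hx
    have h3 : g (phi g x) = (g x / ‖x‖) * g x := by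
      unfold phi
      rw [hh _ (div_pos h2 h1)]
    have h4 := norm_phi g hh hp x
    have h5 : psi g (phi g x) = (‖phi g x‖ / g (phi g x)) • phi g x := rfl
    rw [h5, h3, h4]
    unfold phi
    rw [smul_smul]
    have : g x / (g x / ‖x‖ * g x) * (g x / ‖x‖) = 1 := by
      field_simp
    rw [this, one_smul]

include hh hp in
theorem phi_psi (y : Pl) : phi g (psi g y) = y := by
  by_cases hy : y = 0
  · subst hy
    simp [phi, psi]
  · have h1 : 0 < ‖y‖ := norm_pos_iff.mpr hy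
    have h2 := hp y hy
    have h4 := g_psi g hh hp y
    have h5 : phi g (psi g y) = (g (psi g y) / ‖psi g y‖) • psi g y := rfl
    have h3 : ‖psi g y‖ = ‖y‖ / g y * ‖y‖ := by
      unfold psi
      rw [norm_smul, Real.norm_eq_abs, abs_of_pos (div_pos h1 h2)]
    rw [h5, h3, h4]
    unfold psi
    rw [smul_smul]
    have : ‖y‖ / (‖y‖ / g y * ‖y‖) * (‖y‖ / g y) = 1 := by
      field_simp
    rw [this, one_smul]

include hc hh hp in
theorem continuous_phi : Continuous (phi g) := by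
  rw [continuous_iff_continuousAt]
  intro x
  by_cases hx : x = 0
  · subst hx
    have h0 : phi g 0 = 0 := by simp [phi]
    unfold ContinuousAt
    rw [h0]
    apply squeeze_zero_norm (a := fun x => g x)
    · intro t
      exact (norm_phi g hh hp t).le
    · have := hc.tendsto 0
      rw [g_zero g hh] at this
      exact this
  · unfold phi
    have h1 : ‖x‖ ≠ 0 := norm_ne_zero_iff.mpr hx
    exact ((hc.continuousAt.div continuous_norm.continuousAt h1).smul continuousAt_id)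

include hc hh hp in
theorem g_lower : ∃ c : ℝ, 0 < c ∧ ∀ y : Pl, c * ‖y‖ ≤ g y := by
  have hne : (Metric.sphere (0 : Pl) 1).Nonempty :=
    (NormedSpace.sphere_nonempty (x := (0 : Pl)) (r := 1)).mpr (by norm_num)
  obtain ⟨z, hz, hmin⟩ := (isCompact_sphere (0 : Pl) 1).exists_isMinOn hne hc.continuousOn
  have hz0 : z ≠ 0 := by
    intro h
    subst h
    simp at hz
  refine ⟨g z, hp z hz0, ?_⟩
  intro y
  by_cases hy : y = 0
  · subst hy
    simp [g_zero g hh]
  · have h1 : 0 < ‖y‖ := norm_pos_iff.mpr hy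
    have h2 : (‖y‖⁻¹ • y) ∈ Metric.sphere (0 : Pl) 1 := by
      rw [mem_sphere_zero_iff_norm, norm_smul, norm_inv, norm_norm]
      field_simp
    have h3 := hmin h2
    change g z ≤ g (‖y‖⁻¹ • y) at h3
    rw [hh _ (inv_pos.mpr h1)] at h3
    have h4 : g z * ‖y‖ ≤ (‖y‖⁻¹ * g y) * ‖y‖ := mul_le_mul_of_nonneg_right h3 h1.le
    have h5 : (‖y‖⁻¹ * g y) * ‖y‖ = g y := by field_simp
    linarith

include hc hh hp in
theorem continuous_psi : Continuous (psi g) := by
  rw [continuous_iff_continuousAt]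
  intro y
  by_cases hy : y = 0
  · subst hy
    have h0 : psi g 0 = 0 := by simp [psi]
    obtain ⟨c, hc0, hcg⟩ := g_lower g hc hh hp
    unfold ContinuousAt
    rw [h0]
    apply squeeze_zero_norm (a := fun y => ‖y‖ / c)
    · intro t
      by_cases ht : t = 0
      · subst ht
        simp [psi]
      · have h1 : 0 < ‖t‖ := norm_pos_iff.mpr ht
        have h2 := hp t ht
        unfold psi
        rw [norm_smul, Real.norm_eq_abs, abs_of_pos (div_pos h1 h2), div_mul_eq_mul_div,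
          div_le_div_iff₀ h2 hc0]
        have := hcg t
        nlinarith
    · have h : Filter.Tendsto (fun y : Pl => ‖y‖ / c) (nhds 0) (nhds (‖(0 : Pl)‖ / c)) :=
        (continuous_norm.div_const c).tendsto 0
      simpa using h
  · unfold psi
    exact ((continuous_norm.continuousAt.div hc.continuousAt (hp y hy).ne').smul continuousAt_id)

include hc hh hp in
theorem homeo_disk : Nonempty ({x : Pl | g x ≤ 1} ≃ₜ Metric.closedBall (0 : Pl) 1) := by
  have h1 : ∀ x : {x : Pl | g x ≤ 1}, phi g x.1 ∈ Metric.closedBall (0 : Pl) 1 := by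
    intro x
    rw [mem_closedBall_zero_iff, norm_phi g hh hp]
    exact x.2
  have h2 : ∀ y : Metric.closedBall (0 : Pl) 1, psi g y.1 ∈ {x : Pl | g x ≤ 1} := by
    intro y
    have h := y.2
    rw [mem_closedBall_zero_iff] at h
    have h3 := g_psi g hh hp y.1
    have h4 : g (psi g y.1) ≤ 1 := by rw [h3]; exact h
    exact h4
  exact ⟨{
    toFun := fun x => ⟨phi g x.1, h1 x⟩
    invFun := fun y => ⟨psi g y.1, h2 y⟩
    left_inv := fun x => Subtype.ext (psi_phi g hh hp x.1)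
    right_inv := fun y => Subtype.ext (phi_psi g hh hp y.1)
    continuous_toFun := ((continuous_phi g hc hh hp).comp continuous_subtype_val).subtype_mk _
    continuous_invFun := ((continuous_psi g hc hh hp).comp continuous_subtype_val).subtype_mk _ }⟩

end Gauge

/-! ### Triangles with integer vertices around the origin -/

/-- A lattice triangle with vertices `(a,b)`, `(c,d)`, `(e,f)` in counterclockwise order. -/
structure Tri where
  a : ℤ
  b : ℤ
  c : ℤ
  d : ℤ
  e : ℤ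
  f : ℤ

/-- The thirteen triangles. -/
def TL : List Tri :=
  [⟨142, 19, -1, 0, -1, -1⟩, ⟨-139, -16, 1, 0, 0, 1⟩, ⟨-106, 117, 0, -1, 1, 0⟩,
   ⟨84, -123, 0, 1, -1, 1⟩, ⟨23, 142, -1, -1, 0, -1⟩, ⟨-94, -93, 1, 0, 0, 1⟩,
   ⟨37, 145, -1, -1, 0, -1⟩, ⟨-21, -141, 1, 1, 0, 1⟩, ⟨71, 68, -1, 0, 0, -1⟩,
   ⟨-90, 95, 0, -1, 1, 0⟩, ⟨-123, -70, 1, 0, 1, 1⟩, ⟨124, 42, -1, 0, -1, -1⟩,
   ⟨132, -13, 0, 1, -1, 0⟩]

/-- The triangle with index `k`. -/
def tr (k : Fin 13) : Tri := TL.getD k.1 ⟨1, 0, 0, 1, -1, -1⟩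

/-- The nine translation vectors. -/
def VL : List (ℤ × ℤ) :=
  [(281, 35), (-190, 240), (61, -265), (-131, -238), (44, 283), (165, 161), (-232, 76),
   (-247, -112), (238, -130)]

/-- The translation vector with index `i`. -/
def vv (i : Fin 9) : ℤ × ℤ := VL.getD i.1 (0, 0)

/-- Position of the point `(px,py)` relative to the directed line from `(ux,uy)` to `(vx,vy)`. -/
def side (ux uy vx vy px py : ℤ) : ℤ := (vx - ux) * (py - uy) - (vy - uy) * (px - ux)

/-- All vertices of `w + B` lie weakly to the right of the directed line. -/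
def rightOf (ux uy vx vy : ℤ) (B : Tri) (wx wy : ℤ) : Bool :=
  decide (side ux uy vx vy (wx + B.a) (wy + B.b) ≤ 0) &&
  decide (side ux uy vx vy (wx + B.c) (wy + B.d) ≤ 0) &&
  decide (side ux uy vx vy (wx + B.e) (wy + B.f) ≤ 0)

/-- Some edge line of `A` separates `A` from `w + B`. -/
def sepHalf (A B : Tri) (wx wy : ℤ) : Bool :=
  rightOf A.a A.b A.c A.d B wx wy || rightOf A.c A.d A.e A.f B wx wy ||
    rightOf A.e A.f A.a A.b B wx wy

/-- `A` and `w + B` are separated by an edge line of one of them. -/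
def sep (A B : Tri) (w : ℤ × ℤ) : Bool :=
  sepHalf A B w.1 w.2 || sepHalf B A (-w.1) (-w.2)

theorem check_single : ∀ i : Fin 9, ∀ k l : Fin 13, sep (tr k) (tr l) (vv i) = true := by
  decide +kernel

theorem check_pair : ∀ i j : Fin 9, i < j → ∀ k l : Fin 13,
    sep (tr k) (tr l) ((vv j).1 - (vv i).1, (vv j).2 - (vv i).2) = true := by
  decide +kernel

/-! ### The real triangles and their gauges -/

/-- Real version of `side`. -/
def sideR (ux uy vx vy : ℤ) (x y : ℝ) : ℝ :=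
  ((vx : ℝ) - ux) * (y - uy) - ((vy : ℝ) - uy) * (x - ux)

theorem sideR_int (ux uy vx vy px py : ℤ) :
    sideR ux uy vx vy (px : ℝ) (py : ℝ) = (side ux uy vx vy px py : ℝ) := by
  unfold sideR side
  push_cast
  ring

/-- The point `(x,y)` is in the interior of the triangle. -/
def inside (t : Tri) (x y : ℝ) : Prop :=
  0 < sideR t.a t.b t.c t.d x y ∧ 0 < sideR t.c t.d t.e t.f x y ∧ 0 < sideR t.e t.f t.a t.b x y

theorem not_rightOf (ux uy vx vy : ℤ) (B : Tri) (wx wy : ℤ) (x y : ℝ)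
    (h : rightOf ux uy vx vy B wx wy = true) (hB : inside B (x - wx) (y - wy))
    (hA : 0 < sideR ux uy vx vy x y) : False := by
  obtain ⟨h1, h2, h3⟩ := hB
  unfold rightOf at h
  rw [Bool.and_eq_true, Bool.and_eq_true, decide_eq_true_eq, decide_eq_true_eq,
    decide_eq_true_eq] at h
  obtain ⟨⟨e1, e2⟩, e3⟩ := h
  have f1 : sideR ux uy vx vy ((wx + B.a : ℤ) : ℝ) ((wy + B.b : ℤ) : ℝ) ≤ 0 := by
    rw [sideR_int]; exact_mod_cast e1
  have f2 : sideR ux uy vx vy ((wx + B.c : ℤ) : ℝ) ((wy + B.d : ℤ) : ℝ) ≤ 0 := by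
    rw [sideR_int]; exact_mod_cast e2
  have f3 : sideR ux uy vx vy ((wx + B.e : ℤ) : ℝ) ((wy + B.f : ℤ) : ℝ) ≤ 0 := by
    rw [sideR_int]; exact_mod_cast e3
  set s1 := sideR B.a B.b B.c B.d (x - wx) (y - wy) with hs1
  set s2 := sideR B.c B.d B.e B.f (x - wx) (y - wy) with hs2
  set s3 := sideR B.e B.f B.a B.b (x - wx) (y - wy) with hs3
  have key : (s1 + s2 + s3) * sideR ux uy vx vy x y =
      s2 * sideR ux uy vx vy ((wx + B.a : ℤ) : ℝ) ((wy + B.b : ℤ) : ℝ) +
      s3 * sideR ux uy vx vy ((wx + B.c : ℤ) : ℝ) ((wy + B.d : ℤ) : ℝ) +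
      s1 * sideR ux uy vx vy ((wx + B.e : ℤ) : ℝ) ((wy + B.f : ℤ) : ℝ) := by
    rw [hs1, hs2, hs3]
    unfold sideR
    push_cast
    ring
  have p1 : 0 < (s1 + s2 + s3) * sideR ux uy vx vy x y := by positivity
  have p2 := mul_nonneg h2.le (neg_nonneg.mpr f1)
  have p3 := mul_nonneg h3.le (neg_nonneg.mpr f2)
  have p4 := mul_nonneg h1.le (neg_nonneg.mpr f3)
  nlinarith

theorem not_sepHalf (A B : Tri) (wx wy : ℤ) (x y : ℝ) (h : sepHalf A B wx wy = true)
    (hA : inside A x y) (hB : inside B (x - wx) (y - wy)) : False := by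
  unfold sepHalf at h
  rw [Bool.or_eq_true, Bool.or_eq_true] at h
  rcases h with (h | h) | h
  · exact not_rightOf _ _ _ _ B wx wy x y h hB hA.1
  · exact not_rightOf _ _ _ _ B wx wy x y h hB hA.2.1
  · exact not_rightOf _ _ _ _ B wx wy x y h hB hA.2.2

theorem not_sep (A B : Tri) (w : ℤ × ℤ) (x y : ℝ) (h : sep A B w = true)
    (hA : inside A x y) (hB : inside B (x - w.1) (y - w.2)) : False := by
  unfold sep at h
  rw [Bool.or_eq_true] at h
  rcases h with h | h
  · exact not_sepHalf A B w.1 w.2 x y h hA hB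
  · refine not_sepHalf B A (-w.1) (-w.2) (x - w.1) (y - w.2) h hB ?_
    have e1 : x - (w.1 : ℝ) - ((-w.1 : ℤ) : ℝ) = x := by push_cast; ring
    have e2 : y - (w.2 : ℝ) - ((-w.2 : ℤ) : ℝ) = y := by push_cast; ring
    rw [e1, e2]
    exact hA

/-- The determinant of the vectors `(ux,uy)` and `(vx,vy)`. -/
def dt (ux uy vx vy : ℤ) : ℤ := ux * vy - uy * vx

/-- Linear form of the directed edge, equal to one on the edge. -/
noncomputable def lf (ux uy vx vy : ℤ) (x : Pl) : ℝ :=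
  (((vy : ℝ) - uy) * x 0 - ((vx : ℝ) - ux) * x 1) / (dt ux uy vx vy : ℝ)

/-- Gauge of a triangle. -/
noncomputable def gt (t : Tri) (x : Pl) : ℝ :=
  max (lf t.a t.b t.c t.d x) (max (lf t.c t.d t.e t.f x) (lf t.e t.f t.a t.b x))

/-- The gauge of the body: the minimum of the gauges of the thirteen triangles. -/
noncomputable def gb (x : Pl) : ℝ :=
  Finset.univ.inf' (Finset.univ_nonempty (α := Fin 13)) (fun k => gt (tr k) x)

theorem dt_pos : ∀ k : Fin 13, 0 < dt (tr k).a (tr k).b (tr k).c (tr k).d ∧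
    0 < dt (tr k).c (tr k).d (tr k).e (tr k).f ∧ 0 < dt (tr k).e (tr k).f (tr k).a (tr k).b := by
  decide +kernel

theorem continuous_lf (ux uy vx vy : ℤ) : Continuous (lf ux uy vx vy) := by
  unfold lf
  fun_prop

theorem continuous_gb : Continuous gb := by
  unfold gb
  apply Continuous.finset_inf'_apply
  intro k _
  unfold gt
  exact (continuous_lf _ _ _ _).max ((continuous_lf _ _ _ _).max (continuous_lf _ _ _ _))

theorem lf_smul (ux uy vx vy : ℤ) (t : ℝ) (x : Pl) : lf ux uy vx vy (t • x) = t * lf ux uy vx vy x := by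
  unfold lf
  simp only [PiLp.smul_apply, smul_eq_mul]
  ring

theorem gb_le_iff (x : Pl) (c : ℝ) : gb x ≤ c ↔ ∃ k : Fin 13, gt (tr k) x ≤ c := by
  unfold gb
  rw [Finset.inf'_le_iff]
  simp

theorem gt_smul (s : Tri) (t : ℝ) (ht : 0 < t) (x : Pl) : gt s (t • x) = t * gt s x := by
  unfold gt
  rw [lf_smul, lf_smul, lf_smul, mul_max_of_nonneg _ _ ht.le, mul_max_of_nonneg _ _ ht.le]

theorem gb_smul (t : ℝ) (ht : 0 < t) (x : Pl) : gb (t • x) = t * gb x := by
  apply le_antisymm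
  · rw [gb_le_iff]
    obtain ⟨k, hk⟩ := (gb_le_iff x (gb x)).mp le_rfl
    exact ⟨k, by rw [gt_smul _ _ ht]; exact mul_le_mul_of_nonneg_left hk ht.le⟩
  · obtain ⟨k, hk⟩ := (gb_le_iff (t • x) (gb (t • x))).mp le_rfl
    rw [gt_smul _ _ ht] at hk
    refine le_trans ?_ hk
    apply mul_le_mul_of_nonneg_left _ ht.le
    rw [gb_le_iff]
    exact ⟨k, le_rfl⟩

theorem gt_pos (s : Tri) (h1 : 0 < dt s.a s.b s.c s.d) (h2 : 0 < dt s.c s.d s.e s.f)
    (h3 : 0 < dt s.e s.f s.a s.b) (x : Pl) (hx : x ≠ 0) : 0 < gt s x := by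
  by_contra hcon
  push Not at hcon
  unfold gt at hcon
  rw [max_le_iff, max_le_iff] at hcon
  obtain ⟨c1, c2, c3⟩ := hcon
  have r1 : (0 : ℝ) < (dt s.a s.b s.c s.d : ℝ) := by exact_mod_cast h1
  have r2 : (0 : ℝ) < (dt s.c s.d s.e s.f : ℝ) := by exact_mod_cast h2
  have r3 : (0 : ℝ) < (dt s.e s.f s.a s.b : ℝ) := by exact_mod_cast h3
  unfold lf at c1 c2 c3
  rw [div_le_iff₀ r1, zero_mul] at c1
  rw [div_le_iff₀ r2, zero_mul] at c2
  rw [div_le_iff₀ r3, zero_mul] at c3
  have m1 : ((s.d : ℝ) - s.b) * x 0 - ((s.c : ℝ) - s.a) * x 1 = 0 := by linarith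
  have m2 : ((s.f : ℝ) - s.d) * x 0 - ((s.e : ℝ) - s.c) * x 1 = 0 := by linarith
  have hD : (0 : ℝ) < ((s.c : ℝ) - s.a) * ((s.f : ℝ) - s.d) - ((s.d : ℝ) - s.b) * ((s.e : ℝ) - s.c) := by
    have e : ((s.c : ℝ) - s.a) * ((s.f : ℝ) - s.d) - ((s.d : ℝ) - s.b) * ((s.e : ℝ) - s.c) =
        (dt s.a s.b s.c s.d : ℝ) + (dt s.c s.d s.e s.f : ℝ) + (dt s.e s.f s.a s.b : ℝ) := by
      unfold dt
      push_cast
      ring
    rw [e]
    positivity
  have x0 : (((s.c : ℝ) - s.a) * ((s.f : ℝ) - s.d) - ((s.d : ℝ) - s.b) * ((s.e : ℝ) - s.c)) * x 0 = 0 := by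
    linear_combination ((s.c : ℝ) - s.a) * m2 - ((s.e : ℝ) - s.c) * m1
  have x1 : (((s.c : ℝ) - s.a) * ((s.f : ℝ) - s.d) - ((s.d : ℝ) - s.b) * ((s.e : ℝ) - s.c)) * x 1 = 0 := by
    linear_combination ((s.d : ℝ) - s.b) * m2 - ((s.f : ℝ) - s.d) * m1
  have y0 : x 0 = 0 := by
    rcases mul_eq_zero.mp x0 with h | h
    · exact absurd h hD.ne'
    · exact h
  have y1 : x 1 = 0 := by
    rcases mul_eq_zero.mp x1 with h | h
    · exact absurd h hD.ne'
    · exact h
  apply hx
  ext i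
  fin_cases i
  · simpa using y0
  · simpa using y1

theorem gb_pos (x : Pl) (hx : x ≠ 0) : 0 < gb x := by
  unfold gb
  rw [Finset.lt_inf'_iff]
  intro k _
  obtain ⟨h1, h2, h3⟩ := dt_pos k
  exact gt_pos _ h1 h2 h3 x hx

/-- The starlike disk. -/
def body : Set Pl := {x : Pl | gb x ≤ 1}

theorem lf_lt_one (ux uy vx vy : ℤ) (h : 0 < dt ux uy vx vy) (x : Pl) (hx : lf ux uy vx vy x < 1) :
    0 < sideR ux uy vx vy (x 0) (x 1) := by
  have r : (0 : ℝ) < (dt ux uy vx vy : ℝ) := by exact_mod_cast h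
  unfold lf at hx
  rw [div_lt_one r] at hx
  unfold sideR
  unfold dt at hx
  push_cast at hx
  nlinarith

theorem lf_le_one (ux uy vx vy : ℤ) (h : 0 < dt ux uy vx vy) (x : Pl)
    (hx : 0 ≤ sideR ux uy vx vy (x 0) (x 1)) : lf ux uy vx vy x ≤ 1 := by
  have r : (0 : ℝ) < (dt ux uy vx vy : ℝ) := by exact_mod_cast h
  unfold lf
  rw [div_le_one r]
  unfold sideR at hx
  unfold dt
  push_cast
  nlinarith

theorem gb_lt_of_interior (x : Pl) (hx : x ∈ interior body) : gb x < 1 := by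
  by_cases h0 : x = 0
  · subst h0
    rw [g_zero gb gb_smul]
    norm_num
  have hcont : Continuous (fun t : ℝ => t • x) := by fun_prop
  have hopen : IsOpen ((fun t : ℝ => t • x) ⁻¹' interior body) := isOpen_interior.preimage hcont
  have h1 : (1 : ℝ) ∈ (fun t : ℝ => t • x) ⁻¹' interior body := by
    simpa using hx
  obtain ⟨ε, hε, hball⟩ := Metric.isOpen_iff.mp hopen 1 h1
  have h2 : (1 + ε / 2) ∈ Metric.ball (1 : ℝ) ε := by
    rw [Metric.mem_ball, Real.dist_eq]
    rw [show 1 + ε / 2 - 1 = ε / 2 by ring, abs_of_pos (by positivity)]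
    linarith
  have h3 : (1 + ε / 2) • x ∈ body := interior_subset (hball h2)
  have h4 : gb ((1 + ε / 2) • x) ≤ 1 := h3
  rw [gb_smul _ (by positivity)] at h4
  have h5 := gb_pos x h0
  nlinarith

theorem inside_of_interior (x : Pl) (hx : x ∈ interior body) : ∃ k : Fin 13, inside (tr k) (x 0) (x 1) := by
  have h := gb_lt_of_interior x hx
  obtain ⟨k, hk⟩ := (gb_le_iff x (gb x)).mp le_rfl
  have h2 : gt (tr k) x < 1 := lt_of_le_of_lt hk h
  unfold gt at h2
  rw [max_lt_iff, max_lt_iff] at h2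
  obtain ⟨d1, d2, d3⟩ := dt_pos k
  exact ⟨k, lf_lt_one _ _ _ _ d1 x h2.1, lf_lt_one _ _ _ _ d2 x h2.2.1,
    lf_lt_one _ _ _ _ d3 x h2.2.2⟩

/-- A lattice point as a point of the plane. -/
noncomputable def pt (p : ℤ × ℤ) : Pl := !₂[(p.1 : ℝ), (p.2 : ℝ)]

theorem pt_zero (p : ℤ × ℤ) : (pt p) 0 = p.1 := by simp [pt]

theorem pt_one (p : ℤ × ℤ) : (pt p) 1 = p.2 := by simp [pt]

/-- Decidable membership of a lattice point in a triangle. -/
def memB (t : Tri) (p : ℤ × ℤ) : Bool :=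
  decide (0 ≤ side t.a t.b t.c t.d p.1 p.2) && decide (0 ≤ side t.c t.d t.e t.f p.1 p.2) &&
    decide (0 ≤ side t.e t.f t.a t.b p.1 p.2)

theorem pt_mem (k : Fin 13) (p : ℤ × ℤ) (h : memB (tr k) p = true) : pt p ∈ body := by
  unfold memB at h
  rw [Bool.and_eq_true, Bool.and_eq_true, decide_eq_true_eq, decide_eq_true_eq,
    decide_eq_true_eq] at h
  obtain ⟨⟨e1, e2⟩, e3⟩ := h
  obtain ⟨d1, d2, d3⟩ := dt_pos k
  have hh : gb (pt p) ≤ 1 := by
    rw [gb_le_iff]
    refine ⟨k, ?_⟩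
    unfold gt
    refine max_le ?_ (max_le ?_ ?_)
    · apply lf_le_one _ _ _ _ d1
      rw [pt_zero, pt_one, sideR_int]; exact_mod_cast e1
    · apply lf_le_one _ _ _ _ d2
      rw [pt_zero, pt_one, sideR_int]; exact_mod_cast e2
    · apply lf_le_one _ _ _ _ d3
      rw [pt_zero, pt_one, sideR_int]; exact_mod_cast e3
  exact hh

theorem touch : ∀ i : Fin 9, ∃ k l : Fin 13, memB (tr k) ((tr k).a, (tr k).b) = true ∧
    memB (tr l) ((tr k).a - (vv i).1, (tr k).b - (vv i).2) = true := by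
  decide +kernel

theorem vv_ne_zero : ∀ i : Fin 9, vv i ≠ (0, 0) := by
  decide +kernel

theorem vv_inj : ∀ i j : Fin 9, i < j → vv i ≠ vv j := by
  decide +kernel

theorem pt_inj (p q : ℤ × ℤ) (h : pt p = pt q) : p = q := by
  have h0 : (pt p) 0 = (pt q) 0 := by rw [h]
  have h1 : (pt p) 1 = (pt q) 1 := by rw [h]
  rw [pt_zero, pt_zero] at h0
  rw [pt_one, pt_one] at h1
  have g0 : (p.1 : ℝ) = (q.1 : ℝ) := h0
  have g1 : (p.2 : ℝ) = (q.2 : ℝ) := h1
  exact Prod.ext (Int.cast_injective g0) (Int.cast_injective g1)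

theorem mem_interior_vadd (v x : Pl) (h : x ∈ interior (v +ᵥ body)) : x - v ∈ interior body := by
  rw [interior_vadd] at h
  obtain ⟨y, hy, rfl⟩ := h
  simpa [vadd_eq_add] using hy

theorem disj_single (i : Fin 9) : Disjoint (interior body) (interior (pt (vv i) +ᵥ body)) := by
  rw [Set.disjoint_left]
  intro x hx hx2
  have h2 := mem_interior_vadd _ _ hx2
  obtain ⟨k, hk⟩ := inside_of_interior x hx
  obtain ⟨l, hl⟩ := inside_of_interior _ h2
  refine not_sep (tr k) (tr l) (vv i) (x 0) (x 1) (check_single i k l) hk ?_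
  have e0 : (x - pt (vv i)) 0 = x 0 - ((vv i).1 : ℝ) := by
    rw [PiLp.sub_apply, pt_zero]
  have e1 : (x - pt (vv i)) 1 = x 1 - ((vv i).2 : ℝ) := by
    rw [PiLp.sub_apply, pt_one]
  rw [e0, e1] at hl
  exact hl

theorem disj_pair (i j : Fin 9) (hij : i < j) :
    Disjoint (interior (pt (vv i) +ᵥ body)) (interior (pt (vv j) +ᵥ body)) := by
  rw [Set.disjoint_left]
  intro x hx hx2
  have h1 := mem_interior_vadd _ _ hx
  have h2 := mem_interior_vadd _ _ hx2
  obtain ⟨k, hk⟩ := inside_of_interior _ h1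
  obtain ⟨l, hl⟩ := inside_of_interior _ h2
  refine not_sep (tr k) (tr l) ((vv j).1 - (vv i).1, (vv j).2 - (vv i).2) _ _
    (check_pair i j hij k l) hk ?_
  rw [PiLp.sub_apply, PiLp.sub_apply, pt_zero, pt_one] at hl ⊢
  have e0 : x 0 - ((vv i).1 : ℝ) - (((vv j).1 - (vv i).1 : ℤ) : ℝ) = x 0 - ((vv j).1 : ℝ) := by
    push_cast; ring
  have e1 : x 1 - ((vv i).2 : ℝ) - (((vv j).2 - (vv i).2 : ℤ) : ℝ) = x 1 - ((vv j).2 : ℝ) := by
    push_cast; ring
  show inside (tr l) (x 0 - ((vv i).1 : ℝ) - (((vv j).1 - (vv i).1 : ℤ) : ℝ))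
    (x 1 - ((vv i).2 : ℝ) - (((vv j).2 - (vv i).2 : ℤ) : ℝ))
  rw [e0, e1]
  exact hl

theorem star : StarConvex ℝ (0 : Pl) body := by
  rw [starConvex_zero_iff]
  intro x hx a ha0 ha1
  have hx' : gb x ≤ 1 := hx
  show gb (a • x) ≤ 1
  rcases ha0.eq_or_lt with h | h
  · rw [← h, zero_smul, g_zero gb gb_smul]
    norm_num
  · rw [gb_smul _ h]
    by_cases hx0 : x = 0
    · subst hx0
      rw [g_zero gb gb_smul]
      norm_num
    · have := gb_pos x hx0
      nlinarith

/-- There is a starlike disk with nine pairwise non-overlapping translates touching it. -/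
theorem result :
    ¬ (∀ S : Set (EuclideanSpace ℝ (Fin 2)),
      Nonempty (S ≃ₜ Metric.closedBall (0 : EuclideanSpace ℝ (Fin 2)) 1) →
      (∃ p ∈ S, StarConvex ℝ p S) →
      ∀ T : Finset (EuclideanSpace ℝ (Fin 2)),
        (∀ v ∈ T, v ≠ 0 ∧ (S ∩ (v +ᵥ S)).Nonempty ∧
            Disjoint (interior S) (interior (v +ᵥ S))) →
        (∀ v ∈ T, ∀ w ∈ T, v ≠ w →
            Disjoint (interior (v +ᵥ S)) (interior (w +ᵥ S))) →
        T.card ≤ 8) := by
  intro H
  have hinj : Function.Injective (fun i : Fin 9 => pt (vv i)) := by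
    intro i j hij
    have h := pt_inj _ _ hij
    rcases lt_trichotomy i j with h1 | h1 | h1
    · exact absurd h (vv_inj i j h1)
    · exact h1
    · exact absurd h.symm (vv_inj j i h1)
  have hcard : (Finset.univ.image (fun i : Fin 9 => pt (vv i))).card = 9 := by
    rw [Finset.card_image_of_injective _ hinj]
    rfl
  have h0 : (0 : Pl) ∈ body := by
    show gb 0 ≤ 1
    rw [g_zero gb gb_smul]
    norm_num
  have hle := H body (homeo_disk gb continuous_gb gb_smul gb_pos) ⟨0, h0, star⟩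
    (Finset.univ.image (fun i : Fin 9 => pt (vv i))) ?_ ?_
  · rw [hcard] at hle
    exact absurd hle (by norm_num)
  · intro v hv
    rw [Finset.mem_image] at hv
    obtain ⟨i, _, rfl⟩ := hv
    refine ⟨?_, ?_, disj_single i⟩
    · intro h
      have hz : pt (0, 0) = (0 : Pl) := by
        ext t
        fin_cases t
        · simp [pt]
        · simp [pt]
      rw [← hz] at h
      exact vv_ne_zero i (pt_inj _ _ h)
    · obtain ⟨k, l, hk, hl⟩ := touch i
      refine ⟨pt ((tr k).a, (tr k).b), pt_mem k _ hk, ?_⟩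
      have hm := pt_mem l _ hl
      refine ⟨_, hm, ?_⟩
      ext t
      fin_cases t
      · simp [pt]
      · simp [pt]
  · intro v hv w hw hvw
    rw [Finset.mem_image] at hv hw
    obtain ⟨i, _, rfl⟩ := hv
    obtain ⟨j, _, rfl⟩ := hw
    rcases lt_trichotomy i j with h1 | h1 | h1
    · exact disj_pair i j h1
    · subst h1
      exact absurd rfl hvw
    · exact (disj_pair j i h1).symm

end Pool.Agent.S11274
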