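import Pool.Statements.S11282
import Pool.Agent.LibC3e.Final

set_option autoImplicit false
open Pool Pool.MP_c3e822_co

namespace Pool.Agent.S11282

/-- The negation of the preceding statement: For any two permutation patterns, the numbers of length-n permutations avoiding each never alternate strictly in the order smaller, larger, smaller (or larger, smaller, larger) at three increasing lengths n. -/
theorem result :
    ¬ (∀ (k l : ℕ) (σ : Equiv.Perm (Fin k)) (τ : Equiv.Perm (Fin l)) (A B : ℕ → ℕ),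
      (∀ n : ℕ, A n = Nat.card {π : Equiv.Perm (Fin n) //
          ¬ ∃ f : Fin k ↪o Fin n, ∀ i j : Fin k, σ i < σ j ↔ π (f i) < π (f j)}) →
      (∀ n : ℕ, B n = Nat.card {π : Equiv.Perm (Fin n) //
          ¬ ∃ f : Fin l ↪o Fin n, ∀ i j : Fin l, τ i < τ j ↔ π (f i) < π (f j)}) →
      ¬ ∃ n₁ n₂ n₃ : ℕ, n₁ < n₂ ∧ n₂ < n₃ ∧
        ((A n₁ < B n₁ ∧ B n₂ < A n₂ ∧ A n₃ < B n₃) ∨
         (B n₁ < A n₁ ∧ A n₂ < B n₂ ∧ B n₃ < A n₃))) := by
  intro h
  obtain ⟨m, hm⟩ : ∃ m : ℕ, m = 2 ^ 200 := ⟨_, rfl⟩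
  obtain ⟨n₁, n₂, n₃, h12, h23, c1, c2, c3⟩ := Pool.Agent.LibC3e.three m hm
  exact h (m * m - 1) (m * m) 1 (Pool.Agent.LibC3e.tau m)
    (fun n => Pool.Agent.LibC3e.av (1 : Equiv.Perm (Fin (m * m - 1))) n)
    (fun n => Pool.Agent.LibC3e.av (Pool.Agent.LibC3e.tau m) n)
    (fun n => (Pool.Agent.LibC3e.av_eq_natCard _ n).symm)
    (fun n => (Pool.Agent.LibC3e.av_eq_natCard _ n).symm)
    ⟨n₁, n₂, n₃, h12, h23, Or.inl ⟨c1, c2, c3⟩⟩

end Pool.Agent.S11282
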