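import Pool.Statements.S11677
import Pool.Agent.MR3.All

set_option autoImplicit false
open Pool Pool.MP_d42559_co

namespace Pool.Agent.S11677

/-- For every k ≥ 4 there is a sign pattern whose real realizations have minimum rank exactly 3 while its rational realizations have minimum rank exactly k. -/
theorem result :
    ∀ k : ℕ, 4 ≤ k → ∃ m n : ℕ, ∃ A : Matrix (Fin m) (Fin n) SignType,
      (∃ B : Matrix (Fin m) (Fin n) ℝ, (∀ i j, SignType.sign (B i j) = A i j) ∧ B.rank = 3) ∧
      (∀ B : Matrix (Fin m) (Fin n) ℝ, (∀ i j, SignType.sign (B i j) = A i j) → 3 ≤ B.rank) ∧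
      (∃ B : Matrix (Fin m) (Fin n) ℚ, (∀ i j, SignType.sign (B i j) = A i j) ∧ B.rank = k) ∧
      (∀ B : Matrix (Fin m) (Fin n) ℚ, (∀ i j, SignType.sign (B i j) = A i j) → k ≤ B.rank) :=
  Pool.Agent.MR3.final

end Pool.Agent.S11677
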