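import Pool.Statements.S11835
import Pool.Agent.TCH.BLK
import Pool.Agent.TCH.COR
import Pool.Agent.TCH.EUD
import Pool.Agent.TCH.EUB
import Pool.Agent.TCH.EUT
import Pool.Agent.TCH.EUC
import Pool.Agent.TCH.THA
import Pool.Agent.TCH.ALG
import Pool.Agent.TCH.LOW
import Pool.Agent.TCH.FCT
import Pool.Agent.TCH.KEY
import Pool.Agent.TCH.RED
import Pool.Agent.TCH.CNT
import Pool.Agent.TCH.POL
import Pool.Agent.TCH.DEL
import Pool.Agent.TCH.DLP
import Pool.Agent.TCH.CHO
import Pool.Agent.TCH.FIN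
import Pool.Agent.PLG.Main

set_option autoImplicit false
open Pool Pool.MP_dbd377_co

namespace Pool.Agent.S11835

open Pool.Agent.TCH

theorem euc : Stmt_EUC := euc_proof eud_proof eub_proof eut_proof

theorem tha : Stmt_THA :=
  tha_proof alg_proof low_proof fct_proof (red_proof key_proof fct_proof) (cnt_proof fct_proof)
    (pol_proof fct_proof) (del_proof fct_proof) (dlp_proof fct_proof)

theorem fs (V : Type) [Fintype V] [DecidableEq V] (X : SimpleGraph V) (h : Dr X) : FaceSys X :=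
  PLG.faceSys_of_dr h

/-- Every finite graph drawable in the plane without edge crossings and having no cycle of length 4, 5, 6 or 7 can be properly coloured from any lists of at least 3 colours per vertex. -/
theorem result :
  ∀ (V : Type) [Fintype V] (G : SimpleGraph V),
    (∃ p : V → ℝ × ℝ, Function.Injective p ∧
      ∃ γ : V → V → ℝ → ℝ × ℝ,
        (∀ u v, G.Adj u v →
          ContinuousOn (γ u v) (Set.Icc 0 1) ∧ Set.InjOn (γ u v) (Set.Icc 0 1) ∧
          γ u v 0 = p u ∧ γ u v 1 = p v ∧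
          ∀ t ∈ Set.Ioo (0:ℝ) 1, ∀ w, γ u v t ≠ p w) ∧
        (∀ u v x y, G.Adj u v → G.Adj x y → s(u, v) ≠ s(x, y) →
          ∀ t ∈ Set.Ioo (0:ℝ) 1, ∀ t' ∈ Set.Ioo (0:ℝ) 1, γ u v t ≠ γ x y t')) →
    (∀ (v : V) (c : G.Walk v v), c.IsCycle → c.length < 4 ∨ 7 < c.length) →
    ∀ L : V → Finset ℕ, (∀ v, 3 ≤ (L v).card) →
      ∃ f : V → ℕ, (∀ v, f v ∈ L v) ∧ ∀ u v, G.Adj u v → f u ≠ f v := by
  intro V _ G hD hN L hL
  exact fin_proof blk_proof cor_proof euc tha cho_proof fs V G hD hN L hL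

end Pool.Agent.S11835
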