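import Pool.Statements.S12123
import Pool.Agent.Helper3.RGFinal

set_option autoImplicit false
open Pool Pool.MP_e72b8f_co

namespace Pool.Agent.S12123

/-- For fixed d and β(n)=o(n), and any fixed nonempty H, every large enough connected d-degenerate n-vertex graph G of bandwidth at most β(n) has Ramsey number R(G,H) equal to (χ(H)−1)(n−1)+σ(H). -/
theorem result :
    ∀ d : ℕ, ∀ β : ℕ → ℕ,
      Filter.Tendsto (fun n : ℕ => (β n : ℝ) / (n : ℝ)) Filter.atTop (nhds 0) →
      ∀ (m : ℕ) (H : SimpleGraph (Fin m)), 0 < m →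
        ∃ n0 : ℕ, ∀ n : ℕ, n0 ≤ n →
          ∀ G : SimpleGraph (Fin n), G.Connected →
            (∀ S : Finset (Fin n), S.Nonempty →
              ∃ v ∈ S, ({w : Fin n | w ∈ S ∧ G.Adj v w} : Set (Fin n)).ncard ≤ d) →
            (∃ f : Fin n ≃ Fin n, ∀ u v : Fin n, G.Adj u v →
              |((f u : ℕ) : ℤ) - ((f v : ℕ) : ℤ)| ≤ (β n : ℤ)) →
            ∀ k s : ℕ, H.chromaticNumber = (k : ℕ∞) →
              (∃ c : Fin m → Fin k, (∀ u v : Fin m, H.Adj u v → c u ≠ c v) ∧
                ∃ i : Fin k, ({u : Fin m | c u = i} : Set (Fin m)).ncard = s) →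
              (∀ c : Fin m → Fin k, (∀ u v : Fin m, H.Adj u v → c u ≠ c v) →
                ∀ i : Fin k, s ≤ ({u : Fin m | c u = i} : Set (Fin m)).ncard) →
              (∀ F : SimpleGraph (Fin ((k - 1) * (n - 1) + s)),
                  G.IsContained F ∨ H.IsContained Fᶜ) ∧
              (∃ F : SimpleGraph (Fin ((k - 1) * (n - 1) + s - 1)),
                  ¬ G.IsContained F ∧ ¬ H.IsContained Fᶜ) := by
  exact Pool.Agent.Helper3.RG.final

end Pool.Agent.S12123
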