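import Pool.Statements.S12711
import Pool.Agent.Helper46.PC.Final

set_option autoImplicit false
open Pool Pool.MP_08983e_gt

namespace Pool.Agent.S12711

/-- There is a connected Hausdorff space, locally homeomorphic to some ℝⁿ, on which every continuous real function is bounded, yet some sequence in it has no cluster point. -/
theorem result :
    ∃ (X : Type) (t : TopologicalSpace X),
      T2Space X ∧ ConnectedSpace X ∧
      (∃ n : ℕ, Nonempty (ChartedSpace (EuclideanSpace ℝ (Fin n)) X)) ∧
      (∀ f : X → ℝ, Continuous f → BddAbove (Set.range f)) ∧
      (∃ u : ℕ → X, ∀ x : X, ¬ MapClusterPt x Filter.atTop u) := by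
  exact Pool.Agent.Helper46.PC.main_result

end Pool.Agent.S12711
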