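import Pool.Statements.S12940
import Pool.Agent.Medial.Assembly
import Pool.Agent.Medial.T3
import Pool.Agent.Medial.T4
import Pool.Agent.Medial.T5
import Pool.Agent.Medial.T6
import Pool.Agent.Medial.T7
import Pool.Agent.Medial.T8
import Pool.Agent.Medial.T9
import Pool.Agent.Medial.T10

set_option autoImplicit false
open Pool Pool.MP_2afbe1_gt

namespace Pool.Agent.S12940

/-- The negation of the preceding statement: For n ≥ 4, if some simplicial polyhedron with n vertices on the unit sphere has every valence between ⌊6−12/n⌋ and ⌈6−12/n⌉, then some such medial polyhedron has the largest volume among all n-vertex polyhedra inscribed in the sphere. -/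
theorem result :
    ¬ (∀ n : ℕ, 4 ≤ n →
      (∃ S : Finset (EuclideanSpace ℝ (Fin 3)), S.card = n ∧ (∀ x ∈ S, ‖x‖ = 1) ∧
        (∀ (a : EuclideanSpace ℝ (Fin 3)) (c : ℝ) (T : Finset (EuclideanSpace ℝ (Fin 3))),
          a ≠ 0 → T ⊆ S → (∀ x ∈ S, inner ℝ a x ≤ c) → (∀ x ∈ T, inner ℝ a x = c) → T.card ≤ 3) ∧
        (∀ v ∈ S,
          ⌊(6 : ℝ) - 12 / (n : ℝ)⌋ ≤
            ((Set.ncard {w : EuclideanSpace ℝ (Fin 3) | w ∈ S ∧ w ≠ v ∧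
              ∃ (a : EuclideanSpace ℝ (Fin 3)) (c : ℝ), (∀ x ∈ S, inner ℝ a x ≤ c) ∧
                ∀ x ∈ S, (inner ℝ a x = c ↔ (x = v ∨ x = w))} : ℕ) : ℤ) ∧
          ((Set.ncard {w : EuclideanSpace ℝ (Fin 3) | w ∈ S ∧ w ≠ v ∧
              ∃ (a : EuclideanSpace ℝ (Fin 3)) (c : ℝ), (∀ x ∈ S, inner ℝ a x ≤ c) ∧
                ∀ x ∈ S, (inner ℝ a x = c ↔ (x = v ∨ x = w))} : ℕ) : ℤ) ≤
            ⌈(6 : ℝ) - 12 / (n : ℝ)⌉)) →
      ∃ S : Finset (EuclideanSpace ℝ (Fin 3)), S.card = n ∧ (∀ x ∈ S, ‖x‖ = 1) ∧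
        (∀ (a : EuclideanSpace ℝ (Fin 3)) (c : ℝ) (T : Finset (EuclideanSpace ℝ (Fin 3))),
          a ≠ 0 → T ⊆ S → (∀ x ∈ S, inner ℝ a x ≤ c) → (∀ x ∈ T, inner ℝ a x = c) → T.card ≤ 3) ∧
        (∀ v ∈ S,
          ⌊(6 : ℝ) - 12 / (n : ℝ)⌋ ≤
            ((Set.ncard {w : EuclideanSpace ℝ (Fin 3) | w ∈ S ∧ w ≠ v ∧
              ∃ (a : EuclideanSpace ℝ (Fin 3)) (c : ℝ), (∀ x ∈ S, inner ℝ a x ≤ c) ∧
                ∀ x ∈ S, (inner ℝ a x = c ↔ (x = v ∨ x = w))} : ℕ) : ℤ) ∧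
          ((Set.ncard {w : EuclideanSpace ℝ (Fin 3) | w ∈ S ∧ w ≠ v ∧
              ∃ (a : EuclideanSpace ℝ (Fin 3)) (c : ℝ), (∀ x ∈ S, inner ℝ a x ≤ c) ∧
                ∀ x ∈ S, (inner ℝ a x = c ↔ (x = v ∨ x = w))} : ℕ) : ℤ) ≤
            ⌈(6 : ℝ) - 12 / (n : ℝ)⌉) ∧
        ∀ T : Finset (EuclideanSpace ℝ (Fin 3)), T.card = n → (∀ x ∈ T, ‖x‖ = 1) →
          MeasureTheory.volume (convexHull ℝ (T : Set (EuclideanSpace ℝ (Fin 3)))) ≤
            MeasureTheory.volume (convexHull ℝ (S : Set (EuclideanSpace ℝ (Fin 3))))) := by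
  exact Pool.Agent.Medial.assembly Pool.Agent.Medial.T7 Pool.Agent.Medial.T8 Pool.Agent.Medial.T9
    (Pool.Agent.Medial.T10_of (Pool.Agent.Medial.T5_of Pool.Agent.Medial.T3 Pool.Agent.Medial.T4)
      Pool.Agent.Medial.T6a Pool.Agent.Medial.T6b Pool.Agent.Medial.T6c Pool.Agent.Medial.T6d)

end Pool.Agent.S12940
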