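import Pool.Statements.S15528
-- import your own Pool.Agent.* helpers here
import Pool.Agent.Helper17.DS7

set_option autoImplicit false
open Classical
open Pool Pool.MP_e573df_lc

namespace Pool.Agent.S15528

open Pool.Agent.Helper17.DS in
theorem chi_image (f : ℕ ≃ ℕ) :
    (fun k => Part.some (if ∃ l : List ℕ, Encodable.encode (l.map f) = k ∧ Rel l then 1 else 0) :
      ℕ →. ℕ) = chi (Af f) := by
  funext k
  unfold chi
  by_cases h : ∃ l : List ℕ, Encodable.encode (l.map f) = k ∧ Rel l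
  · rw [if_pos h, (Af_iff f k).2 h]
    rfl
  · rw [if_neg h]
    have : Af f k = false := by
      by_contra h2
      simp only [Bool.not_eq_false] at h2
      exact h ((Af_iff f k).1 h2)
    rw [this]
    rfl

open Pool.Agent.Helper17.DS in
theorem exists_copy (ltB : ℕ → ℕ → Prop)
    (hB : ComputablePred (fun p : ℕ × ℕ => ltB p.1 p.2)) (f : ℕ ≃ ℕ)
    (hf : ∀ x y : ℕ, x < y ↔ ltB (f x) (f y)) : ∃ lb, Copy lb f := by
  obtain ⟨hd, hc⟩ := hB
  refine ⟨fun a b => decide (ltB a b), ?_, fun a b => ?_⟩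
  · refine hc.of_eq fun p => ?_
    exact decide_eq_decide.2 Iff.rfl
  · rw [decide_eq_true_iff, hf, Equiv.apply_symm_apply, Equiv.apply_symm_apply]

/-- The negation of the preceding statement: For every computable linear order on ℕ and every relation on it whose image in every computable copy is Δ⁰₂, either all such images are Turing equivalent, or for every m there are m copies whose images are pairwise Turing inequivalent. -/
theorem result :
    ¬ (∀ (ltA : ℕ → ℕ → Prop), IsStrictTotalOrder ℕ ltA →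
    ComputablePred (fun p : ℕ × ℕ => ltA p.1 p.2) →
  ∀ (n : ℕ) (R : List ℕ → Prop), (∀ l, R l → l.length = n) →
  (∀ (ltB : ℕ → ℕ → Prop), IsStrictTotalOrder ℕ ltB →
      ComputablePred (fun p : ℕ × ℕ => ltB p.1 p.2) →
      ∀ (f : ℕ ≃ ℕ), (∀ x y, ltA x y ↔ ltB (f x) (f y)) →
      ∃ g : ℕ → ℕ → Bool, Computable₂ g ∧
        ∀ k : ℕ, ∃ s0 : ℕ, ∀ s : ℕ, s0 ≤ s →
          (g k s = true ↔ ∃ l : List ℕ, Encodable.encode (l.map f) = k ∧ R l)) →
  ((∀ (ltB ltC : ℕ → ℕ → Prop) (f h : ℕ ≃ ℕ),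
      IsStrictTotalOrder ℕ ltB → ComputablePred (fun p : ℕ × ℕ => ltB p.1 p.2) →
      (∀ x y, ltA x y ↔ ltB (f x) (f y)) →
      IsStrictTotalOrder ℕ ltC → ComputablePred (fun p : ℕ × ℕ => ltC p.1 p.2) →
      (∀ x y, ltA x y ↔ ltC (h x) (h y)) →
      TuringEquivalent
        (fun k => Part.some (if ∃ l : List ℕ, Encodable.encode (l.map f) = k ∧ R l then 1 else 0) : ℕ →. ℕ)
        (fun k => Part.some (if ∃ l : List ℕ, Encodable.encode (l.map h) = k ∧ R l then 1 else 0) : ℕ →. ℕ))
   ∨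
   (∀ m : ℕ, ∃ (lt : Fin m → ℕ → ℕ → Prop) (f : Fin m → ℕ ≃ ℕ),
      (∀ i : Fin m, IsStrictTotalOrder ℕ (lt i) ∧
        ComputablePred (fun p : ℕ × ℕ => lt i p.1 p.2) ∧
        (∀ x y, ltA x y ↔ lt i (f i x) (f i y))) ∧
      ∀ i j : Fin m, i ≠ j →
        ¬ TuringEquivalent
          (fun k => Part.some (if ∃ l : List ℕ, Encodable.encode (l.map (f i)) = k ∧ R l then 1 else 0) : ℕ →. ℕ)
          (fun k => Part.some (if ∃ l : List ℕ, Encodable.encode (l.map (f j)) = k ∧ R l then 1 else 0) : ℕ →. ℕ)))) := by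
  intro H
  have hlt : IsStrictTotalOrder ℕ (fun a b : ℕ => a < b) := inferInstance
  have hcomp : ComputablePred (fun p : ℕ × ℕ => p.1 < p.2) :=
    ⟨inferInstance, (Primrec.nat_lt.decide.to_comp :)⟩
  have key := H (fun a b => a < b) hlt hcomp 2 Pool.Agent.Helper17.DS.Rel (by
    rintro l (⟨x, rfl⟩ | ⟨x, _, rfl⟩) <;> rfl) (by
    intro ltB _ hB f hf
    obtain ⟨lb, hlb⟩ := exists_copy ltB hB f hf
    obtain ⟨g, hg, hg2⟩ := Pool.Agent.Helper17.DS.lAf hlb
    refine ⟨g, hg, fun k => ?_⟩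
    obtain ⟨s0, hs0⟩ := hg2 k
    refine ⟨s0, fun s hs => ?_⟩
    rw [hs0 s hs, Pool.Agent.Helper17.DS.Af_iff])
  rcases key with h1 | h2
  · have hK := h1 (fun a b => a < b)
      (fun a b => Pool.Agent.Helper17.DS.lK a b = true) (Equiv.refl ℕ)
      Pool.Agent.Helper17.DS.fK hlt hcomp (fun x y => Iff.rfl) ?_ ?_ ?_
    · rw [chi_image, chi_image] at hK
      exact Pool.Agent.Helper17.DS.not_le_refl (RecursiveIn.iff_nat.1 hK.2)
    · have hc := Pool.Agent.Helper17.DS.copyK
      exact {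
        trichotomous := by
          intro a b h3 h4
          rw [hc.2] at h3 h4
          exact Pool.Agent.Helper17.DS.fK.symm.injective (by omega)
        irrefl := by
          intro a ha
          rw [hc.2] at ha
          omega
        trans := by
          intro a b c hab hbc
          rw [hc.2] at hab hbc ⊢
          omega }
    · refine ⟨inferInstance, ?_⟩
      refine Pool.Agent.Helper17.DS.copyK.1.of_eq fun p => ?_
      exact (Bool.decide_coe _).symm
    · intro x y
      rw [Pool.Agent.Helper17.DS.copyK.2, Equiv.symm_apply_apply, Equiv.symm_apply_apply]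
  · obtain ⟨lt, f, hf, hne⟩ := h2 3
    have hne' : ∀ i j : Fin 3, i ≠ j →
        ¬ TuringEquivalent (Pool.Agent.Helper17.DS.chi (Pool.Agent.Helper17.DS.Af (f i)))
          (Pool.Agent.Helper17.DS.chi (Pool.Agent.Helper17.DS.Af (f j))) := by
      intro i j hij
      have := hne i j hij
      rw [chi_image, chi_image] at this
      exact this
    have hD : ∀ i : Fin 3,
        TuringEquivalent (Pool.Agent.Helper17.DS.chi (Pool.Agent.Helper17.DS.Af (f i)))
          (Pool.Agent.Helper17.DS.chi Pool.Agent.Helper17.DS.Dset) ∨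
        TuringEquivalent (Pool.Agent.Helper17.DS.chi (Pool.Agent.Helper17.DS.Af (f i)))
          (Pool.Agent.Helper17.DS.chi Pool.Agent.Helper17.DS.kb) := by
      intro i
      obtain ⟨lb, hlb⟩ := exists_copy (lt i) (hf i).2.1 (f i) (hf i).2.2
      rcases Pool.Agent.Helper17.DS.dichotomy hlb with h | h
      · exact Or.inl ⟨RecursiveIn.iff_nat.2 h.1, RecursiveIn.iff_nat.2 h.2⟩
      · exact Or.inr ⟨RecursiveIn.iff_nat.2 h.1, RecursiveIn.iff_nat.2 h.2⟩
    have tr : ∀ (i j : Fin 3) (g : ℕ →. ℕ), i ≠ j →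
        TuringEquivalent (Pool.Agent.Helper17.DS.chi (Pool.Agent.Helper17.DS.Af (f i))) g →
        TuringEquivalent (Pool.Agent.Helper17.DS.chi (Pool.Agent.Helper17.DS.Af (f j))) g →
        False := by
      intro i j g hij h3 h4
      exact hne' i j hij ⟨h3.1.trans h4.2, h4.1.trans h3.2⟩
    rcases hD 0 with h0 | h0 <;> rcases hD 1 with h1 | h1 <;> rcases hD 2 with h2 | h2
    · exact tr 0 1 _ (by decide) h0 h1
    · exact tr 0 1 _ (by decide) h0 h1
    · exact tr 0 2 _ (by decide) h0 h2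
    · exact tr 1 2 _ (by decide) h1 h2
    · exact tr 1 2 _ (by decide) h1 h2
    · exact tr 0 2 _ (by decide) h0 h2
    · exact tr 0 1 _ (by decide) h0 h1
    · exact tr 0 1 _ (by decide) h0 h1

end Pool.Agent.S15528
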