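import Pool.Statements.S15681
import Pool.Agent.CRV.Final

set_option autoImplicit false
open MeasureTheory
open Pool Pool.MP_182276_mp

namespace Pool.Agent.S15681

/-- For every 0<α≤2/3, the closed linear span in L²(ℝ) of all eigenfunctions and generalized eigenfunctions of the operator −f''+i∣x∣^α f is all of L²(ℝ). -/
theorem result :
    ∀ α : ℝ, 0 < α → α ≤ 2 / 3 →
      (Submodule.span ℂ
        {F : Lp ℂ 2 (volume : Measure ℝ) |
          ∃ (μ : ℂ) (n : ℕ) (φ : ℕ → ℝ → ℂ), φ 0 = 0 ∧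
            (∀ k, k ≤ n → ContDiff ℝ 2 (φ k) ∧ MemLp (φ k) 2 (volume : Measure ℝ)) ∧
            (∀ k, k < n → ∀ x : ℝ,
              -deriv (deriv (φ (k + 1))) x
                + Complex.I * (((|x| ^ α : ℝ)) : ℂ) * φ (k + 1) x
                - μ * φ (k + 1) x = φ k x) ∧
            (⇑F) =ᵐ[(volume : Measure ℝ)] φ n}).topologicalClosure = ⊤ := by
  exact Pool.Agent.CRV.final

end Pool.Agent.S15681
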