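import Pool.Statements.S15818
import Pool.Agent.CSV.Config

set_option autoImplicit false
open Pool Pool.MP_e9ba27_mp

namespace Pool.Agent.S15818

/-- The negation of the preceding statement: For λ>0, distinct points p_j in the plane and multiplicities m_j≥1, any two solutions of Δu = λe^u(e^u−1) off the p_j with u ~ 2m_j log∣x−p_j∣ near p_j and u→0 at infinity coincide. -/
theorem result :
    ¬ (∀ (lam : ℝ), 0 < lam → ∀ (N : ℕ) (p : Fin N → EuclideanSpace ℝ (Fin 2)) (m : Fin N → ℕ),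
      Function.Injective p → (∀ j, 1 ≤ m j) →
      ∀ u v : EuclideanSpace ℝ (Fin 2) → ℝ,
        (ContDiffOn ℝ 2 u {x | ∀ j, x ≠ p j} ∧
          (∀ x, (∀ j, x ≠ p j) →
            ∑ i : Fin 2, iteratedFDeriv ℝ 2 u x
              ![EuclideanSpace.single i (1 : ℝ), EuclideanSpace.single i (1 : ℝ)]
              = lam * Real.exp (u x) * (Real.exp (u x) - 1)) ∧
          (∀ j, ∃ δ > 0, ∃ C : ℝ, ∀ x, 0 < ‖x - p j‖ → ‖x - p j‖ < δ →
            |u x - 2 * (m j : ℝ) * Real.log ‖x - p j‖| ≤ C) ∧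
          Filter.Tendsto u (Filter.cocompact _) (nhds 0)) →
        (ContDiffOn ℝ 2 v {x | ∀ j, x ≠ p j} ∧
          (∀ x, (∀ j, x ≠ p j) →
            ∑ i : Fin 2, iteratedFDeriv ℝ 2 v x
              ![EuclideanSpace.single i (1 : ℝ), EuclideanSpace.single i (1 : ℝ)]
              = lam * Real.exp (v x) * (Real.exp (v x) - 1)) ∧
          (∀ j, ∃ δ > 0, ∃ C : ℝ, ∀ x, 0 < ‖x - p j‖ → ‖x - p j‖ < δ →
            |v x - 2 * (m j : ℝ) * Real.log ‖x - p j‖| ≤ C) ∧
          Filter.Tendsto v (Filter.cocompact _) (nhds 0)) →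
        ∀ x, (∀ j, x ≠ p j) → u x = v x) := by
  intro h
  obtain ⟨p, hinj, u, v, hu, hv, x0, hx0, hne⟩ := Pool.Agent.CSV.nonuniqueness (10 ^ 7) le_rfl
  apply hne
  refine h 1 one_pos _ p (fun _ => 1) hinj (fun _ => le_rfl) u v
    ⟨hu.cd, fun x hx => ?_, fun j => ?_, hu.lim⟩ ⟨hv.cd, fun x hx => ?_, fun j => ?_, hv.lim⟩ x0 hx0
  · rw [one_mul]; exact hu.pde x hx
  · simpa using hu.sing j
  · rw [one_mul]; exact hv.pde x hx
  · simpa using hv.sing j

end Pool.Agent.S15818
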