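import Pool.Statements.S16140
import Pool.Agent.EPS.Final
-- import your own Pool.Agent.* helpers here

set_option autoImplicit false
open N95f96908
open Filter
open Pool Pool.MP_1626ca_nt

namespace Pool.Agent.S16140

/-- The negation of the preceding statement: For all sufficiently large n : ℕ, there exist naturals a, p, b with p prime, a ≥ 1, b < p, and n = a*p^2 + b. -/
theorem result :
    ¬ (∀ᶠ n in atTop, ∃ a p b : ℕ, p.Prime ∧ 1 ≤ a ∧ b < p ∧ n = a * p ^ 2 + b) := by
  exact Pool.Agent.EPS.main

end Pool.Agent.S16140
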