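import Pool.Statements.S17837
import Pool.Agent.EMS.HOE
import Pool.Agent.EMS.CSI
import Pool.Agent.EMS.CHA
import Pool.Agent.EMS.BNZ
import Pool.Agent.EMS.HKZ
import Pool.Agent.EMS.CLZ
import Pool.Agent.EMS.CLC
import Pool.Agent.EMS.BGP
import Pool.Agent.EMS.MOD
import Pool.Agent.EMS.TRF
import Pool.Agent.EMS.ZRZ
import Pool.Agent.EMS.BRA
import Pool.Agent.EMS.BR
import Pool.Agent.EMS.BSG
import Pool.Agent.EMS.MSS
import Pool.Agent.EMS.SCL
import Pool.Agent.EMS.GAI
import Pool.Agent.EMS.GAL
import Pool.Agent.EMS.GAG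
import Pool.Agent.EMS.GBX
import Pool.Agent.EMS.LCO
import Pool.Agent.EMS.LCL
import Pool.Agent.EMS.IOT
import Pool.Agent.EMS.LRR
import Pool.Agent.EMS.EVO
import Pool.Agent.EMS.CNV
import Pool.Agent.EMS.NOR
import Pool.Agent.EMS.RND
import Pool.Agent.EMS.SLI
import Pool.Agent.EMS.ITR
import Pool.Agent.EMS.CEL
import Pool.Agent.EMS.LTM
import Pool.Agent.EMS.MID
import Pool.Agent.EMS.LNK
import Pool.Agent.EMS.ENG
import Pool.Agent.EMS.QOB
import Pool.Agent.EMS.ROO
import Pool.Agent.EMS.HYP
import Pool.Agent.EMS.DPL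
import Pool.Agent.EMS.INT
import Pool.Agent.EMS.LMF
import Pool.Agent.EMS.PUL
import Pool.Agent.EMS.PUS
import Pool.Agent.EMS.CLS
import Pool.Agent.EMS.TRU
import Pool.Agent.EMS.BAS
import Pool.Agent.EMS.CFG
import Pool.Agent.EMS.CRS
import Pool.Agent.EMS.WNI
import Pool.Agent.EMS.UNI
import Pool.Agent.EMS.WNL
import Pool.Agent.EMS.XQM
import Pool.Agent.EMS.STJ
import Pool.Agent.EMS.STM
import Pool.Agent.EMS.STP
import Pool.Agent.EMS.SKK
import Pool.Agent.EMS.PST
import Pool.Agent.EMS.ITP
import Pool.Agent.EMS.INC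
import Pool.Agent.EMS.LEV
import Pool.Agent.EMS.IGP
import Pool.Agent.EMS.PRM
import Pool.Agent.EMS.POS
import Pool.Agent.EMS.FIN

set_option autoImplicit false
open Pool Pool.MP_973cda_nt

namespace Pool.Agent.S17837

open Pool.Agent.EMS in
/-- assembly of all modules of the proof -/
theorem final : Pool.Agent.EMS.Stmt_FIN := by
  have h_csi := csi_proof
  have h_bnz := bnz_proof h_csi cha_proof
  have h_clz := clz_proof hkz_proof
  have h_bgp := bgp_proof h_clz
  have h_bra := bra_proof mod_proof h_bnz h_bgp trf_proof zrz_proof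
  have h_br := br_proof h_bra
  have h_clc := clc_proof h_clz
  have h_gbx := gbx_proof mss_proof gai_proof gal_proof gag_proof
  have h_lrr := lrr_proof scl_proof h_gbx lco_proof lcl_proof iot_proof
  have h_evo := evo_proof h_lrr iot_proof
  have h_cnv := cnv_proof h_clc
  have h_rnd := rnd_proof h_evo h_cnv nor_proof iot_proof
  have h_itr := itr_proof h_rnd sli_proof
  have h_eng := eng_proof ltm_proof mid_proof lnk_proof
  have h_dpl := dpl_proof h_br bsg_proof nor_proof h_itr cel_proof h_eng qob_proof roo_proof hyp_proof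
  have h_int := int_proof h_clc
  have h_cfg := cfg_proof h_dpl h_int
  have h_wni := wni_proof h_cfg crs_proof
  have h_uni := uni_proof cls_proof
  have h_wnl := wnl_proof h_wni h_uni pul_proof cls_proof
  have h_xqm := xqm_proof h_dpl pul_proof tru_proof
  have h_stj := stj_proof pus_proof cls_proof
  have h_stp := stp_proof pus_proof cls_proof h_stj stm_proof
  have h_skk := skk_proof h_wnl h_xqm h_stp cls_proof pus_proof
  have h_pst := pst_proof h_skk
  have h_itp := itp_proof h_pst bas_proof
  have h_inc := inc_proof lmf_proof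
  have h_lev := lev_proof lmf_proof
  have h_igp := igp_proof h_lev mss_proof bsg_proof h_br
  have h_pos := pos_proof h_itp h_inc h_igp prm_proof
  exact fin_proof h_pos

/-- There is N such that every finite set A of integers with n ≥ N elements contains a subset S with at least (log n)^100 elements such that no sum of two distinct elements of S lies in A. -/
theorem result :
    ∃ N : ℕ, ∀ A : Finset ℤ, N ≤ A.card →
      ∃ S : Finset ℤ, S ⊆ A ∧
        (Real.log (A.card : ℝ)) ^ (100 : ℕ) ≤ (S.card : ℝ) ∧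
        ∀ s ∈ S, ∀ s' ∈ S, s ≠ s' → s + s' ∉ A := by
  exact final

end Pool.Agent.S17837
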