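-- Proof of the frozen statement S18309 (second cuboid conjecture).
import Pool.Statements.S18309
import Pool.Agent.Helper35.CuboidH

set_option autoImplicit false
open N2f636d21
open Polynomial
open Pool Pool.MP_bc042c_nt

namespace Pool.Agent.S18309

/-- For all naturals a,b with gcd(a,b)=1, a>0, b>0, a≠b, the stated monic degree-10 polynomial (a,b cast to ℤ) is Irreducible in ℤ[X]. -/
theorem result :
    CuboidTwo := by
  intro a b _hcop ha hb hab
  unfold CuboidTwoFor
  rw [Polynomial.Monic.irreducible_iff_irreducible_map_fraction_map (K := ℚ) (by monicity!)]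
  refine Pool.Agent.Helper35.Cuboid.deg_ten a b ha hb hab _ ?_ ?_ ?_
  · apply Polynomial.Monic.map
    monicity!
  · rw [Polynomial.Monic.natDegree_map (by monicity!)]
    compute_degree!
  · intro x
    unfold Pool.Agent.Helper35.Cuboid.qv
    simp only [aeval_map_algebraMap, map_sub, map_add, map_mul, map_pow, aeval_X, aeval_C]
    simp only [eq_intCast]
    push_cast
    ring

end Pool.Agent.S18309
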