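import Pool.Statements.S18483
import Pool.Agent.Lib_ca68af.Main

set_option autoImplicit false
open Pool Pool.MP_ca68af_nt

namespace Pool.Agent.S18483

/-- The Hausdorff dimension of the set of 3-adic integers x for which at least k of the numbers 2^n x (n ≥ 0) have no digit 2 in their 3-adic expansion tends to 0 as k tends to infinity. -/
theorem result :
    Filter.Tendsto
      (fun k : ℕ =>
        dimH {x : PadicInt 3 |
          (k : ℕ∞) ≤ {n : ℕ | ∀ j : ℕ,
            ((2 : PadicInt 3) ^ n * x).appr (j + 1) / 3 ^ j % 3 ≠ 2}.encard})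
      Filter.atTop (nhds 0) := by
  exact Pool.Agent.Lib_ca68af.tendsto_of_G Pool.Agent.Lib_ca68af.goalG

end Pool.Agent.S18483
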