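import Pool.Statements.S19294
import Pool.Agent.Helper39.UT.Bridge

set_option autoImplicit false
open Pool Pool.MP_4736a5_pr

namespace Pool.Agent.S19294

/-- The negation of the preceding statement: For 0<p<1, p³<t<1 with the constant graphon not optimal, any two graphons minimizing the relative entropy I_p subject to triangle density ≥ t have equal homomorphism densities for every simple graph, i.e. are equal in the graphon quotient space. -/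
theorem result :
    ¬ (∀ (p t : ℝ), 0 < p → p < 1 → p ^ 3 < t → t < 1 →
  ∀ (IsGraphon : (ℝ → ℝ → ℝ) → Prop),
    (∀ W, IsGraphon W ↔ (Measurable (Function.uncurry W) ∧ (∀ x y, W x y = W y x) ∧
        ∀ x y, 0 ≤ W x y ∧ W x y ≤ 1)) →
  ∀ (I : (ℝ → ℝ → ℝ) → ℝ),
    (∀ W, I W = (1 / 2) * ∫ x in Set.Icc (0:ℝ) 1, ∫ y in Set.Icc (0:ℝ) 1,
        (W x y * Real.log (W x y / p) + (1 - W x y) * Real.log ((1 - W x y) / (1 - p)))) →
  ∀ (T : (ℝ → ℝ → ℝ) → ℝ),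
    (∀ W, T W = ∫ x in Set.Icc (0:ℝ) 1, ∫ y in Set.Icc (0:ℝ) 1, ∫ z in Set.Icc (0:ℝ) 1,
        W x y * W y z * W x z) →
  (∃ U, IsGraphon U ∧ t ≤ T U ∧ I U < I (fun _ _ => t ^ ((1:ℝ) / 3))) →
  ∀ W₁ W₂, IsGraphon W₁ → IsGraphon W₂ → t ≤ T W₁ → t ≤ T W₂ →
    (∀ U, IsGraphon U → t ≤ T U → I W₁ ≤ I U) →
    (∀ U, IsGraphon U → t ≤ T U → I W₂ ≤ I U) →
    ∀ (k : ℕ) (E : Finset (Fin k × Fin k)), (∀ e ∈ E, e.1 < e.2) →
      (∫ x in Set.univ.pi (fun _ : Fin k => Set.Icc (0:ℝ) 1), ∏ e ∈ E, W₁ (x e.1) (x e.2)) =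
      (∫ x in Set.univ.pi (fun _ : Fin k => Set.Icc (0:ℝ) 1), ∏ e ∈ E, W₂ (x e.1) (x e.2))) := by
  intro h
  obtain ⟨p, t, hp, hp1, ht0, ht1, W₁, W₂, hm₁, hm₂, hne, hbroken⟩ :=
    Pool.Agent.Helper39.UT.exists_two_min
  have hgr : ∀ W : ℝ → ℝ → ℝ, (Measurable (Function.uncurry W) ∧ (∀ x y, W x y = W y x) ∧
      ∀ x y, 0 ≤ W x y ∧ W x y ≤ 1) ↔ Pool.Agent.Helper39.UT.IsGr W := fun W =>
    ⟨fun ⟨a, b, c⟩ => ⟨a, b, c⟩, fun h => ⟨h.meas, h.symm, h.bd⟩⟩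
  have hc0 : (0:ℝ) ≤ t ^ ((1:ℝ) / 3) :=
    Real.rpow_nonneg (le_of_lt (lt_trans (by positivity) ht0)) _
  have hc1 : t ^ ((1:ℝ) / 3) ≤ 1 :=
    Real.rpow_le_one (le_of_lt (lt_trans (by positivity) ht0)) ht1.le (by norm_num)
  have hconst : Pool.Agent.Helper39.UT.IsGr (fun _ _ => t ^ ((1:ℝ) / 3)) :=
    ⟨measurable_const, fun _ _ => rfl, fun _ _ => ⟨hc0, hc1⟩⟩
  have hmin : ∀ W, Pool.Agent.Helper39.UT.IsMin p t W → ∀ U,
      (Measurable (Function.uncurry U) ∧ (∀ x y, U x y = U y x) ∧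
        ∀ x y, 0 ≤ U x y ∧ U x y ≤ 1) →
      t ≤ (∫ x in Set.Icc (0:ℝ) 1, ∫ y in Set.Icc (0:ℝ) 1, ∫ z in Set.Icc (0:ℝ) 1,
        U x y * U y z * U x z) →
      ((1 / 2) * ∫ x in Set.Icc (0:ℝ) 1, ∫ y in Set.Icc (0:ℝ) 1,
        (W x y * Real.log (W x y / p) + (1 - W x y) * Real.log ((1 - W x y) / (1 - p)))) ≤
      ((1 / 2) * ∫ x in Set.Icc (0:ℝ) 1, ∫ y in Set.Icc (0:ℝ) 1,
        (U x y * Real.log (U x y / p) + (1 - U x y) * Real.log ((1 - U x y) / (1 - p)))) := by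
    intro W hW U hU hTU
    have hU' := (hgr U).mp hU
    rw [← Pool.Agent.Helper39.UT.TG_eq hU'] at hTU
    rw [← Pool.Agent.Helper39.UT.IG_eq hp hp1 hW.gr, ← Pool.Agent.Helper39.UT.IG_eq hp hp1 hU']
    exact hW.min U hU' hTU
  have key := h p t hp hp1 ht0 ht1
    (fun W => Measurable (Function.uncurry W) ∧ (∀ x y, W x y = W y x) ∧
        ∀ x y, 0 ≤ W x y ∧ W x y ≤ 1) (fun W => Iff.rfl)
    (fun W => (1 / 2) * ∫ x in Set.Icc (0:ℝ) 1, ∫ y in Set.Icc (0:ℝ) 1,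
        (W x y * Real.log (W x y / p) + (1 - W x y) * Real.log ((1 - W x y) / (1 - p))))
    (fun W => rfl)
    (fun W => ∫ x in Set.Icc (0:ℝ) 1, ∫ y in Set.Icc (0:ℝ) 1, ∫ z in Set.Icc (0:ℝ) 1,
        W x y * W y z * W x z) (fun W => rfl)
    ⟨W₁, (hgr W₁).mpr hm₁.gr, by
      rw [← Pool.Agent.Helper39.UT.TG_eq hm₁.gr]; exact hm₁.feas, by
      have h1 := Pool.Agent.Helper39.UT.IG_eq hp hp1 hm₁.gr
      have h2 := Pool.Agent.Helper39.UT.IG_eq hp hp1 hconst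
      rw [h1, h2] at hbroken
      exact hbroken⟩
    W₁ W₂ ((hgr W₁).mpr hm₁.gr) ((hgr W₂).mpr hm₂.gr)
    (by rw [← Pool.Agent.Helper39.UT.TG_eq hm₁.gr]; exact hm₁.feas)
    (by rw [← Pool.Agent.Helper39.UT.TG_eq hm₂.gr]; exact hm₂.feas)
    (hmin W₁ hm₁) (hmin W₂ hm₂) 3 Pool.Agent.Helper39.UT.cherry (by decide)
  rw [Pool.Agent.Helper39.UT.CG_eq, Pool.Agent.Helper39.UT.CG_eq] at key
  exact hne key

end Pool.Agent.S19294
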